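import Pool.Agent.ThE.Rfl

/-! # Birkhoff decomposition: every element is conjugate into the big cell -/

namespace ThE

variable {n m : ℕ} {G : Type*} [Group G]

/-- MODULE da. `Subgroup.subset_closure`. -/
theorem Sg.mem {x : Root n → G} {p : Root n → Prop} {r : Root n} (h : p r) : x r ∈ Sg x p := by
  exact Subgroup.subset_closure ⟨r, h, rfl⟩

/-- MODULE da. `Subgroup.closure_mono`. -/
theorem Sg.mono (x : Root n → G) {p q : Root n → Prop} (h : ∀ r, p r → q r) : Sg x p ≤ Sg x q := by
  exact Subgroup.closure_mono (Set.image_mono h)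

/-- MODULE da. If `p s` implies `s ≠ -r` and `p t` for every root `t = r + s`, then `x r` normalizes `Sg x p`: `Subgroup.closure_induction`; for a generator `x s`
either `r + s` is a root `t` and `x r x s x r⁻¹ = x t x s` (`conj_add`), or `x r` commutes with `x s` (`h.comm`). -/
theorem Sg.conj {x : Root n → G} (h : Stb n x) {p : Root n → Prop} {r : Root n} (h1 : ∀ s, p s → s ≠ -r)
    (h2 : ∀ s t : Root n, p s → t.1 = r.1 + s.1 → p t) {g : G} (hg : g ∈ Sg x p) : x r * g * (x r)⁻¹ ∈ Sg x p := by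
  refine Subgroup.closure_induction (p := fun g _ => x r * g * (x r)⁻¹ ∈ Sg x p) ?_ ?_ ?_ ?_ hg
  · rintro _ ⟨s, hs, rfl⟩
    have hs' : p s := hs
    by_cases h3 : ∃ t : Root n, t.1 = r.1 + s.1
    · obtain ⟨t, ht⟩ := h3
      rw [h.conj_add ht]
      exact mul_mem (Sg.mem (h2 s t hs' ht)) (Sg.mem hs')
    · have h4 : r.1 + s.1 ≠ 0 := by
        intro h5
        apply h1 s hs'
        apply Subtype.ext
        rw [neg_val]
        exact (neg_eq_of_add_eq_zero_right h5).symm
      have h5 := h.comm r s h4 (fun t ht => h3 ⟨t, ht⟩)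
      rw [mul_inv_eq_one] at h5
      rw [h5]
      exact Sg.mem hs'
  · rw [mul_one, mul_inv_cancel]
    exact one_mem _
  · intro a b _ _ ha hb
    have h3 := mul_mem ha hb
    have h4 : x r * a * (x r)⁻¹ * (x r * b * (x r)⁻¹) = x r * (a * b) * (x r)⁻¹ := by group
    rwa [h4] at h3
  · intro a _ ha
    have h3 := inv_mem ha
    have h4 : (x r * a * (x r)⁻¹)⁻¹ = x r * a⁻¹ * (x r)⁻¹ := by group
    rwa [h4] at h3

/-- the subgroups `U⁻`, `U⁺` -/
def Um (x : Root n → G) : Subgroup G := Sg x (fun r => ht r.1 < 0)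

/-- see `Um` -/
def Up (x : Root n → G) : Subgroup G := Sg x (fun r => 0 < ht r.1)

/-- the subgroup of `U⁻` generated by the `x r`, `r ≠ -α` -/
def Uma (x : Root n → G) (α : Root n) : Subgroup G := Sg x (fun r => ht r.1 < 0 ∧ r ≠ -α)

/-- MODULE db. `G` is generated by the `x α`, `x (-α)`, `α` simple (height `1`).  Induction on `|ht r|`: every `x r` is in the closure `K`.  `ht r = ± 1` is clear; if `ht r ≥ 2` there is a simple
`α` with `bf α r = 1` (`simple_exists`), `t = r - α` is a root (`root_sub`) of height `ht r - 1`, and `x r` is the commutator of `x α` and `x t` (`h.add`); if `ht r ≤ -2` use `-r` and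
`x r = [x (-α), x (r + α)]`; `ht r ≠ 0` (`ht_ne`). -/
theorem gen_simple (hm : m = 3 ∨ m = 4) {x : Root (4 + m) → G} (h : Stb (4 + m) x) :
    Subgroup.closure (x '' {r | ht r.1 = 1 ∨ ht r.1 = -1}) = ⊤ := by
  set K := Subgroup.closure (x '' {r | ht r.1 = 1 ∨ ht r.1 = -1}) with hK
  have hadd : ∀ r s t : Root (4 + m), t.1 = r.1 + s.1 → x r ∈ K → x s ∈ K → x t ∈ K := by
    intro r s t ht hr hs
    rw [← h.add r s t ht]
    exact mul_mem (mul_mem (mul_mem hr hs) (inv_mem hr)) (inv_mem hs)
  have key : ∀ N : ℕ, ∀ r : Root (4 + m), ht r.1 = N → x r ∈ K ∧ x (-r) ∈ K := by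
    intro N
    induction N using Nat.strong_induction_on with
    | _ N ih =>
      intro r hr
      by_cases h1 : N = 1
      · subst h1
        refine ⟨Subgroup.subset_closure ⟨r, Or.inl (by simpa using hr), rfl⟩,
          Subgroup.subset_closure ⟨-r, Or.inr ?_, rfl⟩⟩
        rw [neg_val, ht_neg, hr]
        rfl
      · have h0 : N ≠ 0 := by
          intro h0
          apply ht_ne hm r
          rw [hr, h0]
          rfl
        obtain ⟨α, hα, hb⟩ := simple_exists hm r (by omega)
        obtain ⟨t, ht1⟩ := root_sub hb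
        have ht2 : ht t.1 = ((N - 1 : ℕ) : ℤ) := by
          rw [ht1, ht_sub, hr, hα]
          omega
        have h2 := ih (N - 1) (by omega) t ht2
        have h3 : x α ∈ K := Subgroup.subset_closure ⟨α, Or.inl hα, rfl⟩
        have h4 : x (-α) ∈ K := Subgroup.subset_closure ⟨-α, Or.inr (by
          show ht (-α).1 = -1
          rw [neg_val, ht_neg, hα]), rfl⟩
        refine ⟨hadd α t r ?_ h3 h2.1, hadd (-α) (-t) (-r) ?_ h4 h2.2⟩
        · rw [ht1]
          exact (add_sub_cancel α.1 r.1).symm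
        · rw [neg_val, neg_val, neg_val, ht1]
          abel
  rw [eq_top_iff, ← h.gen, Subgroup.closure_le]
  rintro _ ⟨r, rfl⟩
  rcases lt_or_gt_of_ne (ht_ne hm r) with h1 | h1
  · have h2 := (key (-(ht r.1)).toNat (-r) (by
      rw [neg_val, ht_neg]
      omega)).2
    rwa [neg_neg'] at h2
  · exact (key (ht r.1).toNat r (by omega)).1

/-- MODULE dc. `x α` and `x (-α)` normalize `Uma x α` for `α` simple: `Sg.conj`; if `ht s < 0`, `s ≠ -α`, and `t = s ± α` is a root, then `ht t ≤ 0`, so `< 0` (`ht_ne`), and `t ≠ -α` because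
`s = - α ∓ α` is `0` or `- 2 α`, not a root (`bf_root`). -/
theorem Uma_conj (hm : m = 3 ∨ m = 4) {x : Root (4 + m) → G} (h : Stb (4 + m) x) {α : Root (4 + m)} (hα : ht α.1 = 1)
    {g : G} (hg : g ∈ Uma x α) : x α * g * (x α)⁻¹ ∈ Uma x α ∧ x (-α) * g * (x (-α))⁻¹ ∈ Uma x α := by
  have hα' : ht (-α).1 = -1 := by
    rw [neg_val, ht_neg, hα]
  constructor
  · refine Sg.conj h (p := fun r => ht r.1 < 0 ∧ r ≠ -α) (fun s hs => hs.2) (fun s t hs ht1 => ⟨?_, ?_⟩) hg
    · have h1 := ht_ne hm t
      have h2 : ht t.1 = 1 + ht s.1 := by rw [ht1, ht_add, hα]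
      have h3 := hs.1
      omega
    · intro h1
      have h2 : s.1 = sv (-2) α.1 := by
        have h3 : s.1 = t.1 - α.1 := by
          rw [ht1]
          abel
        rw [h3, h1, neg_val]
        refine Prod.ext ?_ (funext fun i => ?_)
        · show -α.1.1 - α.1.1 = -2 * α.1.1
          ring
        · show -α.1.2 i - α.1.2 i = -2 * α.1.2 i
          ring
      have h3 := bf_root s
      rw [h2, bf_sv_left, bf_sv_right, bf_root] at h3
      norm_num at h3
  · refine Sg.conj h (p := fun r => ht r.1 < 0 ∧ r ≠ -α) (fun s hs h1 => ?_) (fun s t hs ht1 => ⟨?_, ?_⟩) hg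
    · rw [neg_neg'] at h1
      have h2 := hs.1
      rw [h1, hα] at h2
      omega
    · have h2 : ht t.1 = -1 + ht s.1 := by rw [ht1, ht_add, hα']
      have h3 := hs.1
      omega
    · intro h1
      have h2 : s.1 = 0 := by
        have h3 : s.1 = t.1 - (-α).1 := by
          rw [ht1]
          abel
        rw [h3, h1, sub_self]
      have h3 := bf_root s
      rw [h2] at h3
      simp [bf] at h3

/-- MODULE dd. `U⁻ = Uma ∪ Uma x (-α)`: the set of the `g` with `g ∈ Uma ∨ g * x (-α) ∈ Uma` contains the generators of `Um` and is closed under multiplication (four cases, with `Uma_conj` and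
`x (-α) x (-α) = 1`) and inverses; `Subgroup.closure_induction`. -/
theorem Um_split (hm : m = 3 ∨ m = 4) {x : Root (4 + m) → G} (h : Stb (4 + m) x) {α : Root (4 + m)} (hα : ht α.1 = 1)
    {g : G} (hg : g ∈ Um x) : g ∈ Uma x α ∨ g * x (-α) ∈ Uma x α := by
  have hbb : x (-α) * x (-α) = 1 := h.sq (-α)
  have hbi : (x (-α))⁻¹ = x (-α) := h.inv (-α)
  have hc : ∀ g ∈ Uma x α, x (-α) * g * x (-α) ∈ Uma x α := by
    intro g hg
    have h1 := (Uma_conj hm h hα hg).2
    rwa [hbi] at h1
  refine Subgroup.closure_induction (p := fun g _ => g ∈ Uma x α ∨ g * x (-α) ∈ Uma x α) ?_ ?_ ?_ ?_ hg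
  · rintro _ ⟨r, hr, rfl⟩
    by_cases h1 : r = -α
    · right
      show x r * x (-α) ∈ Uma x α
      rw [h1, hbb]
      exact one_mem _
    · left
      exact Sg.mem (p := fun r => ht r.1 < 0 ∧ r ≠ -α) ⟨hr, h1⟩
  · exact Or.inl (one_mem _)
  · intro a b _ _ ha hb
    rcases ha with ha | ha <;> rcases hb with hb | hb
    · exact Or.inl (mul_mem ha hb)
    · right
      have h1 := mul_mem ha hb
      rwa [← mul_assoc] at h1
    · right
      have h1 := mul_mem ha (hc b hb)
      have h2 : a * x (-α) * (x (-α) * b * x (-α)) = a * b * x (-α) := by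
        calc a * x (-α) * (x (-α) * b * x (-α)) = a * (x (-α) * x (-α)) * b * x (-α) := by simp only [mul_assoc]
          _ = a * b * x (-α) := by rw [hbb, mul_one]
      rwa [h2] at h1
    · left
      have h1 := mul_mem ha (hc _ hb)
      have h2 : a * x (-α) * (x (-α) * (b * x (-α)) * x (-α)) = a * b := by
        calc a * x (-α) * (x (-α) * (b * x (-α)) * x (-α)) = a * (x (-α) * x (-α)) * b * (x (-α) * x (-α)) := by
              simp only [mul_assoc]
          _ = a * b := by rw [hbb, mul_one, mul_one]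
      rwa [h2] at h1
  · intro a _ ha
    rcases ha with ha | ha
    · exact Or.inl (inv_mem ha)
    · right
      have h1 := hc _ (inv_mem ha)
      have h2 : x (-α) * (a * x (-α))⁻¹ * x (-α) = a⁻¹ * x (-α) := by
        rw [mul_inv_rev, mul_inv_cancel_left]
      rwa [h2] at h1

/-- MODULE de. For a simple word `w` and a root `s`: `ht (act w⁻¹ α) ≠ 0`; if `ht (act w.reverse α) > 0` then `x α * nw w = nw w * x (act w.reverse α)`
(`nw_conj` for `s = act w.reverse α`, `act_reverse`). -/
theorem nw_shift (hm : m = 3 ∨ m = 4) {x : Root (4 + m) → G} (h : Stb (4 + m) x) (w : List (Root (4 + m)))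
    (s : Root (4 + m)) : x s * nw x w = nw x w * x (act w.reverse s) := by
  have h1 := nw_conj hm h w (act w.reverse s)
  rw [(act_reverse w s).1] at h1
  rw [← h1]
  group

private theorem df_nn {x : Root n → G} (α : Root n) : nn x (-α) = x (-α) * x α * x (-α) := by
  unfold nn
  rw [neg_neg']

private theorem df_ab (hm : m = 3 ∨ m = 4) {x : Root (4 + m) → G} (h : Stb (4 + m) x) (α : Root (4 + m)) :
    x α * x (-α) = x (-α) * nn x α := by
  rw [← nn_neg hm h α, df_nn, ← mul_assoc, ← mul_assoc, h.sq (-α), one_mul]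

private theorem df_a (hm : m = 3 ∨ m = 4) {x : Root (4 + m) → G} (h : Stb (4 + m) x) (α : Root (4 + m)) :
    x α = x (-α) * nn x α * x (-α) := by
  rw [← df_ab hm h, mul_assoc, h.sq (-α), mul_one]

private theorem df_cons (x : Root n → G) (α : Root n) (w : List (Root n)) : nw x (α :: w) = nn x α * nw x w := by
  simp [nw]

private theorem df_neg_lt {α : Root n} (hα : ht α.1 = 1) : ht (-α).1 < 0 := by
  rw [neg_val, ht_neg, hα]
  norm_num

private theorem df_sub (x : Root n → G) (α : Root n) {g : G} (hg : g ∈ Uma x α) : g ∈ Um x :=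
  Sg.mono x (fun _ hr => hr.1) hg

private theorem df_mem_m {x : Root n → G} {α : Root n} (hα : ht α.1 = 1) : x (-α) ∈ Um x :=
  Sg.mem (p := fun r => ht r.1 < 0) (df_neg_lt hα)

/-- MODULE df. The sets `U⁻ n_w U⁺` are permuted by left multiplication with `x α`, `α` simple.
Write `g ∈ U⁻` as `g = y` or `g = y x (-α)` with `y ∈ Uma` (`Um_split`), and let `y' = x α y x α⁻¹ ∈ Uma` (`Uma_conj`); `Uma ≤ Um` (`Sg.mono`).
Second case: `x α x (-α) = x (-α) nn α` (because `nn α = nn (-α) = x (-α) x α x (-α)`, `nn_neg`), so `x α g n_w u = y' x (-α) n_(α :: w) u`.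
First case: `x α g n_w u = y' x α n_w u` and `x α n_w = n_w x s`, `s = act w.reverse α` (`nw_shift`).  If `ht s > 0` we are done: `x s u ∈ U⁺`.  If `ht s < 0` (`ht_ne`): `x α = x (-α) nn α x (-α)`, and
`x (-α) n_w = n_w x (-s)` (`nw_shift`, `act_neg`), so `x α n_w u = x (-α) n_(α :: w) x (-s) u`. -/
theorem birk_step (hm : m = 3 ∨ m = 4) {x : Root (4 + m) → G} (h : Stb (4 + m) x) {α : Root (4 + m)} (hα : ht α.1 = 1)
    {w : List (Root (4 + m))} (hw : ∀ β ∈ w, ht β.1 = 1) {g u : G} (hg : g ∈ Um x) (hu : u ∈ Up x) :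
    ∃ w' : List (Root (4 + m)), (∀ β ∈ w', ht β.1 = 1) ∧ ∃ g' ∈ Um x, ∃ u' ∈ Up x,
      x α * (g * nw x w * u) = g' * nw x w' * u' := by
  have hcons := df_cons x α w
  rcases Um_split hm h hα hg with hy | hy
  · have hy' : x α * g * (x α)⁻¹ ∈ Um x := df_sub x α (Uma_conj hm h hα hy).1
    rcases lt_or_gt_of_ne (ht_ne hm (act w.reverse α)) with hs | hs
    · refine ⟨α :: w, ?_, x α * g * (x α)⁻¹ * x (-α), mul_mem hy' (df_mem_m hα), x (-(act w.reverse α)) * u, ?_, ?_⟩
      · intro β hβ
        rcases List.mem_cons.1 hβ with h1 | h1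
        · rw [h1]
          exact hα
        · exact hw β h1
      · refine mul_mem (Sg.mem (p := fun r => 0 < ht r.1) ?_) hu
        show 0 < ht (-(act w.reverse α)).1
        rw [neg_val, ht_neg]
        omega
      · have h1 : x (-α) * nw x w = nw x w * x (-(act w.reverse α)) := by
          rw [nw_shift hm h w (-α), act_neg]
        calc x α * (g * nw x w * u) = (x α * g * (x α)⁻¹) * x α * nw x w * u := by group
          _ = (x α * g * (x α)⁻¹) * (x (-α) * nn x α * x (-α)) * nw x w * u := by rw [← df_a hm h α]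
          _ = (x α * g * (x α)⁻¹) * x (-α) * nn x α * (x (-α) * nw x w) * u := by simp only [mul_assoc]
          _ = (x α * g * (x α)⁻¹) * x (-α) * nn x α * (nw x w * x (-(act w.reverse α))) * u := by rw [h1]
          _ = x α * g * (x α)⁻¹ * x (-α) * nw x (α :: w) * (x (-(act w.reverse α)) * u) := by
            rw [hcons]
            simp only [mul_assoc]
    · refine ⟨w, hw, x α * g * (x α)⁻¹, hy', x (act w.reverse α) * u, mul_mem (Sg.mem (p := fun r => 0 < ht r.1) hs) hu, ?_⟩
      calc x α * (g * nw x w * u) = (x α * g * (x α)⁻¹) * (x α * nw x w) * u := by group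
        _ = (x α * g * (x α)⁻¹) * (nw x w * x (act w.reverse α)) * u := by rw [nw_shift hm h w α]
        _ = x α * g * (x α)⁻¹ * nw x w * (x (act w.reverse α) * u) := by simp only [mul_assoc]
  · have hy' : x α * (g * x (-α)) * (x α)⁻¹ ∈ Um x := df_sub x α (Uma_conj hm h hα hy).1
    refine ⟨α :: w, ?_, x α * (g * x (-α)) * (x α)⁻¹ * x (-α), mul_mem hy' (df_mem_m hα), u, hu, ?_⟩
    · intro β hβ
      rcases List.mem_cons.1 hβ with h1 | h1
      · rw [h1]
        exact hα
      · exact hw β h1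
    · have h1 : g = g * x (-α) * x (-α) := by rw [mul_assoc, h.sq (-α), mul_one]
      calc x α * (g * nw x w * u) = x α * ((g * x (-α) * x (-α)) * nw x w * u) := by rw [← h1]
        _ = (x α * (g * x (-α)) * (x α)⁻¹) * (x α * x (-α)) * nw x w * u := by group
        _ = (x α * (g * x (-α)) * (x α)⁻¹) * (x (-α) * nn x α) * nw x w * u := by rw [df_ab hm h α]
        _ = x α * (g * x (-α)) * (x α)⁻¹ * x (-α) * nw x (α :: w) * u := by
          rw [hcons]
          simp only [mul_assoc]

/-- MODULE dg. The set of the elements of this form contains `1` and is closed under left multiplication by the `x α` (`birk_step`) and `x (-α) ∈ U⁻`, `α` simple; these are involutions and generate `G` (`gen_simple`).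
(`Subgroup.closure_induction_left` or an induction on lists: `Subgroup.exists_list_of_mem_closure`.) -/
theorem birkhoff (hm : m = 3 ∨ m = 4) {x : Root (4 + m) → G} (h : Stb (4 + m) x) (z : G) :
    ∃ w : List (Root (4 + m)), (∀ β ∈ w, ht β.1 = 1) ∧ ∃ g ∈ Um x, ∃ u ∈ Up x, z = g * nw x w * u := by
  have hz : z ∈ Subgroup.closure (x '' {r | ht r.1 = 1 ∨ ht r.1 = -1}) := by
    rw [gen_simple hm h]
    exact Subgroup.mem_top z
  have key : ∀ r : Root (4 + m), (ht r.1 = 1 ∨ ht r.1 = -1) → ∀ y : G,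
      (∃ w : List (Root (4 + m)), (∀ β ∈ w, ht β.1 = 1) ∧ ∃ g ∈ Um x, ∃ u ∈ Up x, y = g * nw x w * u) →
      ∃ w : List (Root (4 + m)), (∀ β ∈ w, ht β.1 = 1) ∧ ∃ g ∈ Um x, ∃ u ∈ Up x, x r * y = g * nw x w * u := by
    rintro r hr y ⟨w, hw, g, hg, u, hu, rfl⟩
    rcases hr with hr | hr
    · exact birk_step hm h hr hw hg hu
    · refine ⟨w, hw, x r * g, mul_mem (Sg.mem (p := fun r => ht r.1 < 0) ?_) hg, u, hu, by simp only [mul_assoc]⟩
      show ht r.1 < 0
      omega
  refine Subgroup.closure_induction_left (p := fun z _ => ∃ w : List (Root (4 + m)), (∀ β ∈ w, ht β.1 = 1) ∧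
    ∃ g ∈ Um x, ∃ u ∈ Up x, z = g * nw x w * u) ?_ ?_ ?_ hz
  · exact ⟨[], by simp, 1, one_mem _, 1, one_mem _, by simp [nw]⟩
  · rintro _ ⟨r, hr, rfl⟩ y _ hy
    exact key r hr y hy
  · rintro _ ⟨r, hr, rfl⟩ y _ hy
    rw [h.inv r]
    exact key r hr y hy

/-- MODULE dh. The deletion property.  Let `w` be a word of simple roots and `α` a simple root (more generally: a root of positive height) with `ht (act w.reverse α) < 0`.
Then there is a `w'` with fewer letters than `w` with `nn α * nw w = nw w'`.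
Induction on `w`, for all positive `α`: `w = []` is impossible.  `w = β :: v`: `act (β :: v).reverse α = act v.reverse (rf β α)`.  If `α = β`, then `nn α * nn β * nw v = nw v` (`nn_sq`).
If `α ≠ β` then `ht (rf β α) = ht α - bf β α ≥ ht α - 1 ≥ 0` (`bf_cases`; `α ≠ -β` by the heights), so `> 0` (`ht_ne`), and by induction `nn (rf β α) * nw v = nw v'`, `v'` shorter than `v`; `nn α * nn β = nn β * nn (rf β α)`
(`nn_nn` for `β`, `α`, with `nn β * nn β = 1`), so `nn α * nw (β :: v) = nn β * nw v' = nw (β :: v')`. -/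
theorem deletion (hm : m = 3 ∨ m = 4) {x : Root (4 + m) → G} (h : Stb (4 + m) x) (w : List (Root (4 + m)))
    (hw : ∀ β ∈ w, ht β.1 = 1) (α : Root (4 + m)) (hα : 0 < ht α.1) (hs : ht (act w.reverse α).1 < 0) :
    ∃ w' : List (Root (4 + m)), (∀ β ∈ w', ht β.1 = 1) ∧ w'.length < w.length ∧ nn x α * nw x w = nw x w' := by
  have hn : 4 + m ≤ 8 := by omega
  induction w generalizing α with
  | nil =>
    exfalso
    have h1 : act ([] : List (Root (4 + m))).reverse α = α := rfl
    rw [h1] at hs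
    omega
  | cons β v ih =>
    have hβ : ht β.1 = 1 := hw β List.mem_cons_self
    have hv : ∀ γ ∈ v, ht γ.1 = 1 := fun γ hγ => hw γ (List.mem_cons_of_mem _ hγ)
    have hact : act (β :: v).reverse α = act v.reverse (rf β α) := by
      simp [act]
    have hsq := nn_sq h β
    by_cases hαβ : α = β
    · refine ⟨v, hv, by simp, ?_⟩
      rw [hαβ, df_cons, ← mul_assoc, hsq, one_mul]
    · have hαβ' : α ≠ -β := by
        intro h1
        have h2 := df_neg_lt hβ
        rw [← h1] at h2
        omega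
      have hb := bf_cases hn hαβ hαβ'
      have hh : ht (rf β α).1 = ht α.1 - bf β.1 α.1 := by
        rw [rf_val, ht_sub, ht_sv, hβ, mul_one]
      have hne := ht_ne hm (rf β α)
      have hpos : 0 < ht (rf β α).1 := by
        rcases hb with hb | hb | hb <;> rw [hb] at hh <;> omega
      rw [hact] at hs
      obtain ⟨v', hv', hl, he⟩ := ih hv (rf β α) hpos hs
      refine ⟨β :: v', ?_, by simpa using hl, ?_⟩
      · intro γ hγ
        rcases List.mem_cons.1 hγ with h1 | h1
        · rw [h1]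
          exact hβ
        · exact hv' γ h1
      · have hnn := nn_nn hm h β α
        have h3 : nn x α * nn x β = nn x β * nn x (rf β α) := by
          rw [← hnn, ← mul_assoc, ← mul_assoc, hsq, one_mul]
          congr 1
          exact eq_inv_of_mul_eq_one_left hsq
        rw [df_cons, df_cons, ← mul_assoc, h3, mul_assoc, he]

/-- MODULE di. The reduction step.  Let the word be `α :: w`, `α` simple, with `ht (act w.reverse α) > 0`, `g ∈ U⁻`, `u ∈ U⁺`.  Then `x α (g n_(α :: w) u) x α⁻¹ = g' n_w u'`, `g' ∈ U⁻`, `u' ∈ U⁺`.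
As in `birk_step`: `g = y` or `g = y x (-α)`, `y' = x α y x α⁻¹`.  Second case: `x α x (-α) n_(α :: w) = x (-α) nn α nn α n_w = x (-α) n_w`.  First case: `x α nn α = x (-α) x α` (definition of `nn`, `x α x α = 1`), so
`x α n_(α :: w) = x (-α) x α n_w = x (-α) n_w x s`, `s = act w.reverse α` of positive height (`nw_shift`). -/
theorem reduce_step (hm : m = 3 ∨ m = 4) {x : Root (4 + m) → G} (h : Stb (4 + m) x) {α : Root (4 + m)} (hα : ht α.1 = 1)
    {w : List (Root (4 + m))} (hs : 0 < ht (act w.reverse α).1) {g u : G} (hg : g ∈ Um x) (hu : u ∈ Up x) :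
    ∃ g' ∈ Um x, ∃ u' ∈ Up x, x α * (g * nw x (α :: w) * u) * (x α)⁻¹ = g' * nw x w * u' := by
  have hcons := df_cons x α w
  have ha : x α ∈ Up x := Sg.mem (p := fun r => 0 < ht r.1) (by
    show 0 < ht α.1
    omega)
  rcases Um_split hm h hα hg with hy | hy
  · have hy' : x α * g * (x α)⁻¹ ∈ Um x := df_sub x α (Uma_conj hm h hα hy).1
    refine ⟨x α * g * (x α)⁻¹ * x (-α), mul_mem hy' (df_mem_m hα), x (act w.reverse α) * u * (x α)⁻¹,
      mul_mem (mul_mem (Sg.mem (p := fun r => 0 < ht r.1) hs) hu) (inv_mem ha), ?_⟩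
    have h1 : x α * nn x α = x (-α) * x α := by
      unfold nn
      rw [← mul_assoc, ← mul_assoc, h.sq α, one_mul]
    calc x α * (g * nw x (α :: w) * u) * (x α)⁻¹ = (x α * g * (x α)⁻¹) * (x α * nn x α) * nw x w * u * (x α)⁻¹ := by
          rw [hcons]
          group
      _ = (x α * g * (x α)⁻¹) * (x (-α) * x α) * nw x w * u * (x α)⁻¹ := by rw [h1]
      _ = (x α * g * (x α)⁻¹) * x (-α) * (x α * nw x w) * u * (x α)⁻¹ := by simp only [mul_assoc]
      _ = (x α * g * (x α)⁻¹) * x (-α) * (nw x w * x (act w.reverse α)) * u * (x α)⁻¹ := by rw [nw_shift hm h w α]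
      _ = x α * g * (x α)⁻¹ * x (-α) * nw x w * (x (act w.reverse α) * u * (x α)⁻¹) := by simp only [mul_assoc]
  · have hy' : x α * (g * x (-α)) * (x α)⁻¹ ∈ Um x := df_sub x α (Uma_conj hm h hα hy).1
    refine ⟨x α * (g * x (-α)) * (x α)⁻¹ * x (-α), mul_mem hy' (df_mem_m hα), u * (x α)⁻¹,
      mul_mem hu (inv_mem ha), ?_⟩
    have h1 : g = g * x (-α) * x (-α) := by rw [mul_assoc, h.sq (-α), mul_one]
    have h2 : x α * x (-α) * nn x α = x (-α) := by
      rw [df_ab hm h α, mul_assoc, nn_sq h α, mul_one]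
    calc x α * (g * nw x (α :: w) * u) * (x α)⁻¹ = x α * ((g * x (-α) * x (-α)) * nw x (α :: w) * u) * (x α)⁻¹ := by
          rw [← h1]
      _ = (x α * (g * x (-α)) * (x α)⁻¹) * (x α * x (-α) * nn x α) * nw x w * (u * (x α)⁻¹) := by
        rw [hcons]
        group
      _ = x α * (g * x (-α)) * (x α)⁻¹ * x (-α) * nw x w * (u * (x α)⁻¹) := by rw [h2]

/-- MODULE dj. Strong induction on the length of the word `w` in `birkhoff`: `w = []` is the claim (`c = 1`).  `w = α :: v`: if `ht (act v.reverse α) < 0` replace `w` by a shorter word (`deletion`), otherwise (`ht_ne`) use `reduce_step`. -/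
theorem big_cell (hm : m = 3 ∨ m = 4) {x : Root (4 + m) → G} (h : Stb (4 + m) x) (z : G) :
    ∃ c : G, ∃ g ∈ Um x, ∃ u ∈ Up x, c * z * c⁻¹ = g * u := by
  have key : ∀ N : ℕ, ∀ w : List (Root (4 + m)), w.length = N → (∀ β ∈ w, ht β.1 = 1) → ∀ g ∈ Um x, ∀ u ∈ Up x,
      ∃ c : G, ∃ g' ∈ Um x, ∃ u' ∈ Up x, c * (g * nw x w * u) * c⁻¹ = g' * u' := by
    intro N
    induction N using Nat.strong_induction_on with
    | _ N ih =>
      intro w hN hw g hg u hu
      cases w with
      | nil => exact ⟨1, g, hg, u, hu, by simp [nw]⟩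
      | cons α v =>
        have hα : ht α.1 = 1 := hw α List.mem_cons_self
        have hv : ∀ γ ∈ v, ht γ.1 = 1 := fun γ hγ => hw γ (List.mem_cons_of_mem _ hγ)
        have hl : v.length + 1 = N := by simpa using hN
        rcases lt_or_gt_of_ne (ht_ne hm (act v.reverse α)) with hs | hs
        · obtain ⟨w', hw', hlt, he⟩ := deletion hm h v hv α (by omega) hs
          rw [df_cons, he]
          exact ih w'.length (by omega) w' rfl hw' g hg u hu
        · obtain ⟨g', hg', u', hu', he⟩ := reduce_step hm h hα (w := v) hs hg hu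
          obtain ⟨c, g'', hg'', u'', hu'', hc⟩ := ih v.length (by omega) v rfl hv g' hg' u' hu'
          refine ⟨c * x α, g'', hg'', u'', hu'', ?_⟩
          rw [← hc, ← he]
          group
  obtain ⟨w, hw, g, hg, u, hu, rfl⟩ := birkhoff hm h z
  exact key w.length w rfl hw g hg u hu

end ThE
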