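import Pool.Agent.ThE.Form

/-! # The classification of the roots, heights, levels -/

namespace ThE

variable {n m : ℕ}

private theorem ba_le (hn : n ≤ 8) (r : Root n) : r.1.1 ≤ 3 := by
  obtain ⟨⟨d, f⟩, h1, h2⟩ := r
  simp only at h1 h2 ⊢
  have h3 : (∑ i, f i) ^ 2 ≤ n * ∑ i, f i ^ 2 := by
    have := sq_sum_le_card_mul_sum_sq (s := (Finset.univ : Finset (Fin n))) (f := f)
    simpa using this
  have h4 : (n : ℤ) ≤ ∑ i, (2 * f i - 3) ^ 2 := by
    have h : ∀ i, (1 : ℤ) ≤ (2 * f i - 3) ^ 2 := by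
      intro i
      rcases le_or_gt (f i) 1 with h | h
      · nlinarith
      · nlinarith
    calc (n : ℤ) = ∑ _i : Fin n, (1 : ℤ) := by simp
      _ ≤ _ := Finset.sum_le_sum fun i _ => h i
  have h5 : ∑ i, (2 * f i - 3) ^ 2 = 4 * (d ^ 2 + 2) - 12 * (3 * d) + 9 * n := by
    have h : (9 * n : ℤ) = ∑ _i : Fin n, (9 : ℤ) := by
      simp [mul_comm]
    rw [← h1, ← h2, Finset.mul_sum, Finset.mul_sum, ← Finset.sum_sub_distrib, h, ← Finset.sum_add_distrib]
    exact Finset.sum_congr rfl fun i _ => by ring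
  have hn' : (n : ℤ) ≤ 8 := by exact_mod_cast hn
  rw [h1, h2] at h3
  have h6 : (n : ℤ) * (d ^ 2 + 2) ≤ 8 * (d ^ 2 + 2) := mul_le_mul_of_nonneg_right hn' (by positivity)
  have h7 : d ≤ 4 := by nlinarith
  by_contra hd
  have h8 : d = 4 := by omega
  subst h8
  omega

/-- MODULE ba. `∑ (2 m_i - 3) ^ 2 ≥ n` (odd squares), that is `4 (d ^ 2 + 2) - 36 d + 9 n ≥ n`, so `d ^ 2 - 9 d + 2 + 2 n ≥ 0`; with `n ≤ 8` this excludes
`d = 4` (and `5`, `6`).  `9 d ^ 2 = (∑ m_i) ^ 2 ≤ n ∑ m_i ^ 2 ≤ 8 (d ^ 2 + 2)` (`sq_sum_le_card_mul_sum_sq`) gives `d ^ 2 ≤ 16`.  So `d ≤ 3`.  The lower bound: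
apply this to `-r`. -/
theorem d_bound (hn : n ≤ 8) (r : Root n) : -3 ≤ r.1.1 ∧ r.1.1 ≤ 3 := by
  have h1 := ba_le hn r
  have h2 := ba_le hn (-r)
  have h3 : (-r).1.1 = - r.1.1 := rfl
  omega

private theorem bb_pos (f : Fin n → ℤ) (h1 : ∑ i, f i = 0) (h2 : ∑ i, f i ^ 2 = 2) : ∃ i, 1 ≤ f i := by
  by_contra h
  push Not at h
  have h3 : ∀ i ∈ (Finset.univ : Finset (Fin n)), f i ≤ 0 := fun i _ => by
    have := h i
    omega
  have h4 := (Finset.sum_eq_zero_iff_of_nonpos h3).1 h1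
  have h5 : ∑ i, f i ^ 2 = 0 := Finset.sum_eq_zero fun i hi => by rw [h4 i hi]; rfl
  omega

/-- MODULE bb. `∑ m_i = 0`, `∑ m_i ^ 2 = 2`.  There is `i` with `m_i ≥ 1` (otherwise all `m_i ≤ 0`, the sum is `0`, so all `m_i = 0`, contradiction) and, by the
same reason, `j` with `m_j ≤ -1`; then `m_i ^ 2 + m_j ^ 2 + ∑_{k ≠ i, j} m_k ^ 2 = 2` gives `m_i = 1`, `m_j = -1` and all the others `0`. -/
theorem cls_zero (r : Root n) (hd : r.1.1 = 0) : ∃ i j : Fin n, i ≠ j ∧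
    ∀ k, r.1.2 k = (if k = i then 1 else 0) - (if k = j then 1 else 0) := by
  obtain ⟨⟨d, f⟩, h1, h2⟩ := r
  simp only at h1 h2 hd ⊢
  subst hd
  have h1' : ∑ i, f i = 0 := by simpa using h1
  have h2' : ∑ i, f i ^ 2 = 2 := by simpa using h2
  obtain ⟨i, hi⟩ := bb_pos f h1' h2'
  obtain ⟨j, hj⟩ := bb_pos (fun i => - f i) (by rw [Finset.sum_neg_distrib, h1', neg_zero]) (by simpa using h2')
  have hij : i ≠ j := by
    intro h
    rw [h] at hi
    omega
  have hle : ∀ s : Finset (Fin n), ∑ k ∈ s, f k ^ 2 ≤ 2 := fun s =>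
    (Finset.sum_le_univ_sum_of_nonneg fun k => sq_nonneg (f k)).trans h2'.le
  have h3 := hle {i, j}
  rw [Finset.sum_pair hij] at h3
  refine ⟨i, j, hij, fun k => ?_⟩
  by_cases hki : k = i
  · subst hki
    rw [if_pos rfl, if_neg hij]
    nlinarith
  · by_cases hkj : k = j
    · subst hkj
      rw [if_neg hki, if_pos rfl]
      nlinarith
    · rw [if_neg hki, if_neg hkj]
      have h4 := hle {k, i, j}
      rw [Finset.sum_insert (by simp [hki, hkj]), Finset.sum_pair hij] at h4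
      nlinarith

/-- MODULE bc. `∑ m_i (m_i - 1) = d ^ 2 + 2 - 3 d = (d - 1) (d - 2) = 0` and all terms are `≥ 0`. -/
theorem cls_one_two (r : Root n) (hd : r.1.1 = 1 ∨ r.1.1 = 2) (i : Fin n) : r.1.2 i = 0 ∨ r.1.2 i = 1 := by
  obtain ⟨⟨d, f⟩, h1, h2⟩ := r
  simp only at h1 h2 hd ⊢
  have h3 : ∑ i, f i * (f i - 1) = 0 := by
    have h : ∑ i, f i * (f i - 1) = (d ^ 2 + 2) - 3 * d := by
      rw [← h1, ← h2, ← Finset.sum_sub_distrib]
      exact Finset.sum_congr rfl fun i _ => by ring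
    rw [h]
    rcases hd with hd | hd <;> subst hd <;> norm_num
  have h4 : ∀ i ∈ (Finset.univ : Finset (Fin n)), 0 ≤ f i * (f i - 1) := fun i _ => by
    rcases le_or_gt (f i) 0 with h | h
    · nlinarith
    · nlinarith
  have h5 := (Finset.sum_eq_zero_iff_of_nonneg h4).1 h3 i (Finset.mem_univ i)
  rcases mul_eq_zero.1 h5 with h | h
  · exact Or.inl h
  · exact Or.inr (by omega)

/-- MODULE bc. `∑ (m_i - 1) (m_i - 2) = 11 - 27 + 2 n = 2 n - 16 ≤ 0` and all terms are `≥ 0`, so `n = 8` and `m_i ∈ {1, 2}`; `∑ (m_i - 1) = 1`. -/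
theorem cls_three (hn : n ≤ 8) (r : Root n) (hd : r.1.1 = 3) : n = 8 ∧ ∃ j : Fin n, ∀ k, r.1.2 k = if k = j then 2 else 1 := by
  obtain ⟨⟨d, f⟩, h1, h2⟩ := r
  simp only at h1 h2 hd ⊢
  subst hd
  have h0 : (2 * n : ℤ) = ∑ _i : Fin n, (2 : ℤ) := by
    simp [mul_comm]
  have h3 : ∑ i, (f i - 1) * (f i - 2) = 2 * n - 16 := by
    have h : ∑ i, (f i - 1) * (f i - 2) = (3 ^ 2 + 2) - 3 * (3 * 3) + 2 * n := by
      rw [← h1, ← h2, Finset.mul_sum, ← Finset.sum_sub_distrib, h0, ← Finset.sum_add_distrib]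
      exact Finset.sum_congr rfl fun i _ => by ring
    rw [h]
    ring
  have h4 : ∀ i ∈ (Finset.univ : Finset (Fin n)), 0 ≤ (f i - 1) * (f i - 2) := fun i _ => by
    rcases le_or_gt (f i) 1 with h | h
    · nlinarith
    · nlinarith
  have h5 := Finset.sum_nonneg h4
  have hn8 : n = 8 := by omega
  refine ⟨hn8, ?_⟩
  subst hn8
  have h6 : ∑ i, (f i - 1) * (f i - 2) = 0 := by
    rw [h3]
    norm_num
  have h7 : ∀ i, f i = 1 ∨ f i = 2 := fun i => by
    have h := (Finset.sum_eq_zero_iff_of_nonneg h4).1 h6 i (Finset.mem_univ i)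
    rcases mul_eq_zero.1 h with h | h
    · exact Or.inl (by omega)
    · exact Or.inr (by omega)
  have h8 : ∑ i, (f i - 1) = 1 := by
    rw [Finset.sum_sub_distrib, h1]
    simp
  have h9 : ∃ j, f j = 2 := by
    by_contra h
    push Not at h
    have h' : ∑ i, (f i - 1) = 0 := Finset.sum_eq_zero fun i _ => by
      rcases h7 i with h' | h'
      · omega
      · exact absurd h' (h i)
    omega
  obtain ⟨j, hj⟩ := h9
  refine ⟨j, fun k => ?_⟩
  by_cases hk : k = j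
  · subst hk
    rw [if_pos rfl, hj]
  · rw [if_neg hk]
    have h10 : ∑ i ∈ ({k, j} : Finset (Fin 8)), (f i - 1) ≤ ∑ i, (f i - 1) :=
      Finset.sum_le_univ_sum_of_nonneg fun i => by
        rcases h7 i with h | h <;> omega
    rw [Finset.sum_pair hk, h8] at h10
    rcases h7 k with h | h
    · exact h
    · omega

/-- MODULE bc. The entries of a root with `d ≥ 1` are `≥ 0` and `≤ d` (`d_bound`, `cls_one_two`, `cls_three`). -/
theorem cls_nonneg (hn : n ≤ 8) (r : Root n) (hd : 1 ≤ r.1.1) (i : Fin n) : 0 ≤ r.1.2 i ∧ r.1.2 i ≤ 2 ∧ (r.1.1 ≤ 2 → r.1.2 i ≤ 1) ∧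
    (r.1.1 = 3 → 1 ≤ r.1.2 i) := by
  have hb := d_bound hn r
  have h12 : r.1.1 = 1 ∨ r.1.1 = 2 ∨ r.1.1 = 3 := by omega
  rcases h12 with h | h | h
  · have h1 := cls_one_two r (Or.inl h) i
    omega
  · have h1 := cls_one_two r (Or.inr h) i
    omega
  · obtain ⟨-, j, hj⟩ := cls_three hn r h
    have h1 := hj i
    split_ifs at h1 <;> omega

/-- MODULE bd. Case `n = 7` and case `n = 8` (`subst`, `Fin.sum_univ_succ` to write all the sums explicitly).  By `d_bound` `d ∈ {1, 2, 3}`.  For `d = 1, 2` the entries are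
`0` or `1` with sum `3 d`, for `d = 3` all entries are `≥ 1`; `omega`. -/
theorem ht_pos_of_d (hm : m = 3 ∨ m = 4) (r : Root (4 + m)) (hd : 1 ≤ r.1.1) : 0 < ht r.1 := by
  have hn : 4 + m ≤ 8 := by omega
  have hb := d_bound hn r
  have hc := cls_nonneg hn r hd
  have h12 : r.1.1 = 1 ∨ r.1.1 = 2 ∨ r.1.1 = 3 := by omega
  rcases hm with rfl | rfl
  · have h1 : ∑ i : Fin 7, r.1.2 i = 3 * r.1.1 := r.2.1
    have h2 : ht r.1 = ∑ i : Fin 7, (((i : ℕ) : ℤ) + 1) * r.1.2 i - 5 * r.1.1 := rfl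
    rw [h2]
    have c0 := hc (0 : Fin 7)
    have c1 := hc (1 : Fin 7)
    have c2 := hc (2 : Fin 7)
    have c3 := hc (3 : Fin 7)
    have c4 := hc (4 : Fin 7)
    have c5 := hc (5 : Fin 7)
    have c6 := hc (6 : Fin 7)
    rw [Fin.sum_univ_seven] at h1
    rw [Fin.sum_univ_seven]
    norm_num
    rcases h12 with h | h | h
    · rw [h] at h1 c0 c1 c2 c3 c4 c5 c6 ⊢
      norm_num at c0 c1 c2 c3 c4 c5 c6
      linarith [c0.1, c0.2.2, c1.1, c1.2.2, c2.1, c2.2.2, c3.1, c4.1, c5.1, c6.1]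
    · rw [h] at h1 c0 c1 c2 c3 c4 c5 c6 ⊢
      norm_num at c0 c1 c2 c3 c4 c5 c6
      linarith [c0.1, c0.2.2, c1.1, c1.2.2, c2.1, c2.2.2, c3.1, c3.2.2, c4.1, c4.2.2, c5.1, c5.2.2, c6.1]
    · have := (cls_three hn r h).1
      omega
  · have h1 : ∑ i : Fin 8, r.1.2 i = 3 * r.1.1 := r.2.1
    have h2 : ht r.1 = ∑ i : Fin 8, (((i : ℕ) : ℤ) + 1) * r.1.2 i - 5 * r.1.1 := rfl
    rw [h2]
    have c0 := hc (0 : Fin 8)
    have c1 := hc (1 : Fin 8)
    have c2 := hc (2 : Fin 8)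
    have c3 := hc (3 : Fin 8)
    have c4 := hc (4 : Fin 8)
    have c5 := hc (5 : Fin 8)
    have c6 := hc (6 : Fin 8)
    have c7 := hc (7 : Fin 8)
    rw [Fin.sum_univ_eight] at h1
    rw [Fin.sum_univ_eight]
    norm_num
    rcases h12 with h | h | h
    · rw [h] at h1 c0 c1 c2 c3 c4 c5 c6 c7 ⊢
      norm_num at c0 c1 c2 c3 c4 c5 c6 c7
      linarith [c0.1, c0.2.2, c1.1, c1.2.2, c2.1, c2.2.2, c3.1, c4.1, c5.1, c6.1, c7.1]
    · rw [h] at h1 c0 c1 c2 c3 c4 c5 c6 c7 ⊢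
      norm_num at c0 c1 c2 c3 c4 c5 c6 c7
      linarith [c0.1, c0.2.2, c1.1, c1.2.2, c2.1, c2.2.2, c3.1, c3.2.2, c4.1, c4.2.2, c5.1, c5.2.2, c6.1, c7.1]
    · rw [h] at h1 c0 c1 c2 c3 c4 c5 c6 c7 ⊢
      norm_num at c0 c1 c2 c3 c4 c5 c6 c7
      linarith [c0.2, c1.2, c2.2, c3.2, c4.2, c5.2, c6.2, c7.2]

/-- MODULE be. For `d = 0` (`cls_zero`) the height is `i - j`. -/
theorem ht_of_zero (r : Root n) (hd : r.1.1 = 0) {i j : Fin n}
    (h : ∀ k, r.1.2 k = (if k = i then 1 else 0) - (if k = j then 1 else 0)) : ht r.1 = (i : ℤ) - (j : ℤ) := by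
  have h1 : ht r.1 = ∑ k : Fin n, (((k : ℕ) : ℤ) + 1) * r.1.2 k - 5 * r.1.1 := rfl
  rw [h1, hd]
  have h2 : ∑ k : Fin n, (((k : ℕ) : ℤ) + 1) * r.1.2 k =
      ∑ k : Fin n, ((if k = i then (((k : ℕ) : ℤ) + 1) else 0) - (if k = j then (((k : ℕ) : ℤ) + 1) else 0)) :=
    Finset.sum_congr rfl fun k _ => by
      rw [h k]
      split_ifs <;> ring
  rw [h2, Finset.sum_sub_distrib, Finset.sum_ite_eq', Finset.sum_ite_eq', if_pos (Finset.mem_univ _),
    if_pos (Finset.mem_univ _)]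
  ring

/-- MODULE be. `d > 0`: `ht_pos_of_d`; `d < 0`: the same for `-r`; `d = 0`: `cls_zero`, `ht_of_zero`. -/
theorem ht_ne (hm : m = 3 ∨ m = 4) (r : Root (4 + m)) : ht r.1 ≠ 0 := by
  rcases lt_trichotomy r.1.1 0 with h | h | h
  · have h1 := ht_pos_of_d hm (-r) (show 1 ≤ -r.1.1 by omega)
    have h2 : ht (-r).1 = - ht r.1 := ht_neg r.1
    omega
  · obtain ⟨i, j, hij, hk⟩ := cls_zero r h
    rw [ht_of_zero r h hk]
    intro h0
    exact hij (Fin.ext (by omega))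
  · exact (ht_pos_of_d hm r h).ne'

/-- MODULE be. `d < 0` would give `ht (-r) > 0` (`ht_pos_of_d`). -/
theorem d_nonneg (hm : m = 3 ∨ m = 4) (r : Root (4 + m)) (h : 0 < ht r.1) : 0 ≤ r.1.1 := by
  by_contra hd
  have h1 := ht_pos_of_d hm (-r) (show 1 ≤ -r.1.1 by omega)
  have h2 : ht (-r).1 = - ht r.1 := ht_neg r.1
  omega

private theorem bf_cnt (i : Fin (4 + m)) :
    ∑ j : Fin m, (if Fin.natAdd 4 j = i then (1 : ℤ) else 0) = if 4 ≤ (i : ℕ) then 1 else 0 := by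
  split_ifs with h
  · have h1 : ∀ j : Fin m, (Fin.natAdd 4 j = i) ↔ (j = ⟨(i : ℕ) - 4, by have := i.2; omega⟩) := fun j => by
      constructor
      · intro hj
        apply Fin.ext
        have := congrArg Fin.val hj
        simp at this
        show (j : ℕ) = (i : ℕ) - 4
        omega
      · intro hj
        rw [hj]
        apply Fin.ext
        simp
        omega
    simp only [h1]
    rw [Finset.sum_ite_eq', if_pos (Finset.mem_univ _)]
  · refine Finset.sum_eq_zero fun j _ => if_neg fun hj => h ?_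
    rw [← hj]
    simp

private theorem bf_lam0 (r : Root (4 + m)) {i j : Fin (4 + m)}
    (h : ∀ k, r.1.2 k = (if k = i then 1 else 0) - (if k = j then 1 else 0)) :
    lam r.1 = (if 4 ≤ (i : ℕ) then 1 else 0) - (if 4 ≤ (j : ℕ) then 1 else 0) := by
  have h1 : lam r.1 = ∑ l : Fin m, r.1.2 (Fin.natAdd 4 l) := rfl
  rw [h1, ← bf_cnt i, ← bf_cnt j, ← Finset.sum_sub_distrib]
  exact Finset.sum_congr rfl fun l _ => h _

/-- MODULE bf. `d = 0`: `r = e_i - e_j` with `j < i` (`ht_of_zero`), so `lam r = [4 ≤ i] - [4 ≤ j] ≥ 0`.  `d ≥ 1`: the entries are `≥ 0` (`cls_nonneg`). -/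
theorem lam_nonneg (hm : m = 3 ∨ m = 4) (r : Root (4 + m)) (h : 0 < ht r.1) : 0 ≤ lam r.1 := by
  have hn : 4 + m ≤ 8 := by omega
  have hd := d_nonneg hm r h
  rcases hd.eq_or_lt with h0 | h0
  · obtain ⟨i, j, hij, hk⟩ := cls_zero r h0.symm
    have h1 := ht_of_zero r h0.symm hk
    rw [bf_lam0 r hk]
    split_ifs <;> omega
  · exact Finset.sum_nonneg fun l _ => (cls_nonneg hn r h0 _).1

/-- MODULE bf. `d < 0`: the entries are `≤ 0` (`cls_nonneg` for `-r`), `lam r ≤ 0`.  `d = 0`: `lam r ≤ 1` (`cls_zero`).  `d = 1, 2`: the entries are `≤ 1` and `m ≤ 4`.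
`d = 3`: `lam r = 9 -` (the sum of the first four entries) `≤ 5`, because these entries are `≥ 1` (`Fin.sum_univ_add`). -/
theorem lam_le (hm : m = 3 ∨ m = 4) (r : Root (4 + m)) : lam r.1 ≤ 5 := by
  have hn : 4 + m ≤ 8 := by omega
  have hl : lam r.1 = ∑ l : Fin m, r.1.2 (Fin.natAdd 4 l) := rfl
  rcases lt_trichotomy r.1.1 0 with h | h | h
  · have h1 : ∀ l : Fin m, r.1.2 (Fin.natAdd 4 l) ≤ 0 := fun l => by
      have h2 := (cls_nonneg hn (-r) (show 1 ≤ -r.1.1 by omega) (Fin.natAdd 4 l)).1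
      have h3 : (-r).1.2 (Fin.natAdd 4 l) = - r.1.2 (Fin.natAdd 4 l) := rfl
      omega
    have h4 : ∑ l : Fin m, r.1.2 (Fin.natAdd 4 l) ≤ 0 := Finset.sum_nonpos fun l _ => h1 l
    omega
  · obtain ⟨i, j, hij, hk⟩ := cls_zero r h
    rw [bf_lam0 r hk]
    split_ifs <;> omega
  · have hb := (d_bound hn r).2
    rcases (show r.1.1 ≤ 2 ∨ r.1.1 = 3 by omega) with h2 | h3
    · have h4 : ∑ l : Fin m, r.1.2 (Fin.natAdd 4 l) ≤ ∑ _l : Fin m, (1 : ℤ) :=
        Finset.sum_le_sum fun l _ => (cls_nonneg hn r h _).2.2.1 h2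
      rw [Finset.sum_const, Finset.card_univ, Fintype.card_fin, nsmul_eq_mul, mul_one] at h4
      have h5 : (m : ℤ) ≤ 4 := by omega
      omega
    · have h4 : ∑ i : Fin (4 + m), r.1.2 i = 3 * r.1.1 := r.2.1
      rw [Fin.sum_univ_add, h3] at h4
      have h5 : ∑ _i : Fin 4, (1 : ℤ) ≤ ∑ i : Fin 4, r.1.2 (Fin.castAdd m i) :=
        Finset.sum_le_sum fun i _ => (cls_nonneg hn r h _).2.2.2 h3
      rw [Finset.sum_const, Finset.card_univ, Fintype.card_fin, nsmul_eq_mul, mul_one] at h5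
      push_cast at h5
      omega

/-- the root `e_i - e_j` -/
def eroot {i j : Fin n} (h : i ≠ j) : Root n := ⟨(0, fun k => (if k = i then 1 else 0) - (if k = j then 1 else 0)), by
  constructor
  · simp
  · show ∑ k, ((if k = i then 1 else 0) - (if k = j then 1 else 0) : ℤ) ^ 2 = (0 : ℤ) ^ 2 + 2
    have h1 : ∀ k : Fin n, ((if k = i then 1 else 0) - (if k = j then 1 else 0) : ℤ) ^ 2 =
        (if k = i then 1 else 0) + (if k = j then 1 else 0) := by
      intro k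
      by_cases hi : k = i
      · have hj : k ≠ j := fun hj => h (hi.symm.trans hj)
        simp [hi, h]
      · simp [hi]
    simp [h1, Finset.sum_add_distrib]⟩

/-- MODULE bg. -/
theorem bf_eroot {i j : Fin n} (h : i ≠ j) (v : Vec n) : bf (eroot h).1 v = v.2 i - v.2 j := by
  show ∑ k, ((if k = i then 1 else 0) - (if k = j then 1 else 0) : ℤ) * v.2 k - 0 * v.1 = v.2 i - v.2 j
  simp [sub_mul, Finset.sum_sub_distrib]

/-- MODULE bg. -/
theorem ht_eroot {i j : Fin n} (h : i ≠ j) : ht (eroot h).1 = (i : ℤ) - (j : ℤ) := by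
  show ∑ k : Fin n, (((k : ℕ) : ℤ) + 1) * ((if k = i then 1 else 0) - (if k = j then 1 else 0) : ℤ) - 5 * 0 = (i : ℤ) - (j : ℤ)
  simp [mul_sub, Finset.sum_sub_distrib]

/-- MODULE bg. The root `α_0 = (1; 1, 1, 1, 0, …)`: it is a root, its height is `1`, and `bf α_0 v = v_0 + v_1 + v_2 - d`.  (`Fin.sum_univ_add`, or
`subst` the two values of `m` and `Fin.sum_univ_succ`.) -/
theorem alpha_zero (hm : m = 3 ∨ m = 4) : ∃ α : Root (4 + m), ht α.1 = 1 ∧
    ∀ v : Vec (4 + m), bf α.1 v = v.2 (Fin.castAdd m 0) + v.2 (Fin.castAdd m 1) + v.2 (Fin.castAdd m 2) - v.1 := by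
  rcases hm with rfl | rfl
  · refine ⟨⟨(1, fun i => if (i : ℕ) < 3 then 1 else 0), by decide, by decide⟩, by decide, fun v => ?_⟩
    show ∑ i : Fin 7, (if (i : ℕ) < 3 then 1 else 0 : ℤ) * v.2 i - 1 * v.1 = _
    rw [Fin.sum_univ_seven]
    simp
  · refine ⟨⟨(1, fun i => if (i : ℕ) < 3 then 1 else 0), by decide, by decide⟩, by decide, fun v => ?_⟩
    show ∑ i : Fin 8, (if (i : ℕ) < 3 then 1 else 0 : ℤ) * v.2 i - 1 * v.1 = _
    rw [Fin.sum_univ_eight]
    simp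

private theorem bh_ht7 (v : Vec 7) : ht v = v.2 0 + 2 * v.2 1 + 3 * v.2 2 + 4 * v.2 3 + 5 * v.2 4 +
    6 * v.2 5 + 7 * v.2 6 - 5 * v.1 := by
  unfold ht
  rw [Fin.sum_univ_seven]
  have e0 : (((0 : Fin 7) : ℕ) : ℤ) = 0 := rfl
  have e1 : (((1 : Fin 7) : ℕ) : ℤ) = 1 := rfl
  have e2 : (((2 : Fin 7) : ℕ) : ℤ) = 2 := rfl
  have e3 : (((3 : Fin 7) : ℕ) : ℤ) = 3 := rfl
  have e4 : (((4 : Fin 7) : ℕ) : ℤ) = 4 := rfl
  have e5 : (((5 : Fin 7) : ℕ) : ℤ) = 5 := rfl
  have e6 : (((6 : Fin 7) : ℕ) : ℤ) = 6 := rfl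
  rw [e0, e1, e2, e3, e4, e5, e6]
  ring

private theorem bh_ht8 (v : Vec 8) : ht v = v.2 0 + 2 * v.2 1 + 3 * v.2 2 + 4 * v.2 3 + 5 * v.2 4 +
    6 * v.2 5 + 7 * v.2 6 + 8 * v.2 7 - 5 * v.1 := by
  unfold ht
  rw [Fin.sum_univ_eight]
  have e0 : (((0 : Fin 8) : ℕ) : ℤ) = 0 := rfl
  have e1 : (((1 : Fin 8) : ℕ) : ℤ) = 1 := rfl
  have e2 : (((2 : Fin 8) : ℕ) : ℤ) = 2 := rfl
  have e3 : (((3 : Fin 8) : ℕ) : ℤ) = 3 := rfl
  have e4 : (((4 : Fin 8) : ℕ) : ℤ) = 4 := rfl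
  have e5 : (((5 : Fin 8) : ℕ) : ℤ) = 5 := rfl
  have e6 : (((6 : Fin 8) : ℕ) : ℤ) = 6 := rfl
  have e7 : (((7 : Fin 8) : ℕ) : ℤ) = 7 := rfl
  rw [e0, e1, e2, e3, e4, e5, e6, e7]
  ring

private theorem bh_int {x0 x1 x2 x3 x4 x5 x6 x7 d : ℤ}
    (hs : x0 + x1 + x2 + x3 + x4 + x5 + x6 + x7 = 3 * d) (m0 : x1 ≤ x0) (m1 : x2 ≤ x1)
    (m2 : x3 ≤ x2) (m3 : x4 ≤ x3) (m4 : x5 ≤ x4) (m5 : x6 ≤ x5) (m6 : x7 ≤ x6) (h0 : 0 ≤ x7)
    (h1 : x0 ≤ 1) (hd : d = 1 ∨ d = 2)
    (h : 2 ≤ x0 + 2 * x1 + 3 * x2 + 4 * x3 + 5 * x4 + 6 * x5 + 7 * x6 + 8 * x7 - 5 * d) :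
    x0 + x1 + x2 - d = 1 := by
  have hx2 : 1 ≤ x2 := by
    by_contra hc
    have hc' : x2 ≤ 0 := by omega
    rcases hd with rfl | rfl <;> linarith
  have e2 : x2 = 1 := le_antisymm (by linarith) hx2
  have e1 : x1 = 1 := le_antisymm (by linarith) (by linarith)
  have e0 : x0 = 1 := le_antisymm h1 (by linarith)
  subst e2 e1 e0
  rcases hd with rfl | rfl
  · exfalso
    have a3 : x3 = 0 := le_antisymm (by linarith) (by linarith)
    have a4 : x4 = 0 := le_antisymm (by linarith) (by linarith)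
    have a5 : x5 = 0 := le_antisymm (by linarith) (by linarith)
    have a6 : x6 = 0 := le_antisymm (by linarith) (by linarith)
    have a7 : x7 = 0 := le_antisymm (by linarith) (by linarith)
    subst a3 a4 a5 a6 a7
    norm_num at h
  · norm_num

private theorem bh_int3 {x0 x1 x2 x3 x4 x5 x6 x7 : ℤ}
    (hs : x0 + x1 + x2 + x3 + x4 + x5 + x6 + x7 = 9) (m0 : x1 ≤ x0) (m1 : x2 ≤ x1)
    (m2 : x3 ≤ x2) (m3 : x4 ≤ x3) (m4 : x5 ≤ x4) (m5 : x6 ≤ x5) (m6 : x7 ≤ x6) (h0 : 1 ≤ x7) :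
    x0 + x1 + x2 - 3 = 1 := by
  have hx1 : x1 ≤ 1 := by
    by_contra hc
    have hc' : 2 ≤ x1 := by omega
    linarith
  have e1 : x1 = 1 := le_antisymm hx1 (by linarith)
  have e2 : x2 = 1 := le_antisymm (by linarith) (by linarith)
  have e3 : x3 = 1 := le_antisymm (by linarith) (by linarith)
  have e4 : x4 = 1 := le_antisymm (by linarith) (by linarith)
  have e5 : x5 = 1 := le_antisymm (by linarith) (by linarith)
  have e6 : x6 = 1 := le_antisymm (by linarith) (by linarith)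
  have e7 : x7 = 1 := le_antisymm (by linarith) (by linarith)
  linarith

private theorem bh_seven (r : Root 7) (h : 2 ≤ ht r.1) (hd0 : 0 ≤ r.1.1) (hd3 : r.1.1 ≤ 3)
    (hmono : ∀ i j : Fin 7, (j : ℕ) = i + 1 → r.1.2 j ≤ r.1.2 i) :
    r.1.2 0 + r.1.2 1 + r.1.2 2 - r.1.1 = 1 := by
  have hs := r.2.1
  rw [Fin.sum_univ_seven] at hs
  rw [bh_ht7] at h
  have m0 := hmono 0 1 rfl
  have m1 := hmono 1 2 rfl
  have m2 := hmono 2 3 rfl
  have m3 := hmono 3 4 rfl
  have m4 := hmono 4 5 rfl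
  have m5 := hmono 5 6 rfl
  rcases (by clear hs h hmono m0 m1 m2 m3 m4 m5; omega :
    r.1.1 = 0 ∨ (r.1.1 = 1 ∨ r.1.1 = 2) ∨ r.1.1 = 3) with hd | hd | hd
  · exfalso
    linarith
  · have hd1 : 1 ≤ r.1.1 := by rcases hd with hd | hd <;> rw [hd] <;> norm_num
    have hd2 : r.1.1 ≤ 2 := by rcases hd with hd | hd <;> rw [hd] <;> norm_num
    have hb := fun i => cls_nonneg (by norm_num) r hd1 i
    have b6 := (hb 6).1
    exact bh_int (x7 := 0) (by linarith) m0 m1 m2 m3 m4 m5 b6 le_rfl ((hb 0).2.2.1 hd2) hd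
      (by linarith)
  · exact absurd (cls_three (by norm_num) r hd).1 (by norm_num)

private theorem bh_eight (r : Root 8) (h : 2 ≤ ht r.1) (hd0 : 0 ≤ r.1.1) (hd3 : r.1.1 ≤ 3)
    (hmono : ∀ i j : Fin 8, (j : ℕ) = i + 1 → r.1.2 j ≤ r.1.2 i) :
    r.1.2 0 + r.1.2 1 + r.1.2 2 - r.1.1 = 1 := by
  have hs := r.2.1
  rw [Fin.sum_univ_eight] at hs
  rw [bh_ht8] at h
  have m0 := hmono 0 1 rfl
  have m1 := hmono 1 2 rfl
  have m2 := hmono 2 3 rfl
  have m3 := hmono 3 4 rfl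
  have m4 := hmono 4 5 rfl
  have m5 := hmono 5 6 rfl
  have m6 := hmono 6 7 rfl
  rcases (by clear hs h hmono m0 m1 m2 m3 m4 m5 m6; omega :
    r.1.1 = 0 ∨ (r.1.1 = 1 ∨ r.1.1 = 2) ∨ r.1.1 = 3) with hd | hd | hd
  · exfalso
    linarith
  · have hd1 : 1 ≤ r.1.1 := by rcases hd with hd | hd <;> rw [hd] <;> norm_num
    have hd2 : r.1.1 ≤ 2 := by rcases hd with hd | hd <;> rw [hd] <;> norm_num
    have hb := fun i => cls_nonneg (by norm_num) r hd1 i
    exact bh_int (by linarith) m0 m1 m2 m3 m4 m5 m6 (hb 7).1 ((hb 0).2.2.1 hd2) hd (by linarith)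
  · have hb := fun i => cls_nonneg (by norm_num) r (by rw [hd]; norm_num) i
    rw [hd] at hs ⊢
    exact bh_int3 (by linarith) m0 m1 m2 m3 m4 m5 m6 ((hb 7).2.2.2 hd)

/-- MODULE bh. Let `ht r ≥ 2`.  If there are consecutive `i`, `j = i + 1` with `m_i < m_j`: `α = e_j - e_i` (`eroot`) has height `1` and
`bf α r = m_j - m_i ≥ 1`; `r ≠ ± α` by the heights, so `bf α r = 1` (`bf_cases`; `bf_le`).  Otherwise `m` is weakly decreasing (`antitone`): `d = 0` (`d_nonneg`) would give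
`r = e_i - e_j` with `i < j`, of negative height; `d = 1`: `m = (1, 1, 1, 0, …)`, of height `1`, a contradiction; `d = 2`: `m = (1, 1, 1, 1, 1, 1, 0, …)` and
`bf α_0 r = 3 - 2 = 1`; `d = 3`: `m = (2, 1, …, 1)`, `bf α_0 r = 4 - 3 = 1` (`alpha_zero`).  (For `n = 7, 8` and `d ≥ 1` this can be done by
`omega` with all the entries as variables: the hypotheses are `m_0 ≥ m_1 ≥ …`, the sum and the bounds `cls_nonneg`.) -/
theorem simple_exists (hm : m = 3 ∨ m = 4) (r : Root (4 + m)) (h : 2 ≤ ht r.1) :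
    ∃ α : Root (4 + m), ht α.1 = 1 ∧ bf α.1 r.1 = 1 := by
  have hn : 4 + m ≤ 8 := by omega
  have hd0 := d_nonneg hm r (by omega)
  have hd3 := (d_bound hn r).2
  by_cases hc : ∃ i j : Fin (4 + m), (j : ℕ) = i + 1 ∧ r.1.2 i < r.1.2 j
  · obtain ⟨i, j, hij, hlt⟩ := hc
    have hne : j ≠ i := by
      intro e
      rw [e] at hij
      omega
    refine ⟨eroot hne, ?_, ?_⟩
    · rw [ht_eroot, hij]
      push_cast
      ring
    · have hht : ht (eroot hne).1 = 1 := by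
        rw [ht_eroot, hij]
        push_cast
        ring
      have hb := bf_eroot hne r.1
      rcases bf_cases hn (r := eroot hne) (s := r) (by
          intro e
          rw [e, hht] at h
          omega) (by
          intro e
          rw [e, neg_val, ht_neg, hht] at h
          omega) with h1 | h1 | h1
      · omega
      · omega
      · exact h1
  · push Not at hc
    have hmono : ∀ i j : Fin (4 + m), (j : ℕ) = i + 1 → r.1.2 j ≤ r.1.2 i := fun i j hij => hc i j hij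
    obtain ⟨α, hα, hb⟩ := alpha_zero hm
    refine ⟨α, hα, ?_⟩
    rw [hb]
    rcases hm with rfl | rfl
    · exact bh_seven r h hd0 hd3 hmono
    · exact bh_eight r h hd0 hd3 hmono

private theorem bi_pos (hm : m = 3 ∨ m = 4) (r : Root (4 + m)) (hd : 1 ≤ r.1.1) :
    ∃ a : Root (4 + m), bf a.1 r.1 = 1 := by
  have hn : 4 + m ≤ 8 := by omega
  have hcase : ∃ i j : Fin (4 + m), i ≠ j ∧ r.1.2 i = r.1.2 j + 1 := by
    have hb := d_bound hn r
    by_cases h3 : r.1.1 = 3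
    · obtain ⟨h8, j, hj⟩ := cls_three hn r h3
      obtain ⟨k, hk⟩ : ∃ k : Fin (4 + m), k ≠ j := by
        have : Nontrivial (Fin (4 + m)) := Fin.nontrivial_iff_two_le.2 (by omega)
        exact exists_ne j
      exact ⟨j, k, Ne.symm hk, by rw [hj j, hj k]; simp [hk]⟩
    · have h12 : r.1.1 = 1 ∨ r.1.1 = 2 := by omega
      have hcl := cls_one_two r h12
      have hs := r.2.1
      obtain ⟨i, hi⟩ : ∃ i, r.1.2 i = 1 := by
        by_contra hno
        push Not at hno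
        have : ∑ i, r.1.2 i = 0 := Finset.sum_eq_zero fun i _ => (hcl i).resolve_right (hno i)
        omega
      obtain ⟨j, hj⟩ : ∃ j, r.1.2 j = 0 := by
        by_contra hno
        push Not at hno
        have : ∑ i, r.1.2 i = ∑ _i : Fin (4 + m), 1 :=
          Finset.sum_congr rfl fun i _ => (hcl i).resolve_left (hno i)
        rw [Finset.sum_const, Finset.card_univ, Fintype.card_fin, nsmul_eq_mul, mul_one] at this
        push_cast at this
        omega
      refine ⟨i, j, ?_, by rw [hi, hj]; rfl⟩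
      rintro rfl
      rw [hi] at hj
      exact absurd hj one_ne_zero
  obtain ⟨i, j, hij, h⟩ := hcase
  refine ⟨eroot hij, ?_⟩
  rw [bf_eroot, h]
  ring

/-- MODULE bi. `d = 0`: `r = e_i - e_j` (`cls_zero`), choose `k ≠ i, j` and `a = e_i - e_k`.  `d ≠ 0`: there are `i`, `j` with `m_i = m_j + 1`, `a = e_i - e_j` (`bf_eroot`):
for `d = 1, 2` the entries are `0` or `1` with the sum `3 d`, which is neither `0` nor `n`, for `d = 3` use `cls_three`, for `d < 0` use `-r`. -/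
theorem exists_one (hm : m = 3 ∨ m = 4) (r : Root (4 + m)) : ∃ a : Root (4 + m), bf a.1 r.1 = 1 := by
  have hn : 4 + m ≤ 8 := by omega
  rcases lt_trichotomy r.1.1 0 with hd | hd | hd
  · have h1 : 1 ≤ (-r).1.1 := by
      rw [neg_val, Prod.fst_neg]; omega
    obtain ⟨a, ha⟩ := bi_pos hm (-r) h1
    refine ⟨-a, ?_⟩
    rw [neg_val, bf_neg_right] at ha
    rw [neg_val, bf_neg_left]
    exact ha
  · obtain ⟨i, j, hij, h⟩ := cls_zero r hd
    obtain ⟨k, hki, hkj⟩ : ∃ k : Fin (4 + m), k ≠ i ∧ k ≠ j := by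
      by_contra hno
      push Not at hno
      have h1 : (Finset.univ : Finset (Fin (4 + m))) ⊆ {i, j} := by
        intro k _
        by_cases hk : k = i
        · simp [hk]
        · simp [hno k hk]
      have h2 := Finset.card_le_card h1
      have h3 : ({i, j} : Finset (Fin (4 + m))).card ≤ 2 := Finset.card_le_two
      rw [Finset.card_univ, Fintype.card_fin] at h2
      omega
    refine ⟨eroot (Ne.symm hki), ?_⟩
    rw [bf_eroot, h i, h k]
    simp [hij, hki, hkj]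
  · exact bi_pos hm r (by omega)

private theorem bj_cast (a : Fin 5) (i : Fin 4) : (eA m a).2 (Fin.castAdd m i) =
    if (a : ℕ) = 4 ∨ (i : ℕ) = a then 1 else 0 := by
  unfold eA
  by_cases h : (a : ℕ) = 4
  · have := i.2
    simp [h]
  · simp [h]

private theorem bj_nat (a : Fin 5) (j : Fin m) : (eA m a).2 (Fin.natAdd 4 j) = 0 := by
  unfold eA
  by_cases h : (a : ℕ) = 4
  · simp [h]
  · have h1 : ¬ (4 + (j : ℕ) = a) := by have := a.2; omega
    simp [h, h1]

private theorem bj_fst (a : Fin 5) : (eA m a).1 = if (a : ℕ) = 4 then 1 else 0 := by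
  unfold eA
  by_cases h : (a : ℕ) = 4
  · simp [h]
  · simp [h]

/-- MODULE bj. `bf (ε_a) (ε_b) = [a = b] + [a = 4] + [b = 4]` (`Fin.sum_univ_add`; the entries with index `≥ 4` are `0`). -/
theorem bf_eA (a b : Fin 5) : bf (eA m a) (eA m b) =
    (if a = b then 1 else 0) + (if a = 4 then 1 else 0) + (if b = 4 then 1 else 0) := by
  unfold bf
  rw [Fin.sum_univ_add]
  simp only [bj_cast, bj_nat, bj_fst, mul_zero, Finset.sum_const_zero, add_zero]
  revert a b
  decide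

/-- MODULE bj. `∑ m_i - 3 d = 1` for every `ε_a`. -/
theorem sum_eA (a : Fin 5) : ∑ i, (eA m a).2 i = 3 * (eA m a).1 + 1 := by
  rw [Fin.sum_univ_add]
  simp only [bj_cast, bj_nat, bj_fst, Finset.sum_const_zero, add_zero]
  revert a
  decide

/-- MODULE bj. -/
theorem lam_eA (a : Fin 5) : lam (eA m a) = 0 := by
  unfold lam
  exact Finset.sum_eq_zero fun j _ => bj_nat a j

/-- MODULE bj. From `bf_eA`, `sum_eA` (`bf (vA a b) (vA a b) = 1 + 1 + 2 [a = 4] + 2 [b = 4] - 2 ([a = 4] + [b = 4]) = 2`). -/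
theorem vA_mem {a b : Fin 5} (h : a ≠ b) : ∑ i, (vA m a b).2 i = 3 * (vA m a b).1 ∧ ∑ i, (vA m a b).2 i ^ 2 = (vA m a b).1 ^ 2 + 2 := by
  constructor
  · have h1 := sum_eA (m := m) a
    have h2 := sum_eA (m := m) b
    show ∑ i, ((eA m a).2 i - (eA m b).2 i) = 3 * ((eA m a).1 - (eA m b).1)
    rw [Finset.sum_sub_distrib, h1, h2]
    ring
  · have h1 : bf (vA m a b) (vA m a b) = 2 := by
      unfold vA
      rw [bf_sub_left, bf_sub_right, bf_sub_right, bf_eA, bf_eA, bf_eA, bf_eA]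
      simp only [if_neg h, if_neg (Ne.symm h), if_true]
      ring
    rw [bf_self] at h1
    linarith

/-- MODULE bj. (compare `eroot`) -/
theorem vB_mem {a b : Fin m} (h : a ≠ b) : ∑ i, (vB m a b).2 i = 3 * (vB m a b).1 ∧ ∑ i, (vB m a b).2 i ^ 2 = (vB m a b).1 ^ 2 + 2 := by
  exact (eroot (n := 4 + m) (i := Fin.natAdd 4 a) (j := Fin.natAdd 4 b) (fun e => h (by
    have := congrArg Fin.val e
    simp only [Fin.val_natAdd] at this
    exact Fin.ext (by omega)))).2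

/-- the roots of the component `A_4` -/
def rA (m : ℕ) {a b : Fin 5} (h : a ≠ b) : Root (4 + m) := ⟨vA m a b, vA_mem h⟩

/-- the roots of the component `A_(m-1)` -/
def rB (m : ℕ) {a b : Fin m} (h : a ≠ b) : Root (4 + m) := ⟨vB m a b, vB_mem h⟩

/-- MODULE bk. -/
theorem bf_vA (a b : Fin 5) (v : Vec (4 + m)) : bf (vA m a b) v = bf (eA m a) v - bf (eA m b) v := by
  unfold vA
  exact bf_sub_left _ _ _

/-- MODULE bk. -/
theorem bf_vB (a b : Fin m) (v : Vec (4 + m)) : bf (vB m a b) v = v.2 (Fin.natAdd 4 a) - v.2 (Fin.natAdd 4 b) := by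
  unfold bf vB
  simp [sub_mul, Finset.sum_sub_distrib]

/-- MODULE bk. `bf_vA`, `bf_eA`. -/
theorem bf_vA_vA (a b c d : Fin 5) : bf (vA m a b) (vA m c d) =
    (if a = c then 1 else 0) + (if b = d then 1 else 0) - (if a = d then 1 else 0) - (if b = c then 1 else 0) := by
  rw [bf_vA]
  unfold vA
  rw [bf_sub_right, bf_sub_right, bf_eA, bf_eA, bf_eA, bf_eA]
  ring

/-- MODULE bk. -/
theorem bf_vA_vB (a b : Fin 5) (c d : Fin m) : bf (vA m a b) (vB m c d) = 0 := by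
  rw [bf_comm, bf_vB]
  unfold vA
  rw [Prod.snd_sub, Pi.sub_apply, Pi.sub_apply, bj_nat, bj_nat, bj_nat, bj_nat]
  ring

/-- MODULE bk. -/
theorem bf_vB_vB (a b c d : Fin m) : bf (vB m a b) (vB m c d) =
    (if a = c then 1 else 0) + (if b = d then 1 else 0) - (if a = d then 1 else 0) - (if b = c then 1 else 0) := by
  rw [bf_vB]
  unfold vB
  have h : ∀ x y : Fin m, (Fin.natAdd 4 x = Fin.natAdd 4 y) ↔ x = y := fun x y =>
    ⟨fun e => Fin.ext (by
      have := congrArg Fin.val e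
      simp only [Fin.val_natAdd] at this
      omega), fun e => e ▸ rfl⟩
  simp only [h]
  ring

/-- MODULE bk. -/
theorem lam_vA (a b : Fin 5) : lam (vA m a b) = 0 := by
  unfold vA
  rw [lam_sub, lam_eA, lam_eA, sub_zero]

/-- MODULE bk. -/
theorem lam_vB (a b : Fin m) : lam (vB m a b) = 0 := by
  unfold lam vB
  have h : ∀ x y : Fin m, (Fin.natAdd 4 x = Fin.natAdd 4 y) ↔ x = y := fun x y =>
    ⟨fun e => Fin.ext (by
      have := congrArg Fin.val e
      simp only [Fin.val_natAdd] at this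
      omega), fun e => e ▸ rfl⟩
  simp only [h]
  rw [Finset.sum_sub_distrib]
  simp

/-- MODULE bk. -/
theorem neg_vA (a b : Fin 5) : -(vA m a b) = vA m b a := by
  unfold vA
  exact neg_sub _ _

/-- MODULE bk. -/
theorem neg_vB (a b : Fin m) : -(vB m a b) = vB m b a := by
  unfold vB
  refine Prod.ext (neg_zero) ?_
  funext i
  show -((if i = Fin.natAdd 4 a then 1 else 0) - (if i = Fin.natAdd 4 b then 1 else 0) : ℤ) = _
  exact neg_sub _ _

private theorem bl_ne4 (a : Fin 4) : ((a.castSucc : Fin 5) : ℕ) ≠ 4 := by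
  have := a.2
  simp only [Fin.val_castSucc]
  omega

private theorem bl_eA_cast (m : ℕ) (a : Fin 4) : eA m a.castSucc =
    ((0, fun i => if (i : ℕ) = a then 1 else 0) : Vec (4 + m)) := by
  unfold eA
  rw [if_neg (bl_ne4 a)]
  rfl

private theorem bl_eA_last (m : ℕ) : eA m 4 =
    ((1, fun i => if (i : ℕ) < 4 then 1 else 0) : Vec (4 + m)) := by
  unfold eA
  exact if_pos rfl

private theorem bl_zero (r : Root (4 + m)) (h : lam r.1 = 0) (hd : r.1.1 = 0) :
    (∃ a b : Fin 5, a ≠ b ∧ r.1 = vA m a b) ∨ ∃ a b : Fin m, a ≠ b ∧ r.1 = vB m a b := by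
  obtain ⟨i, j, hij, hr⟩ := cls_zero r hd
  have hlam : ∑ k : Fin m, ((if Fin.natAdd 4 k = i then (1 : ℤ) else 0) -
      (if Fin.natAdd 4 k = j then 1 else 0)) = 0 := by
    have e : ∑ k : Fin m, ((if Fin.natAdd 4 k = i then (1 : ℤ) else 0) -
        (if Fin.natAdd 4 k = j then 1 else 0)) = lam r.1 :=
      Finset.sum_congr rfl (fun k _ => (hr (Fin.natAdd 4 k)).symm)
    exact e.trans h
  rw [Finset.sum_sub_distrib] at hlam
  have hcast : ∀ c : Fin 4, ∑ k : Fin m, (if Fin.natAdd 4 k = Fin.castAdd m c then (1 : ℤ) else 0) = 0 := by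
    intro c
    refine Finset.sum_eq_zero (fun k _ => if_neg ?_)
    intro e
    have e' := congrArg Fin.val e
    rw [Fin.val_natAdd, Fin.val_castAdd] at e'
    have := c.2
    omega
  have hnat : ∀ c : Fin m, ∑ k : Fin m, (if Fin.natAdd 4 k = Fin.natAdd 4 c then (1 : ℤ) else 0) = 1 := by
    intro c
    rw [Finset.sum_eq_single c]
    · rw [if_pos rfl]
    · intro b _ hb
      exact if_neg (fun e => hb (Fin.natAdd_injective _ _ e))
    · intro hc
      exact absurd (Finset.mem_univ c) hc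
  revert hij hr hlam
  refine Fin.addCases (fun a => ?_) (fun a => ?_) i
  · refine Fin.addCases (fun b => ?_) (fun b => ?_) j
    · intro hij hr _
      left
      have hab : a ≠ b := fun e => hij (by rw [e])
      refine ⟨a.castSucc, b.castSucc, fun e => hab (Fin.castSucc_injective _ e), ?_⟩
      unfold vA
      rw [bl_eA_cast, bl_eA_cast]
      refine Prod.ext ?_ ?_
      · show r.1.1 = 0 - 0
        rw [hd]
        norm_num
      · funext k
        show r.1.2 k = (if (k : ℕ) = a then 1 else 0) - (if (k : ℕ) = b then 1 else 0)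
        rw [hr k]
        have e1 : ∀ c : Fin 4, (k = Fin.castAdd m c) = ((k : ℕ) = c) := by
          intro c
          rw [Fin.ext_iff, Fin.val_castAdd]
        simp only [e1]
    · intro hij hr hlam
      rw [hcast, hnat] at hlam
      norm_num at hlam
  · refine Fin.addCases (fun b => ?_) (fun b => ?_) j
    · intro hij hr hlam
      rw [hcast, hnat] at hlam
      norm_num at hlam
    · intro hij hr _
      right
      have hab : a ≠ b := fun e => hij (by rw [e])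
      refine ⟨a, b, hab, ?_⟩
      unfold vB
      refine Prod.ext ?_ ?_
      · exact hd
      · funext k
        exact hr k

private theorem bl_pos (hm : m = 3 ∨ m = 4) (r : Root (4 + m)) (h : lam r.1 = 0)
    (hd : 0 ≤ r.1.1) :
    (∃ a b : Fin 5, a ≠ b ∧ r.1 = vA m a b) ∨ ∃ a b : Fin m, a ≠ b ∧ r.1 = vB m a b := by
  have hn : 4 + m ≤ 8 := by omega
  have hd3 := (d_bound hn r).2
  rcases (by omega : r.1.1 = 0 ∨ 1 ≤ r.1.1) with hd0 | hd1
  · exact bl_zero r h hd0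
  have hb := fun i => cls_nonneg hn r hd1 i
  have hz : ∀ k : Fin m, r.1.2 (Fin.natAdd 4 k) = 0 := by
    intro k
    exact (Finset.sum_eq_zero_iff_of_nonneg (fun k _ => (hb (Fin.natAdd 4 k)).1)).1 h k
      (Finset.mem_univ k)
  have hs := r.2.1
  rw [Fin.sum_univ_add, Finset.sum_eq_zero (fun k _ => hz k), add_zero, Fin.sum_univ_four] at hs
  have c0 := hb (Fin.castAdd m 0)
  have c1 := hb (Fin.castAdd m 1)
  have c2 := hb (Fin.castAdd m 2)
  have c3 := hb (Fin.castAdd m 3)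
  rcases (by omega : r.1.1 = 1 ∨ r.1.1 = 2 ∨ r.1.1 = 3) with hd | hd | hd
  · have hle : r.1.1 ≤ 2 := by rw [hd]; norm_num
    have d0 := c0.2.2.1 hle
    have d1 := c1.2.2.1 hle
    have d2 := c2.2.2.1 hle
    have d3 := c3.2.2.1 hle
    rw [hd] at hs
    have hl : ∃ l : Fin 4, ∀ c : Fin 4, r.1.2 (Fin.castAdd m c) = 1 - (if c = l then 1 else 0) := by
      rcases (by omega : r.1.2 (Fin.castAdd m 0) = 0 ∨ r.1.2 (Fin.castAdd m 1) = 0 ∨
        r.1.2 (Fin.castAdd m 2) = 0 ∨ r.1.2 (Fin.castAdd m 3) = 0) with hh | hh | hh | hh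
      · refine ⟨0, fun c => ?_⟩
        fin_cases c
        · exact hh
        · show r.1.2 (Fin.castAdd m 1) = 1 - 0
          omega
        · show r.1.2 (Fin.castAdd m 2) = 1 - 0
          omega
        · show r.1.2 (Fin.castAdd m 3) = 1 - 0
          omega
      · refine ⟨1, fun c => ?_⟩
        fin_cases c
        · show r.1.2 (Fin.castAdd m 0) = 1 - 0
          omega
        · exact hh
        · show r.1.2 (Fin.castAdd m 2) = 1 - 0
          omega
        · show r.1.2 (Fin.castAdd m 3) = 1 - 0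
          omega
      · refine ⟨2, fun c => ?_⟩
        fin_cases c
        · show r.1.2 (Fin.castAdd m 0) = 1 - 0
          omega
        · show r.1.2 (Fin.castAdd m 1) = 1 - 0
          omega
        · exact hh
        · show r.1.2 (Fin.castAdd m 3) = 1 - 0
          omega
      · refine ⟨3, fun c => ?_⟩
        fin_cases c
        · show r.1.2 (Fin.castAdd m 0) = 1 - 0
          omega
        · show r.1.2 (Fin.castAdd m 1) = 1 - 0
          omega
        · show r.1.2 (Fin.castAdd m 2) = 1 - 0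
          omega
        · exact hh
    obtain ⟨l, hl⟩ := hl
    left
    refine ⟨4, l.castSucc, ?_, ?_⟩
    · intro e
      exact bl_ne4 l (congrArg Fin.val e).symm
    · unfold vA
      rw [bl_eA_cast, bl_eA_last]
      refine Prod.ext ?_ ?_
      · show r.1.1 = 1 - 0
        rw [hd]
        norm_num
      · funext k
        show r.1.2 k = (if (k : ℕ) < 4 then 1 else 0) - (if (k : ℕ) = l then 1 else 0)
        refine Fin.addCases (fun c => ?_) (fun c => ?_) k
        · rw [hl c, Fin.val_castAdd, if_pos c.2]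
          have e1 : (c = l) = ((c : ℕ) = l) := by rw [Fin.ext_iff]
          simp only [e1]
        · rw [hz c, Fin.val_natAdd, if_neg (by omega), if_neg (by have := l.2; omega)]
          norm_num
  · exfalso
    have hle : r.1.1 ≤ 2 := by rw [hd]
    have d0 := c0.2.2.1 hle
    have d1 := c1.2.2.1 hle
    have d2 := c2.2.2.1 hle
    have d3 := c3.2.2.1 hle
    rw [hd] at hs
    linarith
  · exfalso
    have hk := (hb (Fin.natAdd 4 ⟨0, by omega⟩)).2.2.2 hd
    rw [hz] at hk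
    norm_num at hk

/-- MODULE bl. Let `lam r = 0`.  `d = 0`: `r = e_i - e_j` (`cls_zero`) and `[4 ≤ i] = [4 ≤ j]`: both indices are `< 4` (`vA`) or both are `≥ 4` (`vB`; `Fin.natAdd`).
`d = 1`: the entries are `0` or `1`, those with index `≥ 4` are `0`, so exactly one of the first four, the `l`-th, is `0`: `r = ε_4 - e_l = vA 4 l`.  `d = 2`: the sum
of the first four entries would be `6`, but they are `≤ 1`.  `d = 3`: `lam r ≥ m > 0`.  `d < 0`: apply this to `-r` (`neg_vA`, `neg_vB`). -/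
theorem lam_zero (hm : m = 3 ∨ m = 4) (r : Root (4 + m)) (h : lam r.1 = 0) :
    (∃ a b : Fin 5, a ≠ b ∧ r.1 = vA m a b) ∨ ∃ a b : Fin m, a ≠ b ∧ r.1 = vB m a b := by
  by_cases hd : 0 ≤ r.1.1
  · exact bl_pos hm r h hd
  · have h1 : lam (-r).1 = 0 := by
      rw [neg_val, lam_neg, h, neg_zero]
    have h2 : 0 ≤ (-r).1.1 := by
      rw [neg_val]
      show 0 ≤ -r.1.1
      omega
    rcases bl_pos hm (-r) h1 h2 with ⟨a, b, hab, e⟩ | ⟨a, b, hab, e⟩
    · left
      refine ⟨b, a, hab.symm, ?_⟩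
      rw [neg_val] at e
      rw [← neg_vA, ← e, neg_neg]
    · right
      refine ⟨b, a, hab.symm, ?_⟩
      rw [neg_val] at e
      rw [← neg_vB, ← e, neg_neg]

end ThE
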