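import Pool.Agent.ThE.Defs

/-! # Block companion form of the invertible matrices over the field with two elements -/

namespace ThE

open Matrix Module Polynomial

variable {k : ℕ}

/-- the basis of the quotient by a monic polynomial -/
private theorem ga_basis {q : (ZMod 2)[X]} (hq : q.Monic) :
    ∃ b : Basis (Fin q.natDegree) (ZMod 2) ((ZMod 2)[X] ⧸ (Submodule.span (ZMod 2)[X] {q})),
      ∀ j : Fin q.natDegree, b j = Submodule.Quotient.mk (X ^ (j : ℕ)) := by
  refine ⟨AdjoinRoot.powerBasisAux' hq, fun j => ?_⟩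
  have := (AdjoinRoot.powerBasis' hq).basis_eq_pow j
  have h2 : (AdjoinRoot.powerBasisAux' hq) j = AdjoinRoot.root q ^ (j : ℕ) := this
  refine h2.trans ?_
  rw [AdjoinRoot.root, ← map_pow]
  rfl

private theorem ga_top {q : (ZMod 2)[X]} (hq : q.Monic)
    (b : Basis (Fin q.natDegree) (ZMod 2) ((ZMod 2)[X] ⧸ (Submodule.span (ZMod 2)[X] {q})))
    (hb : ∀ j : Fin q.natDegree, b j = Submodule.Quotient.mk (X ^ (j : ℕ))) :
    (Submodule.Quotient.mk (X ^ q.natDegree) : (ZMod 2)[X] ⧸ (Submodule.span (ZMod 2)[X] {q})) =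
      ∑ l : Fin q.natDegree, q.coeff l • b l := by
  have h1 : (∑ l : Fin q.natDegree, q.coeff l • b l) =
      Submodule.Quotient.mk (∑ l : Fin q.natDegree, q.coeff l • X ^ (l : ℕ)) := by
    have : ∀ s : Finset (Fin q.natDegree), (∑ l ∈ s, q.coeff l • b l) =
      Submodule.Quotient.mk (∑ l ∈ s, q.coeff l • X ^ (l : ℕ)) := by
      intro s
      induction s using Finset.induction_on with
      | empty => rfl
      | insert a s ha ih =>
        rw [Finset.sum_insert ha, Finset.sum_insert ha, ih, hb, Submodule.Quotient.mk_add]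
        rfl
    exact this _
  rw [h1, Submodule.Quotient.eq, Submodule.mem_span_singleton]
  refine ⟨1, ?_⟩
  have h2 : q = X ^ q.natDegree + ∑ l : Fin q.natDegree, q.coeff l • X ^ (l : ℕ) := by
    conv_lhs => rw [q.as_sum_range]
    rw [Finset.sum_range_succ, add_comm, hq.coeff_natDegree, Finset.sum_range]
    congr 1
    · rw [monomial_one_right_eq_X_pow]
    · refine Finset.sum_congr rfl fun l _ => ?_
      rw [smul_X_eq_monomial]
  rw [one_smul]
  conv_lhs => rw [h2]
  rw [sub_eq_add_neg, CharTwo.neg_eq]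

private theorem ga_main {W : Type} [AddCommGroup W] [Module (ZMod 2) W] [FiniteDimensional (ZMod 2) W] (T : Module.End (ZMod 2) W) :
    ∃ (ι : Type) (_ : Fintype ι) (q : ι → (ZMod 2)[X]) (b : Basis (Σ i, Fin (q i).natDegree) (ZMod 2) W),
      (∀ i, (q i).Monic) ∧
      ∀ (i : ι) (j : Fin (q i).natDegree),
        T (b ⟨i, j⟩) = if h : (j : ℕ) + 1 < (q i).natDegree then b ⟨i, ⟨(j : ℕ) + 1, h⟩⟩
          else ∑ l : Fin (q i).natDegree, (q i).coeff l • b ⟨i, l⟩ := by
  classical
  have htor : Module.IsTorsion (ZMod 2)[X] (Module.AEval' T) := by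
    intro x
    refine ⟨⟨minpoly (ZMod 2) T, mem_nonZeroDivisors_of_ne_zero (minpoly.ne_zero (Algebra.IsIntegral.isIntegral T))⟩, ?_⟩
    obtain ⟨w, rfl⟩ := (Module.AEval'.of T).surjective x
    change minpoly (ZMod 2) T • (Module.AEval'.of T) w = 0
    have := (Module.AEval.of_aeval_smul (R := ZMod 2) (M := W) (a := T) (minpoly (ZMod 2) T) w)
    rw [minpoly.aeval] at this
    rw [zero_smul, map_zero] at this
    exact this.symm
  obtain ⟨ι, fι, p, hp, e, ⟨E⟩⟩ := Module.equiv_directSum_of_isTorsion htor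
  have hne : ∀ i, (p i ^ e i) ≠ 0 := fun i => pow_ne_zero _ (hp i).ne_zero
  have hmon : ∀ i, (p i ^ e i).Monic := by
    intro i
    have h0 : (p i ^ e i).leadingCoeff ≠ 0 := leadingCoeff_ne_zero.mpr (hne i)
    have : ∀ z : ZMod 2, z ≠ 0 → z = 1 := by decide
    exact this _ h0
  choose bb hbb using fun i => ga_basis (hmon i)
  let E1 : Module.AEval' T ≃ₗ[(ZMod 2)[X]] (∀ i, (ZMod 2)[X] ⧸ (Submodule.span (ZMod 2)[X] {p i ^ e i})) :=
    E.trans (DirectSum.linearEquivFunOnFintype (ZMod 2)[X] ι _)
  let E2 : W ≃ₗ[ZMod 2] (∀ i, (ZMod 2)[X] ⧸ (Submodule.span (ZMod 2)[X] {p i ^ e i})) :=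
    (Module.AEval'.of T).trans (E1.restrictScalars (ZMod 2))
  have hX : ∀ w, E2 (T w) = (X : (ZMod 2)[X]) • E2 w := by
    intro w
    change E1 ((Module.AEval'.of T) (T w)) = (X : (ZMod 2)[X]) • E1 ((Module.AEval'.of T) w)
    rw [← map_smul, ← Module.AEval'.X_smul_of]
  have hX2 : ∀ v, T (E2.symm v) = E2.symm ((X : (ZMod 2)[X]) • v) := by
    intro v
    apply E2.injective
    rw [hX, LinearEquiv.apply_symm_apply, LinearEquiv.apply_symm_apply]
  refine ⟨ι, fι, fun i => p i ^ e i, (Pi.basis bb).map E2.symm, hmon, ?_⟩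
  intro i j
  have hbv : ∀ l : Fin (p i ^ e i).natDegree, ((Pi.basis bb).map E2.symm) ⟨i, l⟩ = E2.symm (Pi.single i (bb i l)) := by
    intro l
    rw [Basis.map_apply, Pi.basis_apply]
  have hXs : ∀ v : (ZMod 2)[X] ⧸ (Submodule.span (ZMod 2)[X] {p i ^ e i}),
      (X : (ZMod 2)[X]) • (Pi.single i v : ∀ i, (ZMod 2)[X] ⧸ (Submodule.span (ZMod 2)[X] {p i ^ e i})) =
        Pi.single i ((X : (ZMod 2)[X]) • v) := by
    intro v
    funext a
    by_cases h : a = i
    · subst h
      rw [Pi.smul_apply, Pi.single_eq_same, Pi.single_eq_same]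
    · rw [Pi.smul_apply, Pi.single_eq_of_ne h, Pi.single_eq_of_ne h, smul_zero]
  have hXm : (X : (ZMod 2)[X]) • bb i j = Submodule.Quotient.mk (X ^ ((j : ℕ) + 1)) := by
    rw [hbb, ← Submodule.Quotient.mk_smul, smul_eq_mul, ← pow_succ']
  rw [hbv, hX2, hXs, hXm]
  split_ifs with h
  · rw [hbv, hbb]
  · have hj : (j : ℕ) + 1 = (p i ^ e i).natDegree := by
      have h2 : (j : ℕ) < (p i ^ e i).natDegree := j.2
      have h3 : ¬ ((j : ℕ) + 1 < (p i ^ e i).natDegree) := h
      omega
    rw [hj, ga_top (hmon i) (bb i) (hbb i)]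
    have : (Pi.single i (∑ l : Fin (p i ^ e i).natDegree, (p i ^ e i).coeff l • bb i l) :
        ∀ i, (ZMod 2)[X] ⧸ (Submodule.span (ZMod 2)[X] {p i ^ e i})) =
        ∑ l : Fin (p i ^ e i).natDegree, (p i ^ e i).coeff l • Pi.single i (bb i l) := by
      have h1 := map_sum (LinearMap.single (ZMod 2) (fun i => (ZMod 2)[X] ⧸ (Submodule.span (ZMod 2)[X] {p i ^ e i})) i)
        (fun l : Fin (p i ^ e i).natDegree => (p i ^ e i).coeff l • bb i l) Finset.univ
      simp only [map_smul, LinearMap.coe_single] at h1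
      exact h1
    rw [this, map_sum]
    refine Finset.sum_congr rfl fun l _ => ?_
    rw [map_smul, hbv]

/-- MODULE ga. The cyclic decomposition: for an endomorphism `T` of a finite dimensional space over the field with two elements there are monic polynomials `q i` (`i` in a finite type) of positive degree and a basis
`b (i, j)`, `j < deg (q i)`, with `T (b (i, j)) = b (i, j + 1)` for `j + 1 < deg (q i)` and `T (b (i, deg - 1)) = ∑_j (q i)_j b (i, j)` (signs do not matter).
From `Module.equiv_directSum_of_isTorsion` for the module `Module.AEval' T` over `(ZMod 2)[X]` (it is finite and torsion: `minpoly`), with `q i = p i ^ e i`, leaving out the `i` with `q i` of degree `0` (then the summand is trivial); a nonzero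
polynomial over the field with two elements is monic; the basis of `(ZMod 2)[X] / (q)` consists of the powers of `X` (`AdjoinRoot.powerBasis'` or a direct argument with division by the monic `q`). -/
theorem cyc_dec {W : Type} [AddCommGroup W] [Module (ZMod 2) W] [FiniteDimensional (ZMod 2) W] (T : Module.End (ZMod 2) W) :
    ∃ (ι : Type) (_ : Fintype ι) (q : ι → (ZMod 2)[X]) (b : Basis (Σ i, Fin (q i).natDegree) (ZMod 2) W),
      (∀ i, (q i).Monic ∧ 0 < (q i).natDegree) ∧
      ∀ (i : ι) (j : Fin (q i).natDegree),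
        T (b ⟨i, j⟩) = if h : (j : ℕ) + 1 < (q i).natDegree then b ⟨i, ⟨(j : ℕ) + 1, h⟩⟩
          else ∑ l : Fin (q i).natDegree, (q i).coeff l • b ⟨i, l⟩ := by
  classical
  obtain ⟨ι, fι, q, b, hm, hT⟩ := ga_main T
  let eqv : (Σ i : ι, Fin (q i).natDegree) ≃ (Σ i : {i : ι // 0 < (q i).natDegree}, Fin (q i.1).natDegree) :=
    { toFun := fun x => ⟨⟨x.1, lt_of_le_of_lt (Nat.zero_le _) x.2.2⟩, x.2⟩
      invFun := fun x => ⟨x.1.1, x.2⟩
      left_inv := fun x => rfl
      right_inv := fun x => rfl }
  refine ⟨{i : ι // 0 < (q i).natDegree}, inferInstance, fun i => q i.1, b.reindex eqv, fun i => ⟨hm _, i.2⟩, ?_⟩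
  intro i j
  have hb : ∀ l : Fin (q i.1).natDegree, (b.reindex eqv) ⟨i, l⟩ = b ⟨i.1, l⟩ := by
    intro l
    rw [Basis.reindex_apply]
    rfl
  rw [hb, hT]
  split_ifs with h
  · rw [hb]
  · exact Finset.sum_congr rfl fun l _ => by rw [hb]

/-- the code of a polynomial -/
noncomputable def code (q : (ZMod 2)[X]) : ℕ := ∑ i ∈ Finset.range (q.natDegree + 1), if q.coeff i = 1 then 2 ^ i else 0

private theorem gb_lt (f : ℕ → Prop) [DecidablePred f] (n : ℕ) :
    (∑ i ∈ Finset.range n, if f i then 2 ^ i else 0) < 2 ^ n := by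
  induction n with
  | zero => simp
  | succ n ih =>
    rw [Finset.sum_range_succ, pow_succ]
    split_ifs <;> omega

private theorem gb_bit (f : ℕ → Prop) [DecidablePred f] (n j : ℕ) :
    (∑ i ∈ Finset.range n, if f i then 2 ^ i else 0).testBit j = decide (j < n ∧ f j) := by
  induction n with
  | zero => simp
  | succ n ih =>
    rw [Finset.sum_range_succ]
    rcases lt_trichotomy j n with h | h | h
    · have h1 : (j < n + 1) := by omega
      split_ifs with hf
      · rw [add_comm, Nat.testBit_two_pow_add_gt h, ih]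
        simp [h, h1]
      · rw [add_zero, ih]
        simp [h, h1]
    · subst h
      have h2 := gb_lt f j
      split_ifs with hf
      · rw [add_comm, Nat.testBit_two_pow_add_eq, ih]
        simp [hf]
      · rw [add_zero, ih]
        simp [hf]
    · have h1 : ¬ (j < n + 1) := by omega
      have h2 := gb_lt f (n + 1)
      rw [Finset.sum_range_succ] at h2
      have h3 : 2 ^ (n + 1) ≤ 2 ^ j := Nat.pow_le_pow_right (by norm_num) (by omega)
      rw [Nat.testBit_lt_two_pow (lt_of_lt_of_le h2 h3)]
      simp [h1]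

/-- MODULE gb. The binary digits of the code are the coefficients (`Nat.testBit` of a sum of distinct powers of two, induction on the number of summands). -/
theorem code_testBit (q : (ZMod 2)[X]) (i : ℕ) : (code q).testBit i = decide (q.coeff i = 1) := by
  rw [code, gb_bit (fun i => q.coeff i = 1)]
  by_cases h : q.coeff i = 1
  · have : i < q.natDegree + 1 := by
      by_contra h2
      have h3 : q.coeff i = 0 := coeff_eq_zero_of_natDegree_lt (by omega)
      rw [h3] at h
      exact absurd h (by decide)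
    simp [h, this]
  · simp [h]

/-- MODULE gb. `Nat.log2` of the code of a monic polynomial is its degree; a code is odd iff the constant coefficient is `1`. -/
theorem code_log2 {q : (ZMod 2)[X]} (hq : q.Monic) : Nat.log2 (code q) = q.natDegree ∧
    (q.coeff 0 = 1 → code q % 2 = 1) ∧ (0 < q.natDegree → 2 ≤ code q) := by
  have h1 : code q < 2 ^ (q.natDegree + 1) := gb_lt (fun i => q.coeff i = 1) _
  have h2 : 2 ^ q.natDegree ≤ code q := by
    rw [code, Finset.sum_range_succ, hq.coeff_natDegree, if_pos rfl]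
    omega
  refine ⟨?_, ?_, ?_⟩
  · rw [Nat.log2_eq_log_two]
    exact Nat.log_eq_of_pow_le_of_lt_pow h2 h1
  · intro h
    have := code_testBit q 0
    rw [Nat.testBit_zero, h] at this
    simpa using this
  · intro h
    have : 2 ^ 1 ≤ 2 ^ q.natDegree := Nat.pow_le_pow_right (by norm_num) h
    omega

/-- the basis relation for a list of codes: `b` is a basis of `W` in which `T` has the matrix `cbm k L` -/
def CB (k : ℕ) (L : List ℕ) (T : Module.End (ZMod 2) (Fin k → ZMod 2)) : Prop :=
  ∃ b : Basis (Fin k) (ZMod 2) (Fin k → ZMod 2), ∀ j, T (b j) = ∑ i, cbm k L i j • b i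

/-- the entries in the field -/
private def gc_z (L : List ℕ) (m n : ℕ) : ZMod 2 := if cb L m n then 1 else 0

private theorem gc_z1 {c : ℕ} {L : List ℕ} {d m n : ℕ} (hd : Nat.log2 c = d) (hm : m < d) (hn : n < d) :
    gc_z (c :: L) m n = if n + 1 = d then (if c.testBit m then 1 else 0) else (if m = n + 1 then 1 else 0) := by
  rw [gc_z, cb, hd]
  by_cases h : n + 1 = d <;> simp [hm, hn, h]

private theorem gc_z2 {c : ℕ} {L : List ℕ} {d m n : ℕ} (hd : Nat.log2 c = d) (hn : n < d) :
    gc_z (c :: L) (d + m) n = 0 := by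
  rw [gc_z, cb, hd]
  have h1 : ¬ (d + m < d ∧ n < d) := by omega
  have h2 : ¬ (d ≤ d + m ∧ d ≤ n) := by omega
  simp only [h1, h2, if_false]
  rfl

private theorem gc_z3 {c : ℕ} {L : List ℕ} {d m n : ℕ} (hd : Nat.log2 c = d) (hm : m < d) :
    gc_z (c :: L) m (d + n) = 0 := by
  rw [gc_z, cb, hd]
  have h1 : ¬ (m < d ∧ d + n < d) := by omega
  have h2 : ¬ (d ≤ m ∧ d ≤ d + n) := by omega
  simp only [h1, h2, if_false]
  rfl

private theorem gc_z4 {c : ℕ} {L : List ℕ} {d m n : ℕ} (hd : Nat.log2 c = d) :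
    gc_z (c :: L) (d + m) (d + n) = gc_z L m n := by
  rw [gc_z, cb, hd]
  have h1 : ¬ (d + m < d ∧ d + n < d) := by omega
  have h2 : (d ≤ d + m ∧ d ≤ d + n) := by omega
  simp only [h1, h2, if_false, if_true, Nat.add_sub_cancel_left, and_self]
  rfl

private theorem gc_ind {W : Type} [AddCommGroup W] [Module (ZMod 2) W] (T : Module.End (ZMod 2) W)
    {ι : Type} (q : ι → (ZMod 2)[X]) (hq : ∀ i, (q i).Monic) (b : (Σ i, Fin (q i).natDegree) → W)
    (hT : ∀ (i : ι) (j : Fin (q i).natDegree),
        T (b ⟨i, j⟩) = if h : (j : ℕ) + 1 < (q i).natDegree then b ⟨i, ⟨(j : ℕ) + 1, h⟩⟩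
          else ∑ l : Fin (q i).natDegree, (q i).coeff l • b ⟨i, l⟩) :
    ∀ l : List ι, l.Nodup → ∀ N, N = (l.map fun i => (q i).natDegree).sum →
      ∃ f : Fin N → (Σ i, Fin (q i).natDegree), Function.Injective f ∧ (∀ n, (f n).1 ∈ l) ∧
        ∀ n : Fin N, T (b (f n)) = ∑ m : Fin N, gc_z (l.map fun i => code (q i)) m n • b (f m) := by
  intro l
  induction l with
  | nil =>
    intro _ N hN
    rw [List.map_nil, List.sum_nil] at hN
    subst hN
    exact ⟨fun n => n.elim0, fun n => n.elim0, fun n => n.elim0, fun n => n.elim0⟩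
  | cons i l ih =>
    intro hn N hN
    rw [List.nodup_cons] at hn
    rw [List.map_cons, List.sum_cons] at hN
    obtain ⟨D, hD⟩ : ∃ D, D = (l.map fun i => (q i).natDegree).sum := ⟨_, rfl⟩
    rw [← hD] at hN
    subst hN
    obtain ⟨f, hf1, hf2, hf3⟩ := ih hn.2 D hD
    have hlog : Nat.log2 (code (q i)) = (q i).natDegree := (code_log2 (hq i)).1
    refine ⟨Fin.addCases (fun j => ⟨i, j⟩) f, ?_, ?_, ?_⟩
    · intro x y hxy
      refine Fin.addCases (fun a => ?_) (fun a => ?_) x (motive := fun x => ∀ _ : (Fin.addCases (fun j => ⟨i, j⟩) f x : Σ i, Fin (q i).natDegree) = Fin.addCases (fun j => ⟨i, j⟩) f y, x = y) hxy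
      · refine Fin.addCases (fun c => ?_) (fun c => ?_) y
        · intro h
          simp only [Fin.addCases_left] at h
          have := (Sigma.mk.inj_iff.mp h).2
          rw [eq_of_heq this]
        · intro h
          simp only [Fin.addCases_left, Fin.addCases_right] at h
          have h2 := hf2 c
          rw [← h] at h2
          exact absurd h2 hn.1
      · refine Fin.addCases (fun c => ?_) (fun c => ?_) y
        · intro h
          simp only [Fin.addCases_left, Fin.addCases_right] at h
          have h2 := hf2 a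
          rw [h] at h2
          exact absurd h2 hn.1
        · intro h
          simp only [Fin.addCases_right] at h
          rw [hf1 h]
    · intro x
      refine Fin.addCases (fun a => ?_) (fun a => ?_) x
      · simp only [Fin.addCases_left]
        exact List.mem_cons_self
      · simp only [Fin.addCases_right]
        exact List.mem_cons_of_mem _ (hf2 a)
    · intro x
      rw [List.map_cons, Fin.sum_univ_add]
      refine Fin.addCases (fun a => ?_) (fun a => ?_) x
      · have ha : (a : ℕ) < (q i).natDegree := a.2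
        simp only [Fin.addCases_left, Fin.addCases_right, Fin.val_castAdd, Fin.val_natAdd]
        have h0 : (∑ m : Fin D, gc_z (code (q i) :: l.map fun i => code (q i)) ((q i).natDegree + m) a • b (f m)) = 0 := by
          refine Finset.sum_eq_zero fun m _ => ?_
          rw [gc_z2 hlog ha, zero_smul]
        rw [h0, add_zero, hT]
        split_ifs with h
        · rw [Finset.sum_eq_single (⟨(a : ℕ) + 1, h⟩ : Fin (q i).natDegree)]
          · rw [gc_z1 hlog h ha, if_neg (by omega), if_pos rfl, one_smul]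
          · intro m _ hm
            rw [gc_z1 hlog m.2 ha, if_neg (by omega), if_neg (fun h => hm (Fin.ext h)), zero_smul]
          · intro h2
            exact absurd (Finset.mem_univ _) h2
        · refine Finset.sum_congr rfl fun m _ => ?_
          rw [gc_z1 hlog m.2 ha, if_pos (by omega)]
          have h3 := code_testBit (q i) m
          have hz : ∀ z : ZMod 2, (if decide (z = 1) = true then (1 : ZMod 2) else 0) = z := by decide
          simp only [h3, hz]
      · simp only [Fin.addCases_left, Fin.addCases_right, Fin.val_castAdd, Fin.val_natAdd]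
        have h0 : (∑ m : Fin (q i).natDegree, gc_z (code (q i) :: l.map fun i => code (q i)) m ((q i).natDegree + a) • b ⟨i, m⟩) = 0 := by
          refine Finset.sum_eq_zero fun m _ => ?_
          rw [gc_z3 hlog m.2, zero_smul]
        rw [h0, zero_add, hf3]
        refine Finset.sum_congr rfl fun m _ => ?_
        rw [gc_z4 hlog]

private theorem gc_coeff {W : Type} [AddCommGroup W] [Module (ZMod 2) W] [FiniteDimensional (ZMod 2) W] (T : Module.End (ZMod 2) W)
    (hinj : Function.Injective T)
    {ι : Type} (q : ι → (ZMod 2)[X]) (b : Basis (Σ i, Fin (q i).natDegree) (ZMod 2) W)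
    (hT : ∀ (i : ι) (j : Fin (q i).natDegree),
        T (b ⟨i, j⟩) = if h : (j : ℕ) + 1 < (q i).natDegree then b ⟨i, ⟨(j : ℕ) + 1, h⟩⟩
          else ∑ l : Fin (q i).natDegree, (q i).coeff l • b ⟨i, l⟩) (i : ι) (hi : 0 < (q i).natDegree) :
    (q i).coeff 0 = 1 := by
  classical
  by_contra h
  have h0 : (q i).coeff 0 = 0 := by
    have : ∀ z : ZMod 2, z ≠ 1 → z = 0 := by decide
    exact this _ h
  have hs : Function.Surjective T := LinearMap.injective_iff_surjective.mp hinj
  have hz : (b.coord ⟨i, ⟨0, hi⟩⟩) ∘ₗ T = 0 := by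
    refine b.ext fun x => ?_
    obtain ⟨a, j⟩ := x
    rw [LinearMap.comp_apply, LinearMap.zero_apply, hT]
    split_ifs with hj
    · rw [Basis.coord_apply, Basis.repr_self, Finsupp.single_eq_of_ne]
      intro h2
      rw [Sigma.mk.inj_iff] at h2
      obtain ⟨h3, h4⟩ := h2
      subst h3
      have := congrArg Fin.val (eq_of_heq h4)
      simp at this
    · rw [map_sum]
      refine Finset.sum_eq_zero fun l _ => ?_
      rw [map_smul, Basis.coord_apply, Basis.repr_self]
      by_cases h2 : (⟨a, l⟩ : Σ i, Fin (q i).natDegree) = ⟨i, ⟨0, hi⟩⟩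
      · rw [Sigma.mk.inj_iff] at h2
        obtain ⟨h3, h4⟩ := h2
        subst h3
        have h5 : l = ⟨0, hi⟩ := eq_of_heq h4
        rw [h5]
        simp [h0]
      · rw [Finsupp.single_eq_of_ne (Ne.symm h2), smul_zero]
  obtain ⟨w, hw⟩ := hs (b ⟨i, ⟨0, hi⟩⟩)
  have := congrArg (fun f => f w) hz
  simp only [LinearMap.comp_apply, LinearMap.zero_apply, hw, Basis.coord_apply, Basis.repr_self,
    Finsupp.single_eq_same] at this
  exact one_ne_zero this

/-- MODULE gc. From `cyc_dec` for `W = Fin k → ZMod 2`: order the index type `ι` such that the codes are decreasing (`ι ≃ Fin r`, sorting), let `L` be the list of the codes; the index type `Σ i, Fin (deg (q i))` is identified with `Fin k` by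
`finSigmaFinEquiv`-like enumeration (position = sum of the degrees of the previous polynomials + `j`); `k` is the sum of the degrees (dimension).  The definition of `cb` peels off one block at a time (induction on the list).
`T` injective implies that the constant coefficients are `1`: otherwise `q i = X * q'` and `T` would kill the nonzero vector `∑ (q')_j b (i, j)`. -/
theorem exists_CB (T : Module.End (ZMod 2) (Fin k → ZMod 2)) (hT : Function.Injective T) :
    ∃ L : List ℕ, (∀ q ∈ L, q % 2 = 1 ∧ 3 ≤ q) ∧ (L.map Nat.log2).sum = k ∧ L.Pairwise (fun a b => b ≤ a) ∧ CB k L T := by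
  classical
  obtain ⟨ι, fι, q, b, hq, hb⟩ := cyc_dec T
  let l : List ι := (Finset.univ : Finset ι).toList.mergeSort (fun a c => decide (code (q c) ≤ code (q a)))
  have hperm : l.Perm (Finset.univ : Finset ι).toList := List.mergeSort_perm _ _
  have hnd : l.Nodup := hperm.nodup_iff.mpr (Finset.nodup_toList _)
  have hpw : l.Pairwise (fun a c => decide (code (q c) ≤ code (q a)) = true) := by
    apply List.pairwise_mergeSort
    · intro x y z h1 h2
      simp only [decide_eq_true_eq] at h1 h2 ⊢
      omega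
    · intro x y
      simp only [Bool.or_eq_true, decide_eq_true_eq]
      omega
  have hsum : (l.map fun i => (q i).natDegree).sum = k := by
    have h1 : (l.map fun i => (q i).natDegree).sum = ∑ i : ι, (q i).natDegree := by
      rw [(hperm.map _).sum_eq]
      exact Finset.sum_map_toList _ _
    have h2 : Fintype.card (Σ i, Fin (q i).natDegree) = Module.finrank (ZMod 2) (Fin k → ZMod 2) :=
      (Module.finrank_eq_card_basis b).symm
    rw [Fintype.card_sigma] at h2
    simp only [Fintype.card_fin] at h2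
    rw [h1, h2, Module.finrank_fin_fun]
  obtain ⟨f, hf1, hf2, hf3⟩ := gc_ind T q (fun i => (hq i).1) b hb l hnd k hsum.symm
  have hbij : Function.Bijective f := by
    rw [Fintype.bijective_iff_injective_and_card]
    refine ⟨hf1, ?_⟩
    rw [← Module.finrank_eq_card_basis b, Module.finrank_fin_fun, Fintype.card_fin]
  refine ⟨l.map fun i => code (q i), ?_, ?_, ?_, b.reindex (Equiv.ofBijective f hbij).symm, ?_⟩
  · intro c hc
    rw [List.mem_map] at hc
    obtain ⟨i, _, rfl⟩ := hc
    have h0 := gc_coeff T hT q b hb i (hq i).2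
    obtain ⟨h1, h2, h3⟩ := code_log2 (hq i).1
    have h4 := h2 h0
    have h5 := h3 (hq i).2
    exact ⟨h4, by omega⟩
  · rw [List.map_map]
    rw [← hsum]
    congr 1
    refine List.map_congr_left fun i _ => ?_
    exact (code_log2 (hq i).1).1
  · rw [List.pairwise_map]
    refine hpw.imp fun h => ?_
    simpa using h
  · intro j
    have hr : ∀ n, (b.reindex (Equiv.ofBijective f hbij).symm) n = b (f n) := by
      intro n
      rw [Basis.reindex_apply]
      rfl
    simp only [hr]
    rw [hf3]
    rfl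

/-- MODULE gd. In matrices: `P` is the matrix with the columns `b j`. -/
theorem exists_cbm (A : GL2 k) :
    ∃ L : List ℕ, (∀ q ∈ L, q % 2 = 1 ∧ 3 ≤ q) ∧ (L.map Nat.log2).sum = k ∧ L.Pairwise (fun a b => b ≤ a) ∧
      ∃ P : GL2 k, A.1 * P.1 = P.1 * cbm k L := by
  have hinj : Function.Injective (Matrix.toLin' A.1) := by
    intro x y h
    rw [Matrix.toLin'_apply, Matrix.toLin'_apply] at h
    have h2 := congrArg (fun v => A.2 *ᵥ v) h
    simpa only [Matrix.mulVec_mulVec, A.4, Matrix.one_mulVec] using h2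
  obtain ⟨L, h1, h2, h3, b, hb⟩ := exists_CB (Matrix.toLin' A.1) hinj
  refine ⟨L, h1, h2, h3, ⟨(Pi.basisFun (ZMod 2) (Fin k)).toMatrix b, b.toMatrix (Pi.basisFun (ZMod 2) (Fin k)),
    Basis.toMatrix_mul_toMatrix_flip _ _, Basis.toMatrix_mul_toMatrix_flip _ _⟩, ?_⟩
  ext r j
  have h := congrArg (fun v => v r) (hb j)
  simp only [Matrix.toLin'_apply, Finset.sum_apply, Pi.smul_apply, smul_eq_mul] at h
  rw [Matrix.mul_apply, Matrix.mul_apply]
  simp only [Basis.toMatrix_apply, Pi.basisFun_repr]
  calc ∑ x, A.1 r x * (b j) x = (A.1 *ᵥ b j) r := rfl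
    _ = _ := h
    _ = _ := Finset.sum_congr rfl fun x _ => mul_comm _ _

/-- all the decreasing lists of odd numbers `≥ 3` and `≤ b` with the sum of the degrees `k` -/
def enum : ℕ → ℕ → ℕ → List (List ℕ)
  | 0, _, _ => []
  | f + 1, k, b => if k = 0 then [[]] else
      ((List.range (b + 1)).filter fun q => q % 2 = 1 ∧ 3 ≤ q ∧ Nat.log2 q ≤ k).flatMap
        fun q => (enum f (k - Nat.log2 q) q).map fun L => q :: L

/-- MODULE ge. Induction on `f` (the fuel, `f > k`). -/
theorem mem_enum {L : List ℕ} {f k b : ℕ} (hf : k < f) (h1 : ∀ q ∈ L, q % 2 = 1 ∧ 3 ≤ q ∧ q ≤ b)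
    (h2 : (L.map Nat.log2).sum = k) (h3 : L.Pairwise (fun a b => b ≤ a)) : L ∈ enum f k b := by
  induction f generalizing L k b with
  | zero => omega
  | succ f ih =>
    rw [enum]
    have hpos : ∀ q, 3 ≤ q → 1 ≤ Nat.log2 q := by
      intro q hq
      have : 1 ≤ Nat.log2 q := (Nat.le_log2 (by omega)).mpr (by omega)
      exact this
    cases L with
    | nil =>
      rw [List.map_nil, List.sum_nil] at h2
      rw [if_pos h2.symm]
      exact List.mem_singleton.mpr rfl
    | cons q L =>
      rw [List.map_cons, List.sum_cons] at h2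
      obtain ⟨hq1, hq2, hq3⟩ := h1 q List.mem_cons_self
      have hq4 := hpos q hq2
      rw [if_neg (by omega), List.mem_flatMap]
      refine ⟨q, ?_, ?_⟩
      · rw [List.mem_filter, List.mem_range]
        refine ⟨by omega, ?_⟩
        simp only [decide_eq_true_eq]
        exact ⟨hq1, hq2, by omega⟩
      · rw [List.mem_map]
        rw [List.pairwise_cons] at h3
        refine ⟨L, ih (by omega) ?_ (by omega) h3.2, rfl⟩
        intro c hc
        obtain ⟨g1, g2, g3⟩ := h1 c (List.mem_cons_of_mem _ hc)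
        exact ⟨g1, g2, h3.1 c hc⟩

/-- MODULE ge. The bound for the numbers: `Nat.log2 q ≤ k` gives `q < 2 ^ (k + 1)` (`Nat.lt_log2_self`-like lemmas). -/
theorem mem_enum_all {L : List ℕ} {k : ℕ} (h1 : ∀ q ∈ L, q % 2 = 1 ∧ 3 ≤ q)
    (h2 : (L.map Nat.log2).sum = k) (h3 : L.Pairwise (fun a b => b ≤ a)) : L ∈ enum (k + 1) k (2 ^ (k + 1) - 1) := by
  refine mem_enum (by omega) ?_ h2 h3
  intro q hq
  obtain ⟨g1, g2⟩ := h1 q hq
  refine ⟨g1, g2, ?_⟩
  have h4 : Nat.log2 q ≤ k := by
    rw [← h2]
    exact List.single_le_sum (fun _ _ => Nat.zero_le _) _ (List.mem_map_of_mem hq)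
  have h5 : q < 2 ^ (Nat.log2 q + 1) := Nat.lt_log2_self
  have h6 : 2 ^ (Nat.log2 q + 1) ≤ 2 ^ (k + 1) := Nat.pow_le_pow_right (by norm_num) (by omega)
  omega

end ThE
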