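import Mathlib

/-!
# Thompson's conjecture for the groups `E_7(2)` and `E_8(2)`: definitions

The roots of `E_n` (`n = 4 + m`, `m = 3, 4`) are the integral vectors `(d; m_1, …, m_n)` with `∑ m_i = 3 d` and `∑ m_i ^ 2 = d ^ 2 + 2`.
-/

namespace ThE

/-- integral vectors `(d; m_1, …, m_n)` -/
abbrev Vec (n : ℕ) : Type := ℤ × (Fin n → ℤ)

/-- the roots of `E_n` -/
abbrev Root (n : ℕ) : Type := {v : ℤ × (Fin n → ℤ) // ∑ i, v.2 i = 3 * v.1 ∧ ∑ i, v.2 i ^ 2 = v.1 ^ 2 + 2}

instance rootNeg (n : ℕ) : Neg (Root n) := ⟨fun r => ⟨-r.1, by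
  have h := r.2
  constructor
  · simp only [Prod.snd_neg, Prod.fst_neg, Pi.neg_apply, Finset.sum_neg_distrib, h.1]
    ring
  · simp only [Prod.snd_neg, Prod.fst_neg, Pi.neg_apply, neg_sq]
    exact h.2⟩⟩

@[simp] theorem neg_val {n : ℕ} (r : Root n) : (-r).1 = -r.1 := rfl

@[simp] theorem neg_neg' {n : ℕ} (r : Root n) : -(-r) = r := Subtype.ext (neg_neg r.1)

/-- the multiple `c v` -/
def sv {n : ℕ} (c : ℤ) (v : Vec n) : Vec n := (c * v.1, fun i => c * v.2 i)

/-- the bilinear form -/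
def bf {n : ℕ} (v w : Vec n) : ℤ := ∑ i, v.2 i * w.2 i - v.1 * w.1

/-- the height -/
def ht {n : ℕ} (v : Vec n) : ℤ := ∑ i : Fin n, (((i : ℕ) : ℤ) + 1) * v.2 i - 5 * v.1

/-- the level: `m_5 + … + m_n` -/
def lam {m : ℕ} (v : Vec (4 + m)) : ℤ := ∑ j : Fin m, v.2 (Fin.natAdd 4 j)

/-- Steinberg's relations over the field with two elements -/
structure Stb (n : ℕ) {G : Type*} [Group G] (x : Root n → G) : Prop where
  sq : ∀ r, x r * x r = 1
  add : ∀ r s t : Root n, t.1 = r.1 + s.1 → x r * x s * (x r)⁻¹ * (x s)⁻¹ = x t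
  comm : ∀ r s : Root n, r.1 + s.1 ≠ 0 → (∀ t : Root n, t.1 ≠ r.1 + s.1) → x r * x s * (x r)⁻¹ * (x s)⁻¹ = 1
  gen : Subgroup.closure (Set.range x) = ⊤

/-- the subgroup generated by the `x r` with `p r` -/
def Sg {n : ℕ} {G : Type*} [Group G] (x : Root n → G) (p : Root n → Prop) : Subgroup G :=
  Subgroup.closure (x '' {r | p r})

/-- `n_r` -/
def nn {n : ℕ} {G : Type*} [Group G] (x : Root n → G) (r : Root n) : G := x r * x (-r) * x r

/-- the vectors `ε_a`, `a = 0, …, 4`: the differences are the roots of the component `A_4` of the Levi subgroup -/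
def eA (m : ℕ) (a : Fin 5) : Vec (4 + m) :=
  if (a : ℕ) = 4 then (1, fun i => if (i : ℕ) < 4 then 1 else 0) else (0, fun i => if (i : ℕ) = a then 1 else 0)

/-- the roots of the component `A_4` (`a ≠ b`) -/
def vA (m : ℕ) (a b : Fin 5) : Vec (4 + m) := eA m a - eA m b

/-- the roots of the component `A_(m-1)` (`a ≠ b`) -/
def vB (m : ℕ) (a b : Fin m) : Vec (4 + m) :=
  (0, fun i => (if i = Fin.natAdd 4 a then 1 else 0) - (if i = Fin.natAdd 4 b then 1 else 0))

/-- the relations of the elementary matrices over the field with two elements -/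
structure Trn (k : ℕ) {G : Type*} [Group G] (y : Fin k → Fin k → G) : Prop where
  sq : ∀ i j, i ≠ j → y i j * y i j = 1
  mul : ∀ i j l, i ≠ j → j ≠ l → i ≠ l → y i j * y j l * (y i j)⁻¹ * (y j l)⁻¹ = y i l
  cm : ∀ i j a b, i ≠ j → a ≠ b → j ≠ a → i ≠ b → y i j * y a b = y a b * y i j
  br : ∀ i j, i ≠ j → (y i j * y j i) ^ 3 = 1

/-- invertible matrices over the field with two elements -/
abbrev GL2 (k : ℕ) : Type := (Matrix (Fin k) (Fin k) (ZMod 2))ˣ

theorem single_sq {k : ℕ} {i j : Fin k} (h : i ≠ j) :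
    (1 + Matrix.single i j 1 : Matrix (Fin k) (Fin k) (ZMod 2)) * (1 + Matrix.single i j 1) = 1 := by
  have h1 : (Matrix.single i j 1 * Matrix.single i j 1 : Matrix (Fin k) (Fin k) (ZMod 2)) = 0 :=
    Matrix.single_mul_single_of_ne _ _ _ _ (Ne.symm h) _
  have h2 : (Matrix.single i j 1 + Matrix.single i j 1 : Matrix (Fin k) (Fin k) (ZMod 2)) = 0 := by
    ext a b
    rw [Matrix.add_apply, Matrix.zero_apply]
    exact CharTwo.add_self_eq_zero _
  rw [mul_add, add_mul, add_mul, h1, mul_one, one_mul, mul_one, add_zero, add_assoc, h2, add_zero]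

/-- the elementary matrix `1 + e_ij` (`i ≠ j`) -/
def tv {k : ℕ} (i j : Fin k) : GL2 k :=
  if h : i = j then 1 else ⟨1 + Matrix.single i j 1, 1 + Matrix.single i j 1, single_sq h, single_sq h⟩

/-- the product of the elementary matrices of a word -/
def wd {k : ℕ} (w : List (Fin k × Fin k)) : GL2 k := (w.map fun p => tv p.1 p.2).prod

/-- the word of the Singer cycle `w` in `GL_5(2)`, of order `31` -/
def W5 : List (Fin 5 × Fin 5) := [(0, 1), (1, 2), (2, 3), (4, 0), (3, 4)]

/-- the word of `t` in `GL_4(2)`, of order `6`, with `(t ^ 2 + t + 1) ^ 2 = 0` -/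
def W4 : List (Fin 4 × Fin 4) := [(0, 1), (1, 2), (3, 0), (2, 3)]

/-- the word of `t` in `GL_3(2)`, of order `3` -/
def W3 : List (Fin 3 × Fin 3) := [(0, 1), (1, 0)]

/-- the word of `t` in `GL_m(2)`, `m = 3, 4` -/
def Wt : (m : ℕ) → List (Fin m × Fin m)
  | 3 => W3
  | 4 => W4
  | _ => []

/-- the matrix with the rows `l` (binary) -/
def bm (e : ℕ) (l : List ℕ) : Matrix (Fin e) (Fin e) (ZMod 2) :=
  fun i j => if (l.getD i 0).testBit j then 1 else 0

/-- the entries of the block diagonal matrix of the companion matrices of the polynomials `L` (a polynomial over the field with two elements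
is given by the natural number whose binary digits are its coefficients; the degree of `q` is `Nat.log2 q`) -/
def cb : List ℕ → ℕ → ℕ → Bool
  | [], _, _ => false
  | q :: L, i, j =>
    if i < Nat.log2 q ∧ j < Nat.log2 q then (if j + 1 = Nat.log2 q then q.testBit i else decide (i = j + 1))
    else if Nat.log2 q ≤ i ∧ Nat.log2 q ≤ j then cb L (i - Nat.log2 q) (j - Nat.log2 q) else false

/-- the block diagonal matrix of the companion matrices of the polynomials `L` -/
def cbm (k : ℕ) (L : List ℕ) : Matrix (Fin k) (Fin k) (ZMod 2) := fun i j => if cb L i j then 1 else 0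

end ThE
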