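import Pool.Agent.ThE.Tab

/-! # Factorization of the elements of `GL_5(2)`, `GL_4(2)`, `GL_3(2)` -/

namespace ThE

open Matrix

variable {k : ℕ}

/-- MODULE ha. `bm k c.2.1 * bm k c.2.2.1 = 1` gives units `P`, `R`; `M = P0 P W P⁻¹ P0⁻¹ (P0 P R) W (P0 P R)⁻¹`. -/
theorem fac_of_chk {W M P0 : GL2 k} {c : List ℕ × List ℕ × List ℕ × List ℕ × List ℕ} (hc : chk k W.1 c = true)
    (h : M.1 * P0.1 = P0.1 * cbm k c.1) : ∃ P Q : GL2 k, M = P * W * P⁻¹ * (Q * W * Q⁻¹) := by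
  obtain ⟨L, a, a', b, b'⟩ := c
  simp only [chk, Bool.and_eq_true, decide_eq_true_eq] at hc
  obtain ⟨⟨h1, h2⟩, h3⟩ := hc
  simp only at h
  let Pu : GL2 k := ⟨bm k a, bm k a', h1, mul_eq_one_comm.mp h1⟩
  let Ru : GL2 k := ⟨bm k b, bm k b', h2, mul_eq_one_comm.mp h2⟩
  refine ⟨P0 * Pu, P0 * Pu * Ru, ?_⟩
  have key : M * (P0 * Pu) = P0 * Pu * W * (Ru * W * Ru⁻¹) := by
    apply Units.ext
    change M.1 * (P0.1 * bm k a) = P0.1 * bm k a * W.1 * (bm k b * W.1 * bm k b')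
    rw [← mul_assoc, h, mul_assoc, h3]
    simp only [mul_assoc]
  have : M = P0 * Pu * W * (Ru * W * Ru⁻¹) * (P0 * Pu)⁻¹ := by
    rw [← key]; group
  rw [this]
  group

/-- MODULE ha. `exists_cbm`, `mem_enum_all`, `dat5_all`, `dat5_chk`, `wd5_rows`, `fac_of_chk`; if `L = [3, 3, 3, 3, 3]` the block companion matrix is `1` (`decide`) and `M = 1`. -/
theorem fac5 (M : GL2 5) : (∃ P Q : GL2 5, M = P * wd W5 * P⁻¹ * (Q * wd W5 * Q⁻¹)) ∨ M = 1 := by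
  obtain ⟨L, h1, h2, h3, P0, hP⟩ := exists_cbm M
  have hL := mem_enum_all h1 h2 h3
  rcases dat5_all L hL with rfl | hd
  · right
    have h4 : cbm 5 [3, 3, 3, 3, 3] = 1 := by decide +kernel
    rw [h4, mul_one] at hP
    apply Units.ext
    have h5 : M * P0 = P0 := Units.ext hP
    have h6 : M = 1 := by
      calc M = M * P0 * P0⁻¹ := by group
        _ = 1 := by rw [h5]; group
    rw [h6]
  · left
    obtain ⟨c, hc, rfl⟩ := List.mem_map.mp hd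
    have h4 := dat5_chk c hc
    rw [← wd5_rows] at h4
    exact fac_of_chk h4 hP

/-- MODULE ha. The same for `m = 3, 4` (`Wt 3 = W3`, `Wt 4 = W4`). -/
theorem facm {m : ℕ} (hm : m = 3 ∨ m = 4) (N : GL2 m) : ∃ P Q : GL2 m, N = P * wd (Wt m) * P⁻¹ * (Q * wd (Wt m) * Q⁻¹) := by
  obtain ⟨L, h1, h2, h3, P0, hP⟩ := exists_cbm N
  have hL := mem_enum_all h1 h2 h3
  rcases hm with rfl | rfl
  · have hd := dat3_all L hL
    obtain ⟨c, hc, rfl⟩ := List.mem_map.mp hd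
    have h4 := dat3_chk c hc
    rw [← wd3_rows] at h4
    exact fac_of_chk h4 hP
  · have hd := dat4_all L hL
    obtain ⟨c, hc, rfl⟩ := List.mem_map.mp hd
    have h4 := dat4_chk c hc
    rw [← wd4_rows] at h4
    exact fac_of_chk h4 hP

/-- the inverse transpose -/
def itr (k : ℕ) : GL2 k →* GL2 k where
  toFun M := ⟨M⁻¹.1ᵀ, M.1ᵀ, by rw [← Matrix.transpose_mul, Units.mul_inv, Matrix.transpose_one], by
    rw [← Matrix.transpose_mul, Units.inv_mul, Matrix.transpose_one]⟩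
  map_one' := Units.ext (by simp)
  map_mul' M N := Units.ext (by simp [Matrix.transpose_mul])

/-- MODULE hb. -/
theorem itr_itr (M : GL2 k) : itr k (itr k M) = M := by
  apply Units.ext
  change ((itr k M)⁻¹).1ᵀ = M.1
  have h : ((itr k M)⁻¹).1 = M.1ᵀ := rfl
  rw [h, Matrix.transpose_transpose]

/-- MODULE hb. `(1 + e_ij)⁻¹ = 1 + e_ij`. -/
theorem itr_tv (i j : Fin k) : itr k (tv i j) = tv j i := by
  by_cases h : i = j
  · subst h
    simp [tv]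
  · have h' : ¬ j = i := fun e => h e.symm
    apply Units.ext
    change ((tv i j)⁻¹).1ᵀ = (tv j i).1
    simp only [tv, dif_neg h, dif_neg h']
    change (1 + Matrix.single i j 1 : Matrix (Fin k) (Fin k) (ZMod 2))ᵀ = 1 + Matrix.single j i 1
    rw [Matrix.transpose_add, Matrix.transpose_one, Matrix.transpose_single]

/-- MODULE hb. The matrix `R` with the rows `[16, 8, 4, 2, 1]` (binary, `bm`) is symmetric, `R R = 1` and `w⁻ᵀ R = R w⁻¹`, that is (`w` has the rows `[31, 30, 28, 24, 17]`, `w⁻¹` the rows `[3, 6, 12, 27, 19]`) `decide` in the form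
`R * w = wᵀ * R`. -/
theorem itr_W5 : ∃ R : GL2 5, itr 5 (wd W5) = R * (wd W5)⁻¹ * R⁻¹ := by
  have hR : bm 5 [16, 8, 4, 2, 1] * bm 5 [16, 8, 4, 2, 1] = 1 := by decide +kernel
  let R : GL2 5 := ⟨bm 5 [16, 8, 4, 2, 1], bm 5 [16, 8, 4, 2, 1], hR, hR⟩
  refine ⟨R, ?_⟩
  -- `itr w = (w⁻¹)ᵀ`; `R w = wᵀ R`
  have h1 : R.1 * (wd W5).1 = (wd W5).1ᵀ * R.1 := by
    rw [wd5_rows]
    change bm 5 [16, 8, 4, 2, 1] * bm 5 [31, 30, 28, 24, 17] = (bm 5 [31, 30, 28, 24, 17])ᵀ * bm 5 [16, 8, 4, 2, 1]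
    decide +kernel
  have h2 : R * wd W5 = (itr 5 (wd W5))⁻¹ * R := Units.ext h1
  have h3 : itr 5 (wd W5) * (R * wd W5) = R := by rw [h2]; group
  calc itr 5 (wd W5) = itr 5 (wd W5) * (R * wd W5) * (wd W5)⁻¹ * R⁻¹ := by group
    _ = R * (wd W5)⁻¹ * R⁻¹ := by rw [h3]

private theorem hb_conj {w R : GL2 k} (h1 : R.1 = w.1ᵀ * (R.1 * w.1)) : itr k w = R * w * R⁻¹ := by
  have h2 : R = (itr k w)⁻¹ * (R * w) := Units.ext h1
  have h3 : itr k w * R = R * w := by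
    conv_lhs => rw [h2]
    group
  rw [← h3]
  group

/-- MODULE hb. `m = 4`: `R` has the rows `[6, 3, 11, 15]`, `R⁻¹` the rows `[15, 13, 12, 6]`, `w` the rows `[15, 14, 12, 9]`; `m = 3`: `R` and `R⁻¹` have the rows `[1, 3, 4]`, `w` the rows `[2, 3, 4]`; `w⁻ᵀ R = R w`, that is
`R = wᵀ * (R * w)`. -/
theorem itr_Wt {m : ℕ} (hm : m = 3 ∨ m = 4) : ∃ R : GL2 m, itr m (wd (Wt m)) = R * wd (Wt m) * R⁻¹ := by
  rcases hm with rfl | rfl
  · have hR : bm 3 [1, 3, 4] * bm 3 [1, 3, 4] = 1 := by decide +kernel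
    let R : GL2 3 := ⟨bm 3 [1, 3, 4], bm 3 [1, 3, 4], hR, hR⟩
    refine ⟨R, ?_⟩
    have h1 : R.1 = (wd W3).1ᵀ * (R.1 * (wd W3).1) := by
      rw [wd3_rows]
      change bm 3 [1, 3, 4] = (bm 3 [2, 3, 4])ᵀ * (bm 3 [1, 3, 4] * bm 3 [2, 3, 4])
      decide +kernel
    exact hb_conj (w := wd W3) h1
  · have hR : bm 4 [6, 3, 11, 15] * bm 4 [15, 13, 12, 6] = 1 := by decide +kernel
    have hR' : bm 4 [15, 13, 12, 6] * bm 4 [6, 3, 11, 15] = 1 := by decide +kernel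
    let R : GL2 4 := ⟨bm 4 [6, 3, 11, 15], bm 4 [15, 13, 12, 6], hR, hR'⟩
    refine ⟨R, ?_⟩
    have h1 : R.1 = (wd W4).1ᵀ * (R.1 * (wd W4).1) := by
      rw [wd4_rows]
      change bm 4 [6, 3, 11, 15] = (bm 4 [15, 14, 12, 9])ᵀ * (bm 4 [6, 3, 11, 15] * bm 4 [15, 14, 12, 9])
      decide +kernel
    exact hb_conj (w := wd W4) h1

/-- MODULE hb. `decide +kernel` for the matrices `bm`, or powers by repeated squaring. -/
theorem ord_W5 : wd W5 ^ 31 = 1 := by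
  apply Units.ext
  rw [Units.val_pow_eq_pow_val, wd5_rows, Units.val_one]
  decide +kernel

/-- MODULE hb. -/
theorem ord_Wt {m : ℕ} (hm : m = 3 ∨ m = 4) : wd (Wt m) ^ 6 = 1 := by
  rcases hm with rfl | rfl
  · apply Units.ext
    change ((wd W3) ^ 6).1 = 1
    rw [Units.val_pow_eq_pow_val, wd3_rows]
    decide +kernel
  · apply Units.ext
    change ((wd W4) ^ 6).1 = 1
    rw [Units.val_pow_eq_pow_val, wd4_rows]
    decide +kernel

end ThE
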