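import Pool.Agent.ThE.Defs

/-! # The bilinear form -/

namespace ThE

variable {n : ℕ}

/-- MODULE aa. `Finset.sum_add_distrib`, `ring`. -/
theorem bf_add_left (u v w : Vec n) : bf (u + v) w = bf u w + bf v w := by
  unfold bf
  simp only [Prod.snd_add, Prod.fst_add, Pi.add_apply, add_mul, Finset.sum_add_distrib]
  ring

/-- MODULE aa. -/
theorem bf_comm (v w : Vec n) : bf v w = bf w v := by
  unfold bf
  congr 1
  · exact Finset.sum_congr rfl fun i _ => mul_comm _ _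
  · exact mul_comm _ _

/-- MODULE aa. -/
theorem bf_sv_left (c : ℤ) (v w : Vec n) : bf (sv c v) w = c * bf v w := by
  show ∑ i, c * v.2 i * w.2 i - c * v.1 * w.1 = c * (∑ i, v.2 i * w.2 i - v.1 * w.1)
  rw [mul_sub, Finset.mul_sum]
  congr 1
  · exact Finset.sum_congr rfl fun i _ => mul_assoc _ _ _
  · ring

/-- MODULE aa. -/
theorem bf_neg_left (v w : Vec n) : bf (-v) w = - bf v w := by
  unfold bf
  simp only [Prod.snd_neg, Prod.fst_neg, Pi.neg_apply, neg_mul, Finset.sum_neg_distrib]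
  ring

/-- MODULE aa. From the left versions and `bf_comm`. -/
theorem bf_add_right (u v w : Vec n) : bf u (v + w) = bf u v + bf u w := by
  rw [bf_comm, bf_add_left, bf_comm v, bf_comm w]

/-- MODULE aa. -/
theorem bf_sv_right (c : ℤ) (v w : Vec n) : bf v (sv c w) = c * bf v w := by
  rw [bf_comm, bf_sv_left, bf_comm]

/-- MODULE aa. -/
theorem bf_neg_right (v w : Vec n) : bf v (-w) = - bf v w := by
  rw [bf_comm, bf_neg_left, bf_comm]

/-- MODULE aa. -/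
theorem bf_sub_left (u v w : Vec n) : bf (u - v) w = bf u w - bf v w := by
  rw [sub_eq_add_neg, bf_add_left, bf_neg_left, ← sub_eq_add_neg]

/-- MODULE aa. -/
theorem bf_sub_right (u v w : Vec n) : bf u (v - w) = bf u v - bf u w := by
  rw [sub_eq_add_neg, bf_add_right, bf_neg_right, ← sub_eq_add_neg]

/-- MODULE aa. `bf v v = ∑ v_i ^ 2 - d ^ 2`. -/
theorem bf_self (v : Vec n) : bf v v = ∑ i, v.2 i ^ 2 - v.1 ^ 2 := by
  unfold bf
  congr 1
  · exact Finset.sum_congr rfl fun i _ => (sq _).symm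
  · exact (sq _).symm

/-- MODULE ab. `bf r r = 2` (`bf_self`). -/
theorem bf_root (r : Root n) : bf r.1 r.1 = 2 := by
  rw [bf_self, r.2.2]
  ring

/-- MODULE ab. A vector with `∑ m = 3 d` and `bf v v = 2` is a root. -/
theorem mk_root (v : Vec n) (h1 : ∑ i, v.2 i = 3 * v.1) (h2 : bf v v = 2) : ∃ t : Root n, t.1 = v := by
  refine ⟨⟨v, h1, ?_⟩, rfl⟩
  rw [bf_self] at h2
  linarith

/-- MODULE ab. The height is additive. -/
theorem ht_add (v w : Vec n) : ht (v + w) = ht v + ht w := by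
  unfold ht
  simp only [Prod.snd_add, Prod.fst_add, Pi.add_apply, mul_add, Finset.sum_add_distrib]
  ring

/-- MODULE ab. -/
theorem ht_neg (v : Vec n) : ht (-v) = - ht v := by
  unfold ht
  simp only [Prod.snd_neg, Prod.fst_neg, Pi.neg_apply, mul_neg, Finset.sum_neg_distrib]
  ring

/-- MODULE ab. -/
theorem ht_sv (c : ℤ) (v : Vec n) : ht (sv c v) = c * ht v := by
  show ∑ i : Fin n, (((i : ℕ) : ℤ) + 1) * (c * v.2 i) - 5 * (c * v.1) =
    c * (∑ i : Fin n, (((i : ℕ) : ℤ) + 1) * v.2 i - 5 * v.1)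
  rw [mul_sub, Finset.mul_sum]
  congr 1
  · exact Finset.sum_congr rfl fun i _ => by ring
  · ring

/-- MODULE ab. -/
theorem ht_sub (v w : Vec n) : ht (v - w) = ht v - ht w := by
  rw [sub_eq_add_neg, ht_add, ht_neg, ← sub_eq_add_neg]

/-- MODULE ab. -/
theorem lam_add {m : ℕ} (v w : Vec (4 + m)) : lam (v + w) = lam v + lam w := by
  unfold lam
  simp only [Prod.snd_add, Pi.add_apply, Finset.sum_add_distrib]

/-- MODULE ab. -/
theorem lam_neg {m : ℕ} (v : Vec (4 + m)) : lam (-v) = - lam v := by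
  unfold lam
  simp only [Prod.snd_neg, Pi.neg_apply, Finset.sum_neg_distrib]

/-- MODULE ab. -/
theorem lam_sub {m : ℕ} (v w : Vec (4 + m)) : lam (v - w) = lam v - lam w := by
  rw [sub_eq_add_neg, lam_add, lam_neg, ← sub_eq_add_neg]

/-- MODULE ab. -/
theorem lam_sv {m : ℕ} (c : ℤ) (v : Vec (4 + m)) : lam (sv c v) = c * lam v := by
  show ∑ j : Fin m, c * v.2 (Fin.natAdd 4 j) = c * ∑ j : Fin m, v.2 (Fin.natAdd 4 j)
  rw [Finset.mul_sum]

/-- MODULE ac. The form is positive definite on the vectors with `∑ m = 3 d` (`n ≤ 8`): by Cauchy (`sq_sum_le_card_mul_sum_sq`)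
`9 d ^ 2 = (∑ m_i) ^ 2 ≤ n ∑ m_i ^ 2 ≤ 8 ∑ m_i ^ 2`, so `8 bf v v = 8 ∑ m_i ^ 2 - 8 d ^ 2 ≥ d ^ 2 ≥ 0`; if `bf v v = 0` then `d = 0` and
`∑ m_i ^ 2 = 0`, so all `m_i = 0`. -/
theorem bf_pos (hn : n ≤ 8) (v : Vec n) (hv : ∑ i, v.2 i = 3 * v.1) : 0 ≤ bf v v ∧ (bf v v = 0 → v = 0) := by
  have h1 : (∑ i, v.2 i) ^ 2 ≤ (n : ℤ) * ∑ i, v.2 i ^ 2 := by
    have h := sq_sum_le_card_mul_sum_sq (s := (Finset.univ : Finset (Fin n))) (f := v.2)
    simpa using h
  have h0 : 0 ≤ ∑ i, v.2 i ^ 2 := Finset.sum_nonneg fun i _ => sq_nonneg _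
  have h2 : (n : ℤ) * ∑ i, v.2 i ^ 2 ≤ 8 * ∑ i, v.2 i ^ 2 :=
    mul_le_mul_of_nonneg_right (by exact_mod_cast hn) h0
  rw [hv] at h1
  rw [bf_self]
  constructor
  · nlinarith [sq_nonneg v.1]
  · intro h3
    have h4 : v.1 ^ 2 ≤ 0 := by nlinarith
    have h5 : v.1 = 0 := by
      have := sq_nonneg v.1
      exact pow_eq_zero_iff (two_ne_zero) |>.1 (le_antisymm h4 this)
    have h6 : ∑ i, v.2 i ^ 2 = 0 := by
      rw [h5] at h3
      linarith
    refine Prod.ext h5 (funext fun i => ?_)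
    have h7 := (Finset.sum_eq_zero_iff_of_nonneg (fun i _ => sq_nonneg (v.2 i))).1 h6 i (Finset.mem_univ i)
    exact pow_eq_zero_iff (two_ne_zero) |>.1 h7

private theorem ad_sum_add (r s : Root n) : ∑ i, (r.1 + s.1).2 i = 3 * (r.1 + s.1).1 := by
  show ∑ i, (r.1.2 i + s.1.2 i) = 3 * (r.1.1 + s.1.1)
  rw [Finset.sum_add_distrib, r.2.1, s.2.1]
  ring

private theorem ad_bf_add (r s : Root n) : bf (r.1 + s.1) (r.1 + s.1) = 4 + 2 * bf r.1 s.1 := by
  rw [bf_add_left, bf_add_right, bf_add_right, bf_root, bf_root, bf_comm s.1 r.1]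
  ring

private theorem ad_neg_eq {r s : Root n} (h : r.1 + s.1 = 0) : s = -r := by
  apply Subtype.ext
  rw [neg_val]
  exact (neg_eq_of_add_eq_zero_right h).symm

/-- MODULE ad. `0 ≤ bf (r + s) (r + s) = 4 + 2 bf r s`, with equality iff `r + s = 0` (`bf_pos`). -/
theorem bf_ge (hn : n ≤ 8) (r s : Root n) : -2 ≤ bf r.1 s.1 ∧ (bf r.1 s.1 = -2 → s = -r) := by
  have h1 := bf_pos hn (r.1 + s.1) (ad_sum_add r s)
  rw [ad_bf_add] at h1
  refine ⟨by omega, fun h => ad_neg_eq (h1.2 (by omega))⟩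

/-- MODULE ad. `0 ≤ bf (r - s) (r - s) = 4 - 2 bf r s`, with equality iff `r = s`. -/
theorem bf_le (hn : n ≤ 8) (r s : Root n) : bf r.1 s.1 ≤ 2 ∧ (bf r.1 s.1 = 2 → s = r) := by
  have h1 := bf_ge hn r (-s)
  rw [neg_val, bf_neg_right] at h1
  refine ⟨by omega, fun h => ?_⟩
  have h2 : -s = -r := h1.2 (by omega)
  calc s = -(-s) := (neg_neg' s).symm
    _ = -(-r) := by rw [h2]
    _ = r := neg_neg' r

/-- MODULE ad. `bf r s ∈ {-1, 0, 1}` if `s ≠ ± r`. -/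
theorem bf_cases (hn : n ≤ 8) {r s : Root n} (h1 : s ≠ r) (h2 : s ≠ -r) :
    bf r.1 s.1 = -1 ∨ bf r.1 s.1 = 0 ∨ bf r.1 s.1 = 1 := by
  have h3 := bf_ge hn r s
  have h4 := bf_le hn r s
  have h5 : bf r.1 s.1 ≠ -2 := fun h => h2 (h3.2 h)
  have h6 : bf r.1 s.1 ≠ 2 := fun h => h1 (h4.2 h)
  omega

/-- MODULE ae. `bf (r + s) (r + s) = 2 + 2 bf r s + 2 = 2`; `mk_root`. -/
theorem root_add {r s : Root n} (h : bf r.1 s.1 = -1) : ∃ t : Root n, t.1 = r.1 + s.1 := by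
  refine mk_root (r.1 + s.1) (ad_sum_add r s) ?_
  rw [ad_bf_add, h]
  norm_num

/-- MODULE ae. The converse: `2 = bf t t = 4 + 2 bf r s`. -/
theorem bf_of_add {r s t : Root n} (h : t.1 = r.1 + s.1) : bf r.1 s.1 = -1 := by
  have h1 := bf_root t
  rw [h, ad_bf_add] at h1
  omega

/-- MODULE ae. `s - r` is a root if `bf r s = 1` (`root_add` for `-r`, `s`). -/
theorem root_sub {r s : Root n} (h : bf r.1 s.1 = 1) : ∃ t : Root n, t.1 = s.1 - r.1 := by
  have h1 : bf (-r).1 s.1 = -1 := by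
    rw [neg_val, bf_neg_left, h]
  obtain ⟨t, ht⟩ := root_add h1
  refine ⟨t, ?_⟩
  rw [ht, neg_val]
  exact neg_add_eq_sub r.1 s.1

/-- MODULE ae. `r + s ≠ 0` if `bf r s ≠ -2`. -/
theorem add_ne_zero' {r s : Root n} (h : bf r.1 s.1 ≠ -2) : r.1 + s.1 ≠ 0 := by
  intro h1
  apply h
  rw [ad_neg_eq h1, neg_val, bf_neg_right, bf_root]

/-- the reflection: `rf r s = s - (r, s) r` -/
def rf (r s : Root n) : Root n := ⟨s.1 - sv (bf r.1 s.1) r.1, by
  have h1 := r.2.1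
  have h2 := s.2.1
  have h3 := r.2.2
  have h4 := s.2.2
  constructor
  · show ∑ i, (s.1.2 i - bf r.1 s.1 * r.1.2 i) = 3 * (s.1.1 - bf r.1 s.1 * r.1.1)
    rw [Finset.sum_sub_distrib, ← Finset.mul_sum, h1, h2]
    ring
  · show ∑ i, (s.1.2 i - bf r.1 s.1 * r.1.2 i) ^ 2 = (s.1.1 - bf r.1 s.1 * r.1.1) ^ 2 + 2
    have h5 : ∀ c : ℤ, ∑ i, (s.1.2 i - c * r.1.2 i) ^ 2 =
        ∑ i, s.1.2 i ^ 2 - 2 * c * ∑ i, r.1.2 i * s.1.2 i + c ^ 2 * ∑ i, r.1.2 i ^ 2 := by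
      intro c
      rw [Finset.mul_sum, Finset.mul_sum, ← Finset.sum_sub_distrib, ← Finset.sum_add_distrib]
      exact Finset.sum_congr rfl fun i _ => by ring
    rw [h5, h3, h4, bf]
    ring⟩

theorem rf_val (r s : Root n) : (rf r s).1 = s.1 - sv (bf r.1 s.1) r.1 := rfl

/-- MODULE af. `rf r r = - r` (`bf_root`). -/
theorem rf_self (r : Root n) : rf r r = -r := by
  apply Subtype.ext
  rw [rf_val, bf_root, neg_val]
  refine Prod.ext ?_ (funext fun i => ?_)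
  · show r.1.1 - 2 * r.1.1 = -r.1.1
    ring
  · show r.1.2 i - 2 * r.1.2 i = -r.1.2 i
    ring

/-- MODULE af. -/
theorem rf_neg (r s : Root n) : rf r (-s) = -(rf r s) := by
  apply Subtype.ext
  rw [rf_val, neg_val, neg_val, rf_val, bf_neg_right]
  refine Prod.ext ?_ (funext fun i => ?_)
  · show -s.1.1 - -bf r.1 s.1 * r.1.1 = -(s.1.1 - bf r.1 s.1 * r.1.1)
    ring
  · show -s.1.2 i - -bf r.1 s.1 * r.1.2 i = -(s.1.2 i - bf r.1 s.1 * r.1.2 i)
    ring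

/-- MODULE af. -/
theorem rf_neg_left (r s : Root n) : rf (-r) s = rf r s := by
  apply Subtype.ext
  rw [rf_val, rf_val, neg_val, bf_neg_left]
  refine Prod.ext ?_ (funext fun i => ?_)
  · show s.1.1 - -bf r.1 s.1 * -r.1.1 = s.1.1 - bf r.1 s.1 * r.1.1
    ring
  · show s.1.2 i - -bf r.1 s.1 * -r.1.2 i = s.1.2 i - bf r.1 s.1 * r.1.2 i
    ring

/-- MODULE af. -/
theorem rf_rf (r s : Root n) : rf r (rf r s) = s := by
  apply Subtype.ext
  have h1 : bf r.1 (rf r s).1 = -bf r.1 s.1 := by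
    rw [rf_val, bf_sub_right, bf_sv_right, bf_root]
    ring
  rw [rf_val, h1, rf_val]
  refine Prod.ext ?_ (funext fun i => ?_)
  · show s.1.1 - bf r.1 s.1 * r.1.1 - -bf r.1 s.1 * r.1.1 = s.1.1
    ring
  · show s.1.2 i - bf r.1 s.1 * r.1.2 i - -bf r.1 s.1 * r.1.2 i = s.1.2 i
    ring

/-- MODULE af. The reflection preserves the form. -/
theorem bf_rf (r s t : Root n) : bf (rf r s).1 (rf r t).1 = bf s.1 t.1 := by
  rw [rf_val, rf_val, bf_sub_left, bf_sub_right, bf_sub_right, bf_sv_left, bf_sv_right, bf_sv_left, bf_sv_right, bf_root,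
    bf_comm s.1 r.1]
  ring

end ThE
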