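import Pool.Agent.ThE.Defs

/-! # The group `GL_k(2)` is presented by its elementary matrices -/

namespace ThE

open Matrix

variable {k : ℕ} {Γ : Type*} [Group Γ]

/-- the product of the involutions `s i`, `v i = 1` -/
def pv (s : Fin k → Γ) (v : Fin k → ZMod 2) : Γ := ((List.finRange k).map fun i => if v i = 1 then s i else 1).prod

private theorem fa_z2 (a : ZMod 2) : a = 0 ∨ a = 1 := by
  revert a; decide

private theorem fa_ite {s : Fin k → Γ} (h1 : ∀ i, s i * s i = 1) (v w : Fin k → ZMod 2) (i : Fin k) :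
    (if (v + w) i = 1 then s i else 1) = (if v i = 1 then s i else 1) * (if w i = 1 then s i else 1) := by
  rw [Pi.add_apply]
  rcases fa_z2 (v i) with hv | hv <;> rcases fa_z2 (w i) with hw | hw
  · rw [hv, hw, if_neg (by decide), if_neg (by decide), mul_one]
  · rw [hv, hw, if_pos (by decide), if_neg (by decide), if_pos rfl, one_mul]
  · rw [hv, hw, if_pos (by decide), if_pos rfl, if_neg (by decide), mul_one]
  · rw [hv, hw, if_neg (by decide), if_pos rfl, h1]

private theorem fa_com {s : Fin k → Γ} (h2 : ∀ i j, s i * s j = s j * s i) (v w : Fin k → ZMod 2) (i j : Fin k) :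
    Commute (if v i = 1 then s i else 1) (if w j = 1 then s j else 1) := by
  split_ifs
  · exact h2 i j
  · exact Commute.one_right _
  · exact Commute.one_left _
  · exact Commute.one_left _

private theorem fa_add {s : Fin k → Γ} (h1 : ∀ i, s i * s i = 1) (h2 : ∀ i j, s i * s j = s j * s i)
    (v w : Fin k → ZMod 2) (l : List (Fin k)) :
    (l.map fun i => if (v + w) i = 1 then s i else 1).prod
      = (l.map fun i => if v i = 1 then s i else 1).prod * (l.map fun i => if w i = 1 then s i else 1).prod := by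
  induction l with
  | nil => simp
  | cons a l ih =>
    rw [List.map_cons, List.prod_cons, List.map_cons, List.prod_cons, List.map_cons, List.prod_cons, ih,
      fa_ite h1 v w a]
    have hc : Commute (l.map fun i => if v i = 1 then s i else 1).prod (if w a = 1 then s a else 1) := by
      apply Commute.list_prod_left
      intro x hx
      rw [List.mem_map] at hx
      obtain ⟨i, -, rfl⟩ := hx
      exact fa_com h2 v w i a
    rw [mul_assoc, mul_assoc, ← mul_assoc (List.prod _) (if w a = 1 then s a else 1), hc.eq, mul_assoc]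

private theorem fa_single (s : Fin k → Γ) (i : Fin k) (l : List (Fin k)) (hl : l.Nodup) :
    (l.map fun j => if (Pi.single i 1 : Fin k → ZMod 2) j = 1 then s j else 1).prod = if i ∈ l then s i else 1 := by
  induction l with
  | nil => simp
  | cons a l ih =>
    rw [List.nodup_cons] at hl
    rw [List.map_cons, List.prod_cons, ih hl.2]
    by_cases ha : a = i
    · subst ha
      rw [if_pos (by rw [Pi.single_eq_same]), if_neg hl.1, if_pos (List.mem_cons_self), mul_one]
    · rw [if_neg (by rw [Pi.single_eq_of_ne ha]; decide), one_mul]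
      by_cases hi : i ∈ l
      · rw [if_pos hi, if_pos (List.mem_cons_of_mem _ hi)]
      · rw [if_neg hi, if_neg]
        intro h'
        rcases List.mem_cons.1 h' with h'' | h''
        · exact ha h''.symm
        · exact hi h''

private theorem fa_conj {s t : Fin k → Γ} (h1 : ∀ i, t i * t i = 1) (h2 : ∀ i j, t i * t j = t j * t i) {g : Γ}
    {c : Fin k → Fin k → ZMod 2} (h : ∀ i, g * s i * g⁻¹ = pv t (c i)) (v : Fin k → ZMod 2) (l : List (Fin k)) :
    g * (l.map fun i => if v i = 1 then s i else 1).prod * g⁻¹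
      = (((List.finRange k).map fun j => if (l.map fun i => v i * c i j).sum = 1 then t j else 1).prod) := by
  induction l with
  | nil => simp
  | cons a l ih =>
    have e1 : ((List.finRange k).map fun j => if ((a :: l).map fun i => v i * c i j).sum = 1 then t j else 1).prod
        = ((List.finRange k).map fun j => if (fun j => v a * c a j) j = 1 then t j else 1).prod
          * ((List.finRange k).map fun j => if (fun j => (l.map fun i => v i * c i j).sum) j = 1 then t j else 1).prod := by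
      rw [← fa_add h1 h2]
      congr 1
    rw [e1, List.map_cons, List.prod_cons]
    have e2 : g * ((if v a = 1 then s a else 1) * (l.map fun i => if v i = 1 then s i else 1).prod) * g⁻¹
        = (g * (if v a = 1 then s a else 1) * g⁻¹) * (g * (l.map fun i => if v i = 1 then s i else 1).prod * g⁻¹) := by
      group
    rw [e2, ih]
    congr 1
    rcases fa_z2 (v a) with hv | hv
    · rw [hv, if_neg (by decide), mul_one, mul_inv_cancel]
      symm
      apply List.prod_eq_one
      intro x hx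
      rw [List.mem_map] at hx
      obtain ⟨i, -, rfl⟩ := hx
      rw [if_neg]
      simp
    · rw [hv, if_pos rfl, h a]
      unfold pv
      simp

/-- MODULE fa. Commuting involutions: induction over the list (for every list `l` of indices the product over `l` is multiplicative in `v`; over the field with two elements `(v + w) i = 1` iff exactly one of `v i`, `w i` is `1`). -/
theorem pv_add {s : Fin k → Γ} (h1 : ∀ i, s i * s i = 1) (h2 : ∀ i j, s i * s j = s j * s i) (v w : Fin k → ZMod 2) :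
    pv s (v + w) = pv s v * pv s w := by
  exact fa_add h1 h2 v w _

/-- MODULE fa. -/
theorem pv_zero (s : Fin k → Γ) : pv s 0 = 1 := by
  unfold pv
  apply List.prod_eq_one
  intro x hx
  rw [List.mem_map] at hx
  obtain ⟨i, -, rfl⟩ := hx
  rw [if_neg (by rw [Pi.zero_apply]; decide)]

/-- MODULE fa. -/
theorem pv_single (s : Fin k → Γ) (i : Fin k) : pv s (Pi.single i 1) = s i := by
  unfold pv
  rw [fa_single s i _ (List.nodup_finRange k), if_pos (List.mem_finRange i)]

/-- MODULE fa. A property of elements of `Γ` which holds for `1`, the `s i` with `v i = 1`, and is closed under multiplication, holds for `pv s v`. -/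
theorem pv_ind {s : Fin k → Γ} {v : Fin k → ZMod 2} {P : Γ → Prop} (h1 : P 1) (h2 : ∀ i, v i = 1 → P (s i))
    (h3 : ∀ a b, P a → P b → P (a * b)) : P (pv s v) := by
  unfold pv
  generalize List.finRange k = l
  induction l with
  | nil => simpa using h1
  | cons a l ih =>
    rw [List.map_cons, List.prod_cons]
    apply h3 _ _ _ ih
    split_ifs with ha
    · exact h2 a ha
    · exact h1

/-- MODULE fa. Conjugation of the product: if `g s i g⁻¹ = pv t (c i)` for all `i` (`t` commuting involutions), then `g (pv s v) g⁻¹ = pv t (∑ v i c i)`.  Linearity: `pv_add`; write `v = ∑_i v i e_i` (induction over the list). -/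
theorem pv_conj {s t : Fin k → Γ} (h1 : ∀ i, t i * t i = 1) (h2 : ∀ i j, t i * t j = t j * t i) {g : Γ}
    {c : Fin k → Fin k → ZMod 2} (h : ∀ i, g * s i * g⁻¹ = pv t (c i)) (v : Fin k → ZMod 2) :
    g * pv s v * g⁻¹ = pv t (fun j => ∑ i, v i * c i j) := by
  have h' := fa_conj h1 h2 h v (List.finRange k)
  unfold pv
  rw [h']
  simp only [Fin.sum_univ_def]

/-- the products `∏ z_i0 ^ v_i` -/
def av (z : Fin (k + 1) → Fin (k + 1) → Γ) (v : Fin k → ZMod 2) : Γ := pv (fun i => z i.succ 0) v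

/-- the products `∏ z_0i ^ u_i` -/
def cv (z : Fin (k + 1) → Fin (k + 1) → Γ) (u : Fin k → ZMod 2) : Γ := pv (fun i => z 0 i.succ) u

/-- the subgroup generated by the `z_ij` with `i, j ≠ 0` -/
def Hs (z : Fin (k + 1) → Fin (k + 1) → Γ) : Subgroup Γ :=
  Subgroup.closure {g | ∃ i j : Fin k, i ≠ j ∧ z i.succ j.succ = g}

/-- the subgroup generated by the `z_ij` with `j ≠ 0` -/
def Qs (z : Fin (k + 1) → Fin (k + 1) → Γ) : Subgroup Γ :=
  Subgroup.closure {g | ∃ i j : Fin (k + 1), i ≠ j ∧ j ≠ 0 ∧ z i j = g}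

/-- MODULE fb. `pv_add` for `s i = z i.succ 0` (relations `sq`, `cm`). -/
theorem av_add {z : Fin (k + 1) → Fin (k + 1) → Γ} (h : Trn (k + 1) z) (v w : Fin k → ZMod 2) :
    av z (v + w) = av z v * av z w := by
  exact pv_add (fun i => h.sq _ _ (Fin.succ_ne_zero i))
    (fun i j => h.cm _ _ _ _ (Fin.succ_ne_zero i) (Fin.succ_ne_zero j) (Fin.succ_ne_zero j).symm (Fin.succ_ne_zero i)) v w

/-- MODULE fb. -/
theorem cv_add {z : Fin (k + 1) → Fin (k + 1) → Γ} (h : Trn (k + 1) z) (v w : Fin k → ZMod 2) :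
    cv z (v + w) = cv z v * cv z w := by
  exact pv_add (fun i => h.sq _ _ (Fin.succ_ne_zero i).symm)
    (fun i j => h.cm _ _ _ _ (Fin.succ_ne_zero i).symm (Fin.succ_ne_zero j).symm (Fin.succ_ne_zero i) (Fin.succ_ne_zero j).symm) v w

/-- the element `g` acts by the matrix `M` -/
def Acts (z : Fin (k + 1) → Fin (k + 1) → Γ) (g : Γ) (M : GL2 k) : Prop :=
  (∀ v, g * av z v * g⁻¹ = av z (M.1 *ᵥ v)) ∧ ∀ u, g * cv z u * g⁻¹ = cv z (u ᵥ* M⁻¹.1)

private theorem fc_inv {a : Γ} (h : a * a = 1) : a⁻¹ = a := inv_eq_of_mul_eq_one_left h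

private theorem fc_avc {z : Fin (k + 1) → Fin (k + 1) → Γ} (h : Trn (k + 1) z) {g : Γ}
    {c : Fin k → Fin k → ZMod 2} (hc : ∀ i, g * z i.succ 0 * g⁻¹ = av z (c i)) (v : Fin k → ZMod 2) :
    g * av z v * g⁻¹ = av z (fun j => ∑ i, v i * c i j) :=
  pv_conj (fun i => h.sq _ _ (Fin.succ_ne_zero i))
    (fun i j => h.cm _ _ _ _ (Fin.succ_ne_zero i) (Fin.succ_ne_zero j) (Fin.succ_ne_zero j).symm (Fin.succ_ne_zero i))
    hc v

private theorem fc_cvc {z : Fin (k + 1) → Fin (k + 1) → Γ} (h : Trn (k + 1) z) {g : Γ}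
    {c : Fin k → Fin k → ZMod 2} (hc : ∀ i, g * z 0 i.succ * g⁻¹ = cv z (c i)) (v : Fin k → ZMod 2) :
    g * cv z v * g⁻¹ = cv z (fun j => ∑ i, v i * c i j) :=
  pv_conj (fun i => h.sq _ _ (Fin.succ_ne_zero i).symm)
    (fun i j => h.cm _ _ _ _ (Fin.succ_ne_zero i).symm (Fin.succ_ne_zero j).symm (Fin.succ_ne_zero i) (Fin.succ_ne_zero j).symm)
    hc v

private theorem fc_avs (z : Fin (k + 1) → Fin (k + 1) → Γ) (i : Fin k) : av z (Pi.single i 1) = z i.succ 0 :=
  pv_single (fun i => z i.succ 0) i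

private theorem fc_cvs (z : Fin (k + 1) → Fin (k + 1) → Γ) (i : Fin k) : cv z (Pi.single i 1) = z 0 i.succ :=
  pv_single (fun i => z 0 i.succ) i

private theorem fc_tv {i j : Fin k} (hij : i ≠ j) : (tv i j).1 = 1 + Matrix.single i j 1 := by
  unfold tv
  rw [dif_neg hij]

private theorem fc_tvi {i j : Fin k} (hij : i ≠ j) : (tv i j)⁻¹.1 = 1 + Matrix.single i j 1 := by
  unfold tv
  rw [dif_neg hij]
  rfl

private theorem fc_mv {i j : Fin k} (hij : i ≠ j) (v : Fin k → ZMod 2) :
    (tv i j).1 *ᵥ v = v + Pi.single i (v j) := by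
  rw [fc_tv hij, Matrix.add_mulVec, Matrix.one_mulVec]
  congr 1
  ext a
  rw [Matrix.single_mulVec]
  by_cases ha : a = i
  · subst ha; simp
  · rw [Pi.single_eq_of_ne ha, Function.update_of_ne ha]
    rfl

private theorem fc_vm {i j : Fin k} (hij : i ≠ j) (v : Fin k → ZMod 2) :
    v ᵥ* (tv i j)⁻¹.1 = v + Pi.single j (v i) := by
  rw [fc_tvi hij, Matrix.vecMul_add, Matrix.vecMul_one]
  congr 1
  ext a
  by_cases ha : a = j
  · subst ha; simp [Matrix.vecMul, dotProduct, Matrix.single_apply]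
  · rw [Pi.single_eq_of_ne ha]
    simp only [Matrix.vecMul, dotProduct, Matrix.single_apply]
    apply Finset.sum_eq_zero
    intro x _
    rw [if_neg (fun h => ha h.2.symm), mul_zero]

private theorem fc_sum (v : Fin k → ZMod 2) (i : Fin k) (w : Fin k → ZMod 2) :
    (fun a => ∑ l, v l * ((Pi.single l 1 : Fin k → ZMod 2) a + (if l = i then w a else 0)))
      = v + (fun a => v i * w a) := by
  ext a
  rw [Pi.add_apply]
  simp only [mul_add, Finset.sum_add_distrib]
  congr 1
  · rw [Finset.sum_eq_single a]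
    · rw [Pi.single_eq_same, mul_one]
    · intro b _ hb
      rw [Pi.single_eq_of_ne hb.symm, mul_zero]
    · intro h'
      exact absurd (Finset.mem_univ a) h'
  · rw [Finset.sum_eq_single i]
    · rw [if_pos rfl]
    · intro b _ hb
      rw [if_neg hb, mul_zero]
    · intro h'
      exact absurd (Finset.mem_univ i) h'

private theorem fc_mul {z : Fin (k + 1) → Fin (k + 1) → Γ} {g g' : Γ} {M M' : GL2 k} (h : Acts z g M)
    (h' : Acts z g' M') : Acts z (g * g') (M * M') := by
  refine ⟨fun v => ?_, fun u => ?_⟩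
  · have e : g * g' * av z v * (g * g')⁻¹ = g * (g' * av z v * g'⁻¹) * g⁻¹ := by group
    rw [e, h'.1, h.1, Matrix.mulVec_mulVec, Units.val_mul]
  · have e : g * g' * cv z u * (g * g')⁻¹ = g * (g' * cv z u * g'⁻¹) * g⁻¹ := by group
    rw [e, h'.2, h.2, Matrix.vecMul_vecMul, _root_.mul_inv_rev, Units.val_mul]

private theorem fc_one (z : Fin (k + 1) → Fin (k + 1) → Γ) : Acts z 1 1 := by
  refine ⟨fun v => ?_, fun u => ?_⟩
  · rw [Units.val_one, Matrix.one_mulVec]; group
  · have e : ((1 : GL2 k)⁻¹).1 = 1 := by rw [inv_one]; rfl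
    rw [e, Matrix.vecMul_one]; group

private theorem fc_ainv {z : Fin (k + 1) → Fin (k + 1) → Γ} {g : Γ} {M : GL2 k} (h : Acts z g M) :
    Acts z g⁻¹ M⁻¹ := by
  refine ⟨fun v => ?_, fun u => ?_⟩
  · have e := h.1 ((M⁻¹).1 *ᵥ v)
    rw [Matrix.mulVec_mulVec, Units.mul_inv, Matrix.one_mulVec] at e
    rw [← e]; group
  · have e := h.2 (u ᵥ* ((M⁻¹)⁻¹).1)
    rw [Matrix.vecMul_vecMul, inv_inv, Units.mul_inv, Matrix.vecMul_one] at e
    rw [inv_inv, ← e]; group

/-- MODULE fc. `z_(i+1)(j+1)` acts by the elementary matrix `E_ij`.  `pv_conj`: the conjugate of `z_(l+1) 0` is itself if `l ≠ j` (`cm`) and `z_(i+1) 0 z_(j+1) 0` if `l = j` (`mul`); that is `av (E_ij e_l)`.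
The conjugate of `z_0 (l+1)` is itself if `l ≠ i` and `z_0 (i+1) z_0 (j+1)` if `l = i` (from `mul` for `0, i+1, j+1`, all elements are involutions): `cv (e_l E_ij)`, `E_ij⁻¹ = E_ij`. -/
theorem acts_gen {z : Fin (k + 1) → Fin (k + 1) → Γ} (h : Trn (k + 1) z) {i j : Fin k} (hij : i ≠ j) :
    Acts z (z i.succ j.succ) (tv i j) := by
  have hi0 : i.succ ≠ (0 : Fin (k + 1)) := Fin.succ_ne_zero i
  have hj0 : j.succ ≠ (0 : Fin (k + 1)) := Fin.succ_ne_zero j
  have hij' : i.succ ≠ j.succ := fun h' => hij (Fin.succ_injective _ h')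
  refine ⟨fun v => ?_, fun u => ?_⟩
  · have hc : ∀ l : Fin k, z i.succ j.succ * z l.succ 0 * (z i.succ j.succ)⁻¹
        = av z (fun a => (Pi.single l 1 : Fin k → ZMod 2) a + (if l = j then (Pi.single i 1 : Fin k → ZMod 2) a else 0)) := by
      intro l
      by_cases hl : l = j
      · subst hl
        have e : (fun a => (Pi.single l 1 : Fin k → ZMod 2) a + (if l = l then (Pi.single i 1 : Fin k → ZMod 2) a else 0))
            = (Pi.single i 1 : Fin k → ZMod 2) + Pi.single l 1 := by
          ext a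
          rw [if_pos rfl, Pi.add_apply, add_comm]
        rw [e, av_add h, fc_avs, fc_avs]
        have h3 := h.mul i.succ l.succ 0 hij' (Fin.succ_ne_zero l) hi0
        rw [← h3]
        group
      · have e : (fun a => (Pi.single l 1 : Fin k → ZMod 2) a + (if l = j then (Pi.single i 1 : Fin k → ZMod 2) a else 0))
            = (Pi.single l 1 : Fin k → ZMod 2) := by
          ext a
          rw [if_neg hl, add_zero]
        rw [e, fc_avs]
        have h3 := h.cm i.succ j.succ l.succ 0 hij' (Fin.succ_ne_zero l) (fun h' => hl (Fin.succ_injective _ h').symm) hi0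
        rw [h3, mul_inv_cancel_right]
    rw [fc_avc h hc v, fc_sum v j (Pi.single i 1), fc_mv hij]
    congr 2
    ext a
    by_cases ha : a = i
    · subst ha; simp
    · rw [Pi.single_eq_of_ne ha, Pi.single_eq_of_ne ha, mul_zero]
  · have hc : ∀ l : Fin k, z i.succ j.succ * z 0 l.succ * (z i.succ j.succ)⁻¹
        = cv z (fun a => (Pi.single l 1 : Fin k → ZMod 2) a + (if l = i then (Pi.single j 1 : Fin k → ZMod 2) a else 0)) := by
      intro l
      by_cases hl : l = i
      · subst hl
        have e : (fun a => (Pi.single l 1 : Fin k → ZMod 2) a + (if l = l then (Pi.single j 1 : Fin k → ZMod 2) a else 0))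
            = (Pi.single l 1 : Fin k → ZMod 2) + Pi.single j 1 := by
          ext a
          rw [if_pos rfl, Pi.add_apply]
        rw [e, cv_add h, fc_cvs, fc_cvs]
        have h3 := h.mul 0 l.succ j.succ hi0.symm hij' hj0.symm
        have h4 := fc_inv (h.sq 0 l.succ hi0.symm)
        rw [← h3, h4]
        have h5 := h.sq 0 l.succ hi0.symm
        calc z l.succ j.succ * z 0 l.succ * (z l.succ j.succ)⁻¹
            = 1 * (z l.succ j.succ * z 0 l.succ * (z l.succ j.succ)⁻¹) := by rw [one_mul]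
          _ = z 0 l.succ * (z 0 l.succ * z l.succ j.succ * z 0 l.succ * (z l.succ j.succ)⁻¹) := by
              rw [← h5]; group
      · have e : (fun a => (Pi.single l 1 : Fin k → ZMod 2) a + (if l = i then (Pi.single j 1 : Fin k → ZMod 2) a else 0))
            = (Pi.single l 1 : Fin k → ZMod 2) := by
          ext a
          rw [if_neg hl, add_zero]
        rw [e, fc_cvs]
        have h3 := h.cm i.succ j.succ 0 l.succ hij' (Fin.succ_ne_zero l).symm hj0 (fun h' => hl (Fin.succ_injective _ h').symm)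
        rw [h3, mul_inv_cancel_right]
    rw [fc_cvc h hc u, fc_sum u i (Pi.single j 1), fc_vm hij]
    congr 2
    ext a
    by_cases ha : a = j
    · subst ha; simp
    · rw [Pi.single_eq_of_ne ha, Pi.single_eq_of_ne ha, mul_zero]

/-- MODULE fc. `Subgroup.closure_induction`: `Acts` is compatible with products and inverses. -/
theorem acts_Hs {z : Fin (k + 1) → Fin (k + 1) → Γ} (h : Trn (k + 1) z) {g : Γ} (hg : g ∈ Hs z) : ∃ M : GL2 k, Acts z g M := by
  unfold Hs at hg
  induction hg using Subgroup.closure_induction with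
  | mem x hx =>
    obtain ⟨i, j, hij, rfl⟩ := hx
    exact ⟨_, acts_gen h hij⟩
  | one => exact ⟨1, fc_one z⟩
  | mul x y _ _ hx hy =>
    obtain ⟨M, hM⟩ := hx
    obtain ⟨N, hN⟩ := hy
    exact ⟨M * N, fc_mul hM hN⟩
  | inv x _ hx =>
    obtain ⟨M, hM⟩ := hx
    exact ⟨M⁻¹, fc_ainv hM⟩

/-- MODULE fd. Choose `i` with `v i = 1`.  The product of the `z_(j+1)(i+1)` over the `j ≠ i` with `v j = 1` acts by the product of the `E_ji`, and `E_ji v = v + e_j`: induction on the number of the `j ≠ i` with `v j = 1`. -/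
theorem acts_trans {z : Fin (k + 1) → Fin (k + 1) → Γ} (h : Trn (k + 1) z) {v : Fin k → ZMod 2} (hv : v ≠ 0) :
    ∃ i : Fin k, ∃ g ∈ Hs z, ∃ M : GL2 k, Acts z g M ∧ M.1 *ᵥ v = Pi.single i 1 := by
  obtain ⟨i, hi⟩ : ∃ i, v i ≠ 0 := by
    by_contra hc
    push Not at hc
    exact hv (funext hc)
  have hi1 : v i = 1 := (fa_z2 (v i)).resolve_left hi
  have key : ∀ S : Finset (Fin k), i ∉ S → ∃ g ∈ Hs z, ∃ M : GL2 k, Acts z g M ∧
      M.1 *ᵥ v = v + ∑ j ∈ S, (Pi.single j 1 : Fin k → ZMod 2) := by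
    intro S
    induction S using Finset.induction_on with
    | empty =>
      intro _
      exact ⟨1, Subgroup.one_mem _, 1, fc_one z, by rw [Units.val_one, Matrix.one_mulVec, Finset.sum_empty, add_zero]⟩
    | insert a S ha ih =>
      intro hiS
      rw [Finset.mem_insert, not_or] at hiS
      obtain ⟨g, hg, M, hM, hM'⟩ := ih hiS.2
      have hai : a ≠ i := fun h' => hiS.1 h'.symm
      refine ⟨z a.succ i.succ * g, Subgroup.mul_mem _ (Subgroup.subset_closure ⟨a, i, hai, rfl⟩) hg, tv a i * M,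
        fc_mul (acts_gen h hai) hM, ?_⟩
      rw [Units.val_mul, ← Matrix.mulVec_mulVec, hM', fc_mv hai, Finset.sum_insert ha]
      have e : (v + ∑ j ∈ S, (Pi.single j 1 : Fin k → ZMod 2)) i = 1 := by
        rw [Pi.add_apply, Finset.sum_apply, Finset.sum_eq_zero, add_zero, hi1]
        intro j hj
        rw [Pi.single_eq_of_ne]
        intro h'
        exact hiS.2 (h' ▸ hj)
      rw [e]
      abel
  obtain ⟨g, hg, M, hM, hM'⟩ := key (Finset.univ.filter fun j => j ≠ i ∧ v j = 1) (by simp)
  refine ⟨i, g, hg, M, hM, ?_⟩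
  rw [hM']
  ext a
  rw [Pi.add_apply, Finset.sum_apply]
  by_cases ha : a = i
  · subst ha
    rw [Finset.sum_eq_zero, add_zero, hi1, Pi.single_eq_same]
    intro j hj
    rw [Finset.mem_filter] at hj
    rw [Pi.single_eq_of_ne hj.2.1.symm]
  · rw [Pi.single_eq_of_ne ha]
    rcases fa_z2 (v a) with h0 | h0
    · rw [h0, Finset.sum_eq_zero, add_zero]
      intro j hj
      rw [Finset.mem_filter] at hj
      rw [Pi.single_eq_of_ne]
      intro h'
      rw [h', hj.2.2] at h0
      exact absurd h0 (by decide)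
    · rw [h0, Finset.sum_eq_single a, Pi.single_eq_same]
      · decide
      · intro b _ hb
        rw [Pi.single_eq_of_ne hb.symm]
      · intro h'
        exact absurd (Finset.mem_filter.2 ⟨Finset.mem_univ a, ha, h0⟩) h'

private theorem fe_HQ {z : Fin (k + 1) → Fin (k + 1) → Γ} {g : Γ} (hg : g ∈ Hs z) : g ∈ Qs z := by
  refine Subgroup.closure_mono ?_ hg
  rintro x ⟨i, j, hij, rfl⟩
  exact ⟨i.succ, j.succ, fun h' => hij (Fin.succ_injective _ h'), Fin.succ_ne_zero j, rfl⟩

private theorem fe_cv (z : Fin (k + 1) → Fin (k + 1) → Γ) (u : Fin k → ZMod 2) : cv z u ∈ Qs z := by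
  unfold cv
  apply pv_ind (P := fun x => x ∈ Qs z)
  · exact Subgroup.one_mem _
  · intro i _
    exact Subgroup.subset_closure ⟨0, i.succ, (Fin.succ_ne_zero i).symm, Fin.succ_ne_zero i, rfl⟩
  · intro a b ha hb
    exact Subgroup.mul_mem _ ha hb

private theorem fe_sp {z : Fin (k + 1) → Fin (k + 1) → Γ} (h : Trn (k + 1) z) (i : Fin k) {u : Fin k → ZMod 2}
    (hu : u i = 0) : (z i.succ 0)⁻¹ * cv z u * z i.succ 0 ∈ Qs z := by
  unfold cv
  apply pv_ind (P := fun x => (z i.succ 0)⁻¹ * x * z i.succ 0 ∈ Qs z)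
  · rw [mul_one, inv_mul_cancel]
    exact Subgroup.one_mem _
  · intro j hj
    have hij : i ≠ j := by
      rintro rfl
      rw [hu] at hj
      exact absurd hj (by decide)
    have hij' : i.succ ≠ j.succ := fun h' => hij (Fin.succ_injective _ h')
    have h3 := h.mul i.succ 0 j.succ (Fin.succ_ne_zero i) (Fin.succ_ne_zero j).symm hij'
    have h4 := fc_inv (h.sq i.succ 0 (Fin.succ_ne_zero i))
    have e : (z i.succ 0)⁻¹ * z 0 j.succ * z i.succ 0 = z i.succ j.succ * z 0 j.succ := by
      rw [← h3, h4]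
      group
    rw [e]
    exact Subgroup.mul_mem _ (Subgroup.subset_closure ⟨i.succ, j.succ, hij', Fin.succ_ne_zero j, rfl⟩)
      (Subgroup.subset_closure ⟨0, j.succ, (Fin.succ_ne_zero j).symm, Fin.succ_ne_zero j, rfl⟩)
  · intro a b ha hb
    have e : (z i.succ 0)⁻¹ * (a * b) * z i.succ 0
        = ((z i.succ 0)⁻¹ * a * z i.succ 0) * ((z i.succ 0)⁻¹ * b * z i.succ 0) := by group
    rw [e]
    exact Subgroup.mul_mem _ ha hb

private theorem fe_dot (M : GL2 k) (u v : Fin k → ZMod 2) : (u ᵥ* M⁻¹.1) ⬝ᵥ (M.1 *ᵥ v) = u ⬝ᵥ v := by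
  rw [Matrix.dotProduct_mulVec, Matrix.vecMul_vecMul, Units.inv_mul, Matrix.vecMul_one]

/-- MODULE fe. First `v = e_i`, `u i = 0` (`av z (e_i) = z_(i+1) 0`, `pv_single`): `cv z u` is a product of `z_0 (j+1)`, `j ≠ i` (`pv_ind`), and `z_(i+1) 0 z_0 (j+1) z_(i+1) 0⁻¹ = z_(i+1)(j+1) z_0 (j+1) ∈ Q` (`mul`).
`v = 0` is trivial (`pv_zero`, `cv z u ∈ Q`).  General `v ≠ 0`: take `g`, `M` from `acts_trans`: `g av(v) g⁻¹ = av(e_i)`, `g cv(u) g⁻¹ = cv(u M⁻¹)` and `(u M⁻¹) · e_i = u · v = 0`; `Hs ≤ Qs`. -/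
theorem key_Q {z : Fin (k + 1) → Fin (k + 1) → Γ} (h : Trn (k + 1) z) {u v : Fin k → ZMod 2} (huv : u ⬝ᵥ v = 0) :
    (av z v)⁻¹ * cv z u * av z v ∈ Qs z := by
  by_cases hv : v = 0
  · subst hv
    have e : av z 0 = 1 := pv_zero _
    rw [e, inv_one, one_mul, mul_one]
    exact fe_cv z u
  · obtain ⟨i, g, hg, M, hM, hMv⟩ := acts_trans h hv
    have h1 := hM.1 v
    rw [hMv, fc_avs] at h1
    have h2 := hM.2 u
    have h3 : (u ᵥ* M⁻¹.1) i = 0 := by
      have e := fe_dot M u v
      rw [hMv, huv, dotProduct_single_one] at e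
      exact e
    have h4 := fe_sp h i h3
    have h5 : (av z v)⁻¹ * cv z u * av z v = g⁻¹ * ((z i.succ 0)⁻¹ * cv z (u ᵥ* M⁻¹.1) * z i.succ 0) * g := by
      rw [← h1, ← h2]
      group
    rw [h5]
    exact Subgroup.mul_mem _ (Subgroup.mul_mem _ (Subgroup.inv_mem _ (fe_HQ hg)) h4) (fe_HQ hg)

/-- the two types of elements -/
def Ty (z : Fin (k + 1) → Fin (k + 1) → Γ) (g : Γ) : Prop :=
  (∃ v, ∃ q ∈ Qs z, g = av z v * q) ∨ ∃ u v, u ⬝ᵥ v = 1 ∧ ∃ q ∈ Qs z, g = cv z u * av z v * q

/-- MODULE ff. The generators `z_(i+1)(j+1)` (they are in `Qs`): with `M = E_ij` (`acts_gen`), `z av(v) q = av(M v) (z q)`, `z cv(u) av(v) q = cv(u M⁻¹) av(M v) (z q)` and `(u M⁻¹) · (M v) = u · v`. -/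
theorem ty_H {z : Fin (k + 1) → Fin (k + 1) → Γ} (h : Trn (k + 1) z) {i j : Fin k} (hij : i ≠ j) {g : Γ} (hg : Ty z g) :
    Ty z (z i.succ j.succ * g) := by
  have hij' : i.succ ≠ j.succ := fun h' => hij (Fin.succ_injective _ h')
  have hQ : z i.succ j.succ ∈ Qs z := Subgroup.subset_closure ⟨i.succ, j.succ, hij', Fin.succ_ne_zero j, rfl⟩
  have hA := acts_gen h hij
  rcases hg with ⟨v, q, hq, rfl⟩ | ⟨u, v, huv, q, hq, rfl⟩
  · left
    refine ⟨(tv i j).1 *ᵥ v, z i.succ j.succ * q, Subgroup.mul_mem _ hQ hq, ?_⟩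
    rw [← hA.1]
    group
  · right
    refine ⟨u ᵥ* (tv i j)⁻¹.1, (tv i j).1 *ᵥ v, by rw [fe_dot, huv], z i.succ j.succ * q, Subgroup.mul_mem _ hQ hq, ?_⟩
    rw [← hA.1, ← hA.2]
    group

/-- MODULE ff. The generators `z_0 (i+1) = cv(e_i)`.  `cv(e_i) av(v) q`: if `v i = 1` it is of the second type; if `v i = 0` then `cv(e_i) av(v) ∈ av(v) Q` (`key_Q`).  `cv(e_i) cv(u) av(v) q = cv(e_i + u) av(v) q` and `(e_i + u) · v = v i + 1`:
if `v i = 0` it is of the second type, if `v i = 1` use `key_Q`. -/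
theorem ty_c {z : Fin (k + 1) → Fin (k + 1) → Γ} (h : Trn (k + 1) z) (i : Fin k) {g : Γ} (hg : Ty z g) :
    Ty z (z 0 i.succ * g) := by
  rw [← fc_cvs z i]
  rcases hg with ⟨v, q, hq, rfl⟩ | ⟨u, v, huv, q, hq, rfl⟩
  · rcases fa_z2 (v i) with hv | hv
    · left
      have h1 := key_Q h (u := Pi.single i 1) (v := v) (by rw [single_one_dotProduct, hv])
      refine ⟨v, (av z v)⁻¹ * cv z (Pi.single i 1) * av z v * q, Subgroup.mul_mem _ h1 hq, ?_⟩
      group
    · right
      exact ⟨Pi.single i 1, v, by rw [single_one_dotProduct, hv], q, hq, by group⟩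
  · have e : cv z (Pi.single i 1) * (cv z u * av z v * q) = cv z (Pi.single i 1 + u) * av z v * q := by
      rw [cv_add h]
      group
    rw [e]
    have hd : (Pi.single i 1 + u) ⬝ᵥ v = v i + 1 := by rw [add_dotProduct, single_one_dotProduct, huv]
    rcases fa_z2 (v i) with hv | hv
    · right
      exact ⟨Pi.single i 1 + u, v, by rw [hd, hv, zero_add], q, hq, rfl⟩
    · left
      have h1 := key_Q h (u := Pi.single i 1 + u) (v := v) (by rw [hd, hv]; decide)
      refine ⟨v, (av z v)⁻¹ * cv z (Pi.single i 1 + u) * av z v * q, Subgroup.mul_mem _ h1 hq, ?_⟩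
      group

/-- MODULE fg. The generators `z_(i+1) 0 = av(e_i)`.  First type: `av(e_i) av(v) = av(e_i + v)`.  Second type, `u · v = 1`.  For every `u'` with `u' · v = 1` there is `q'` in `Q` with `cv(u) av(v) = cv(u') av(v) q'` (`cv(u) = cv(u') cv(u + u')` and
`key_Q`).  If `v = e_i` take `u' = e_i`: `z_(i+1) 0 z_0 (i+1) z_(i+1) 0 = z_0 (i+1) z_(i+1) 0 z_0 (i+1)` (`br`, involutions) is in `cv(e_i) av(e_i) Q`.  If `v ≠ e_i` there is `j ≠ i` with `v j = 1` (`v ≠ 0`); take `u' = e_j`:
`z_(i+1) 0 z_0 (j+1) = z_(i+1)(j+1) z_0 (j+1) z_(i+1) 0` (`mul`), so `av(e_i) cv(e_j) av(v) = z_(i+1)(j+1) cv(e_j) av(e_i + v) = cv(e_j) av(v) z_(i+1)(j+1)` because `E_ij (e_i + v) = v` and `e_j E_ij = e_j` (`acts_gen`). -/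
theorem ty_a {z : Fin (k + 1) → Fin (k + 1) → Γ} (h : Trn (k + 1) z) (i : Fin k) {g : Γ} (hg : Ty z g) :
    Ty z (z i.succ 0 * g) := by
  rcases hg with ⟨v, q, hq, rfl⟩ | ⟨u, v, huv, q, hq, rfl⟩
  · left
    refine ⟨Pi.single i 1 + v, q, hq, ?_⟩
    rw [av_add h, fc_avs]
    group
  · have key : ∀ u' : Fin k → ZMod 2, u' ⬝ᵥ v = 1 → ∃ q' ∈ Qs z, cv z u * av z v * q = cv z u' * av z v * q' := by
      intro u' hu'
      have hd : (u' + u) ⬝ᵥ v = 0 := by
        rw [add_dotProduct, hu', huv]
        decide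
      refine ⟨(av z v)⁻¹ * cv z (u' + u) * av z v * q, Subgroup.mul_mem _ (key_Q h hd) hq, ?_⟩
      have e : cv z u = cv z u' * cv z (u' + u) := by
        rw [← cv_add h, ← add_assoc]
        congr 1
        have e' : u' + u' = 0 := by
          ext a
          rw [Pi.add_apply]
          exact CharTwo.add_self_eq_zero _
        rw [e', zero_add]
      rw [e]
      group
    by_cases hvi : v = Pi.single i 1
    · obtain ⟨q', hq', e⟩ := key (Pi.single i 1) (by rw [single_one_dotProduct, hvi, Pi.single_eq_same])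
      rw [e, hvi, fc_avs, fc_cvs]
      right
      refine ⟨Pi.single i 1, Pi.single i 1, by rw [single_one_dotProduct, Pi.single_eq_same], z 0 i.succ * q',
        Subgroup.mul_mem _ (Subgroup.subset_closure ⟨0, i.succ, (Fin.succ_ne_zero i).symm, Fin.succ_ne_zero i, rfl⟩) hq', ?_⟩
      rw [fc_avs, fc_cvs]
      have h1 := h.sq i.succ 0 (Fin.succ_ne_zero i)
      have h2 := h.sq 0 i.succ (Fin.succ_ne_zero i).symm
      have h3 := h.br i.succ 0 (Fin.succ_ne_zero i)
      generalize z i.succ 0 = a at *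
      generalize z 0 i.succ = b at *
      have h4 : a * b * a = b * a * b := by
        have ha := fc_inv h1
        have hb := fc_inv h2
        have h5 : a * b * a * (b * a * b) = 1 := by
          rw [← h3]
          simp only [pow_succ, pow_zero, one_mul, mul_assoc]
        have h6 := eq_inv_of_mul_eq_one_left h5
        rw [_root_.mul_inv_rev, _root_.mul_inv_rev, ha, hb] at h6
        rw [h6]
        simp only [mul_assoc]
      calc a * (b * a * q') = (a * b * a) * q' := by simp only [mul_assoc]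
        _ = (b * a * b) * q' := by rw [h4]
        _ = b * a * (b * q') := by simp only [mul_assoc]
    · obtain ⟨j, hj, hvj⟩ : ∃ j, j ≠ i ∧ v j = 1 := by
        by_contra hc
        push Not at hc
        have h0 : ∀ j, j ≠ i → v j = 0 := fun j hj => (fa_z2 (v j)).resolve_right (hc j hj)
        rcases fa_z2 (v i) with hv | hv
        · have hv0 : v = 0 := by
            ext a
            by_cases ha : a = i
            · rw [ha, hv]; rfl
            · rw [h0 a ha]; rfl
          rw [hv0, dotProduct_zero] at huv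
          exact absurd huv (by decide)
        · apply hvi
          ext a
          by_cases ha : a = i
          · rw [ha, hv, Pi.single_eq_same]
          · rw [h0 a ha, Pi.single_eq_of_ne ha]
      obtain ⟨q', hq', e⟩ := key (Pi.single j 1) (by rw [single_one_dotProduct, hvj])
      have hij' : i.succ ≠ j.succ := fun h' => hj (Fin.succ_injective _ h').symm
      have h3 := h.mul i.succ 0 j.succ (Fin.succ_ne_zero i) (Fin.succ_ne_zero j).symm hij'
      have e2 : z i.succ 0 * (cv z u * av z v * q)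
          = z i.succ j.succ * (cv z (Pi.single j 1) * av z (Pi.single i 1 + v) * q') := by
        rw [e, av_add h, fc_avs, fc_cvs, ← h3]
        group
      rw [e2]
      apply ty_H h (Ne.symm hj)
      right
      refine ⟨Pi.single j 1, Pi.single i 1 + v, ?_, q', hq', rfl⟩
      rw [single_one_dotProduct, Pi.add_apply, Pi.single_eq_of_ne hj, zero_add, hvj]

/-- `z` satisfies the relations, generates `Γ`, and `π` sends the `z i j` to the elementary matrices -/
structure Cov (k : ℕ) {Γ : Type*} [Group Γ] (z : Fin k → Fin k → Γ) (π : Γ →* GL2 k) : Prop where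
  rel : Trn k z
  im : ∀ i j, i ≠ j → π (z i j) = tv i j
  gen : Subgroup.closure {g | ∃ i j, i ≠ j ∧ z i j = g} = ⊤

/-- MODULE fh. Every element is of one of the two types: the generators are involutions, so `Γ` is generated as a monoid; `ty_H`, `ty_c`, `ty_a`; `1 = av(0) 1`. -/
theorem ty_all {z : Fin (k + 1) → Fin (k + 1) → Γ} {π : Γ →* GL2 (k + 1)} (h : Cov (k + 1) z π) (g : Γ) : Ty z g := by
  have hg : g ∈ Subgroup.closure {g | ∃ i j, i ≠ j ∧ z i j = g} := by
    rw [h.gen]
    exact Subgroup.mem_top g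
  have step : ∀ x ∈ {g | ∃ i j, i ≠ j ∧ z i j = g}, ∀ y, Ty z y → Ty z (x * y) := by
    rintro x ⟨i, j, hij, rfl⟩ y hy
    induction i using Fin.cases with
    | zero =>
      induction j using Fin.cases with
      | zero => exact absurd rfl hij
      | succ j => exact ty_c h.rel j hy
    | succ i =>
      induction j using Fin.cases with
      | zero => exact ty_a h.rel i hy
      | succ j => exact ty_H h.rel (fun h' => hij (congrArg Fin.succ h')) hy
  induction hg using Subgroup.closure_induction_left with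
  | one =>
    left
    refine ⟨0, 1, Subgroup.one_mem _, ?_⟩
    have e : av z 0 = 1 := pv_zero _
    rw [e, one_mul]
  | mul_left x hx y _ hy => exact step x hx y hy
  | inv_mul_cancel x hx y _ hy =>
    have e : x⁻¹ = x := by
      obtain ⟨i, j, hij, rfl⟩ := hx
      exact fc_inv (h.rel.sq i j hij)
    rw [e]
    exact step x hx y hy

/-- MODULE fh. `Q = cv(·) H`: this set contains the generators and is closed under left multiplication by them (`acts_Hs`, `cv_add`), and the generators are involutions. -/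
theorem Qs_split {z : Fin (k + 1) → Fin (k + 1) → Γ} (h : Trn (k + 1) z) {q : Γ} (hq : q ∈ Qs z) :
    ∃ u, ∃ g ∈ Hs z, q = cv z u * g := by
  have step : ∀ x ∈ {g | ∃ i j : Fin (k + 1), i ≠ j ∧ j ≠ 0 ∧ z i j = g}, ∀ y,
      (∃ u, ∃ g ∈ Hs z, y = cv z u * g) → ∃ u, ∃ g ∈ Hs z, x * y = cv z u * g := by
    rintro x ⟨i, j, hij, hj0, rfl⟩ y ⟨u, g, hg, rfl⟩
    induction j using Fin.cases with
    | zero => exact absurd rfl hj0
    | succ j =>
      induction i using Fin.cases with
      | zero =>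
        refine ⟨Pi.single j 1 + u, g, hg, ?_⟩
        rw [cv_add h, fc_cvs]
        group
      | succ i =>
        have hij' : i ≠ j := fun h' => hij (congrArg Fin.succ h')
        refine ⟨u ᵥ* (tv i j)⁻¹.1, z i.succ j.succ * g,
          Subgroup.mul_mem _ (Subgroup.subset_closure ⟨i, j, hij', rfl⟩) hg, ?_⟩
        rw [← (acts_gen h hij').2]
        group
  unfold Qs at hq
  induction hq using Subgroup.closure_induction_left with
  | one =>
    refine ⟨0, 1, Subgroup.one_mem _, ?_⟩
    have e : cv z 0 = 1 := pv_zero _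
    rw [e, one_mul]
  | mul_left x hx y _ hy => exact step x hx y hy
  | inv_mul_cancel x hx y _ hy =>
    have e : x⁻¹ = x := by
      obtain ⟨i, j, hij, -, rfl⟩ := hx
      exact fc_inv (h.sq i j hij)
    rw [e]
    exact step x hx y hy

private theorem fi_zmod {x : ZMod 2} (h : x ≠ 0) : x = 1 := by
  revert x
  decide

private def fi_P (A : Matrix (Fin (k + 1)) (Fin (k + 1)) (ZMod 2)) : Prop :=
  ∀ j : Fin k, A 0 j.succ = 0 ∧ A j.succ 0 = 0

private theorem fi_mul {A B : Matrix (Fin (k + 1)) (Fin (k + 1)) (ZMod 2)} (hA : fi_P A) (hB : fi_P B) : fi_P (A * B) := by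
  intro j
  constructor
  · rw [Matrix.mul_apply, Fin.sum_univ_succ, (hB j).1, mul_zero, zero_add]
    exact Finset.sum_eq_zero fun i _ => by rw [(hA i).1, zero_mul]
  · rw [Matrix.mul_apply, Fin.sum_univ_succ, (hA j).2, zero_mul, zero_add]
    exact Finset.sum_eq_zero fun i _ => by rw [(hB i).2, mul_zero]

private theorem fi_inv {A B : Matrix (Fin (k + 1)) (Fin (k + 1)) (ZMod 2)} (hA : fi_P A) (hAB : A * B = 1) (hBA : B * A = 1) :
    fi_P B := by
  have h00 : A 0 0 * B 0 0 = 1 := by
    have h := congrFun (congrFun hAB 0) 0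
    rw [Matrix.mul_apply, Fin.sum_univ_succ, Matrix.one_apply_eq] at h
    rw [← h, Finset.sum_eq_zero fun i _ => by rw [(hA i).1, zero_mul], add_zero]
  have hA0 : A 0 0 ≠ 0 := fun h => by
    rw [h, zero_mul] at h00
    exact zero_ne_one h00
  intro j
  constructor
  · have h := congrFun (congrFun hAB 0) j.succ
    rw [Matrix.mul_apply, Fin.sum_univ_succ, Matrix.one_apply_ne (Fin.succ_ne_zero j).symm,
      Finset.sum_eq_zero fun i _ => by rw [(hA i).1, zero_mul], add_zero] at h
    exact (mul_eq_zero.1 h).resolve_left hA0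
  · have h := congrFun (congrFun hBA j.succ) 0
    rw [Matrix.mul_apply, Fin.sum_univ_succ, Matrix.one_apply_ne (Fin.succ_ne_zero j),
      Finset.sum_eq_zero fun i _ => by rw [(hA i).2, mul_zero], add_zero] at h
    exact (mul_eq_zero.1 h).resolve_right hA0

private def fi_S (k : ℕ) : Subgroup (GL2 (k + 1)) where
  carrier := {A | fi_P A.1}
  mul_mem' := fun {A B} hA hB => by
    show fi_P (A * B).1
    rw [Units.val_mul]
    exact fi_mul hA hB
  one_mem' := by
    show fi_P (1 : GL2 (k + 1)).1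
    intro j
    rw [Units.val_one]
    exact ⟨Matrix.one_apply_ne (Fin.succ_ne_zero j).symm, Matrix.one_apply_ne (Fin.succ_ne_zero j)⟩
  inv_mem' := fun {A} hA => fi_inv hA A.mul_inv A.inv_mul

private theorem fi_sub_mul {A B : Matrix (Fin (k + 1)) (Fin (k + 1)) (ZMod 2)} (hA : fi_P A) :
    A.submatrix Fin.succ Fin.succ * B.submatrix Fin.succ Fin.succ = (A * B).submatrix Fin.succ Fin.succ := by
  ext i j
  rw [Matrix.mul_apply, Matrix.submatrix_apply, Matrix.mul_apply, Fin.sum_univ_succ, (hA i).2, zero_mul, zero_add]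
  rfl

private theorem fi_sub_one : (1 : Matrix (Fin (k + 1)) (Fin (k + 1)) (ZMod 2)).submatrix Fin.succ Fin.succ = (1 : Matrix (Fin k) (Fin k) (ZMod 2)) :=
  Matrix.submatrix_one _ (Fin.succ_injective k)

/-- MODULE fi. The block diagonal matrices and the projection to the lower right block: `S` is the set of the `A` with `A_0j = A_j0 = 0` for `j ≥ 1`; it is closed under products; `A e_0 = e_0` (`A_00 ≠ 0`, so `A_00 = 1`) gives `A⁻¹ e_0 = e_0`, the same for rows. -/
theorem lr_hom (k : ℕ) : ∃ (S : Subgroup (GL2 (k + 1))) (ρ : S →* GL2 k),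
    (∀ A, A ∈ S ↔ ∀ j : Fin k, A.1 0 j.succ = 0 ∧ A.1 j.succ 0 = 0) ∧
    ∀ (A : S) (i j : Fin k), (ρ A).1 i j = A.1.1 i.succ j.succ := by
  refine ⟨fi_S k, ⟨⟨fun A => ⟨A.1.1.submatrix Fin.succ Fin.succ, A.1⁻¹.1.submatrix Fin.succ Fin.succ, ?_, ?_⟩, ?_⟩, ?_⟩, ?_, ?_⟩
  · rw [fi_sub_mul A.2, Units.mul_inv, fi_sub_one]
  · rw [fi_sub_mul ((fi_S k).inv_mem A.2), Units.inv_mul, fi_sub_one]
  · exact Units.ext fi_sub_one
  · intro A B
    exact Units.ext (fi_sub_mul A.2).symm
  · intro A
    rfl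
  · intro A i j
    rfl

private theorem fj_tv {k : ℕ} {i j : Fin k} (hij : i ≠ j) (w : Fin k → ZMod 2) (a : Fin k) :
    ((tv i j).1 *ᵥ w) a = w a + if a = i then w j else 0 := by
  have h1 : (tv i j).1 = 1 + Matrix.single i j (1 : ZMod 2) := by
    rw [tv, dif_neg hij]
  rw [h1, Matrix.add_mulVec, Matrix.one_mulVec, Pi.add_apply, Matrix.mulVec, dotProduct]
  congr 1
  rw [Finset.sum_eq_single j]
  · rw [Matrix.single_apply]
    by_cases ha : a = i
    · rw [if_pos ⟨ha.symm, rfl⟩, if_pos ha, one_mul]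
    · rw [if_neg fun h => ha h.1.symm, if_neg ha, zero_mul]
  · intro b _ hb
    rw [Matrix.single_apply, if_neg fun h => hb h.2.symm, zero_mul]
  · intro hj
    exact absurd (Finset.mem_univ j) hj

private theorem fj_dec (x : ZMod 2) : x = 1 ∨ x = 0 := by
  revert x
  decide

private theorem fj_list_av {z : Fin (k + 1) → Fin (k + 1) → Γ} {π : Γ →* GL2 (k + 1)} (h : Cov (k + 1) z π) (v : Fin k → ZMod 2)
    (l : List (Fin k)) (hl : l.Nodup) (w : Fin (k + 1) → ZMod 2) :
    (π ((l.map fun i => if v i = 1 then z i.succ 0 else 1).prod)).1 *ᵥ w =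
      Fin.cons (w 0) (fun i => w i.succ + if i ∈ l then v i * w 0 else 0) := by
  induction l with
  | nil =>
    rw [List.map_nil, List.prod_nil, map_one, Units.val_one, Matrix.one_mulVec]
    funext a
    refine Fin.cases ?_ (fun i => ?_) a
    · rfl
    · rw [Fin.cons_succ, if_neg (List.not_mem_nil), add_zero]
  | cons c l ih =>
    rw [List.nodup_cons] at hl
    rw [List.map_cons, List.prod_cons, map_mul, Units.val_mul, ← Matrix.mulVec_mulVec, ih hl.2]
    by_cases hc : v c = 1
    · rw [if_pos hc, h.im _ _ (Fin.succ_ne_zero c)]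
      funext a
      rw [fj_tv (Fin.succ_ne_zero c)]
      refine Fin.cases ?_ (fun i => ?_) a
      · rw [if_neg (Fin.succ_ne_zero c).symm, add_zero, Fin.cons_zero, Fin.cons_zero]
      · rw [Fin.cons_succ, Fin.cons_zero, Fin.cons_succ]
        by_cases hi : i = c
        · subst hi
          rw [if_pos rfl, if_neg hl.1, if_pos List.mem_cons_self, hc, one_mul, add_zero]
        · rw [if_neg fun h => hi (Fin.succ_injective k h), add_zero]
          by_cases hil : i ∈ l
          · rw [if_pos hil, if_pos (List.mem_cons_of_mem _ hil)]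
          · rw [if_neg hil, if_neg fun h => (List.mem_cons.1 h).elim hi hil]
    · rw [if_neg hc, map_one, Units.val_one, Matrix.one_mulVec]
      have hc0 : v c = 0 := (fj_dec (v c)).resolve_left hc
      funext a
      refine Fin.cases ?_ (fun i => ?_) a
      · rfl
      · rw [Fin.cons_succ, Fin.cons_succ]
        by_cases hi : i = c
        · subst hi
          rw [if_neg hl.1, if_pos List.mem_cons_self, hc0, zero_mul]
        · by_cases hil : i ∈ l
          · rw [if_pos hil, if_pos (List.mem_cons_of_mem _ hil)]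
          · rw [if_neg hil, if_neg fun h => (List.mem_cons.1 h).elim hi hil]

private theorem fj_list_cv {z : Fin (k + 1) → Fin (k + 1) → Γ} {π : Γ →* GL2 (k + 1)} (h : Cov (k + 1) z π) (u : Fin k → ZMod 2)
    (l : List (Fin k)) (w : Fin (k + 1) → ZMod 2) :
    (π ((l.map fun i => if u i = 1 then z 0 i.succ else 1).prod)).1 *ᵥ w =
      Fin.cons (w 0 + (l.map fun i => u i * w i.succ).sum) (fun i => w i.succ) := by
  induction l with
  | nil =>
    rw [List.map_nil, List.prod_nil, map_one, Units.val_one, Matrix.one_mulVec, List.map_nil, List.sum_nil, add_zero]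
    funext a
    refine Fin.cases ?_ (fun i => ?_) a
    · rfl
    · rw [Fin.cons_succ]
  | cons c l ih =>
    rw [List.map_cons, List.prod_cons, map_mul, Units.val_mul, ← Matrix.mulVec_mulVec, ih, List.map_cons, List.sum_cons]
    by_cases hc : u c = 1
    · rw [if_pos hc, h.im _ _ (Fin.succ_ne_zero c).symm]
      funext a
      rw [fj_tv (Fin.succ_ne_zero c).symm]
      refine Fin.cases ?_ (fun i => ?_) a
      · rw [if_pos rfl, Fin.cons_zero, Fin.cons_succ, Fin.cons_zero, hc, one_mul, add_assoc, add_comm (w c.succ)]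
      · rw [if_neg (Fin.succ_ne_zero i), add_zero, Fin.cons_succ, Fin.cons_succ]
    · rw [if_neg hc, map_one, Units.val_one, Matrix.one_mulVec]
      have hc0 : u c = 0 := (fj_dec (u c)).resolve_left hc
      rw [hc0, zero_mul, zero_add]

/-- MODULE fj. The matrices of `av`, `cv`, as maps on vectors.  By `pv_ind`-like induction (or: both sides are homomorphisms in `v`, for `v = e_i` it is `tv`); the matrix `tv i j` sends `w` to `w + w_j e_i`. -/
theorem im_av {z : Fin (k + 1) → Fin (k + 1) → Γ} {π : Γ →* GL2 (k + 1)} (h : Cov (k + 1) z π) (v : Fin k → ZMod 2)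
    (w : Fin (k + 1) → ZMod 2) :
    (π (av z v)).1 *ᵥ w = Fin.cons (w 0) (fun i => w i.succ + v i * w 0) := by
  rw [av, pv, fj_list_av h v (List.finRange k) (List.nodup_finRange k) w]
  congr 1
  funext i
  rw [if_pos (List.mem_finRange i)]

/-- MODULE fj. -/
theorem im_cv {z : Fin (k + 1) → Fin (k + 1) → Γ} {π : Γ →* GL2 (k + 1)} (h : Cov (k + 1) z π) (u : Fin k → ZMod 2)
    (w : Fin (k + 1) → ZMod 2) :
    (π (cv z u)).1 *ᵥ w = Fin.cons (w 0 + ∑ i, u i * w i.succ) (fun i => w i.succ) := by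
  have h1 : ∑ i, u i * w i.succ = ((List.finRange k).map fun i => u i * w i.succ).sum := by
    rw [← List.ofFn_eq_map, List.sum_ofFn]
  rw [h1]
  exact fj_list_cv h u (List.finRange k) w

/-- MODULE fj. `Q` fixes the vector `e_0`. -/
theorem im_Qs {z : Fin (k + 1) → Fin (k + 1) → Γ} {π : Γ →* GL2 (k + 1)} (h : Cov (k + 1) z π) {q : Γ} (hq : q ∈ Qs z) :
    (π q).1 *ᵥ Pi.single 0 1 = Pi.single 0 1 := by
  refine Subgroup.closure_induction (p := fun q _ => (π q).1 *ᵥ Pi.single 0 1 = Pi.single 0 1) ?_ ?_ ?_ ?_ hq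
  · rintro _ ⟨i, j, hij, hj, rfl⟩
    rw [h.im i j hij]
    funext a
    rw [fj_tv hij, Pi.single_eq_of_ne hj, ite_self, add_zero]
  · rw [map_one, Units.val_one, Matrix.one_mulVec]
  · intro a b _ _ ha hb
    rw [map_mul, Units.val_mul, ← Matrix.mulVec_mulVec, hb, ha]
  · intro a _ ha
    rw [map_inv]
    calc (π a)⁻¹.1 *ᵥ Pi.single 0 1 = (π a)⁻¹.1 *ᵥ ((π a).1 *ᵥ Pi.single 0 1) := by rw [ha]
      _ = Pi.single 0 1 := by rw [Matrix.mulVec_mulVec, Units.inv_mul, Matrix.one_mulVec]

/-- MODULE fj. `H` is block diagonal. -/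
theorem im_Hs {z : Fin (k + 1) → Fin (k + 1) → Γ} {π : Γ →* GL2 (k + 1)} (h : Cov (k + 1) z π) {g : Γ} (hg : g ∈ Hs z) :
    ∀ j : Fin k, (π g).1 0 j.succ = 0 ∧ (π g).1 j.succ 0 = 0 := by
  obtain ⟨S, ρ, hS, -⟩ := lr_hom k
  have hle : Hs z ≤ S.comap π := by
    rw [Hs, Subgroup.closure_le]
    rintro _ ⟨i, j, hij, rfl⟩
    show π (z i.succ j.succ) ∈ S
    rw [hS, h.im _ _ fun h' => hij (Fin.succ_injective k h')]
    intro l
    have h1 : (tv i.succ j.succ).1 = 1 + Matrix.single i.succ j.succ (1 : ZMod 2) := by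
      rw [tv, dif_neg fun h' => hij (Fin.succ_injective k h')]
    rw [h1, Matrix.add_apply, Matrix.add_apply, Matrix.one_apply_ne (Fin.succ_ne_zero l).symm,
      Matrix.one_apply_ne (Fin.succ_ne_zero l), Matrix.single_apply, Matrix.single_apply,
      if_neg fun h' => Fin.succ_ne_zero i h'.1, if_neg fun h' => Fin.succ_ne_zero j h'.2]
    exact ⟨add_zero 0, add_zero 0⟩
  exact (hS _).1 (hle hg)

private theorem fk_trn {Γ : Type*} [Group Γ] {k : ℕ} {z : Fin (k + 1) → Fin (k + 1) → Γ}
    (h : Trn (k + 1) z) (z' : Fin k → Fin k → Hs z)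
    (hz : ∀ i j, i ≠ j → (z' i j : Γ) = z i.succ j.succ) : Trn k z' := by
  have hs : ∀ {i j : Fin k}, i ≠ j → i.succ ≠ j.succ := fun h h' => h (Fin.succ_injective _ h')
  constructor
  · intro i j hij
    apply Subtype.ext
    rw [Subgroup.coe_mul, hz i j hij]
    exact h.sq _ _ (hs hij)
  · intro i j l hij hjl hil
    apply Subtype.ext
    rw [Subgroup.coe_mul, Subgroup.coe_mul, Subgroup.coe_mul, Subgroup.coe_inv, Subgroup.coe_inv,
      hz i j hij, hz j l hjl, hz i l hil]
    exact h.mul _ _ _ (hs hij) (hs hjl) (hs hil)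
  · intro i j a b hij hab hja hib
    apply Subtype.ext
    rw [Subgroup.coe_mul, Subgroup.coe_mul, hz i j hij, hz a b hab]
    exact h.cm _ _ _ _ (hs hij) (hs hab) (hs hja) (hs hib)
  · intro i j hij
    apply Subtype.ext
    rw [Subgroup.coe_pow, Subgroup.coe_mul, hz i j hij, hz j i hij.symm]
    exact h.br _ _ (hs hij)

private theorem fk_tv {k : ℕ} {i j : Fin k} (hij : i ≠ j) (a b : Fin k) :
    (tv i.succ j.succ : GL2 (k + 1)).1 a.succ b.succ = (tv i j : GL2 k).1 a b := by
  have hs : i.succ ≠ j.succ := fun h' => hij (Fin.succ_injective _ h')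
  unfold tv
  rw [dif_neg hs, dif_neg hij]
  show (1 + Matrix.single i.succ j.succ 1 : Matrix (Fin (k + 1)) (Fin (k + 1)) (ZMod 2)) a.succ b.succ
    = (1 + Matrix.single i j 1 : Matrix (Fin k) (Fin k) (ZMod 2)) a b
  rw [Matrix.add_apply, Matrix.add_apply, Matrix.one_apply, Matrix.one_apply]
  simp only [Matrix.single, Matrix.of_apply, Fin.succ_inj]

private theorem fk_Hs {Γ : Type*} [Group Γ] {k : ℕ} {z : Fin (k + 1) → Fin (k + 1) → Γ}
    {π : Γ →* GL2 (k + 1)} (h : Cov (k + 1) z π)
    (ih : ∀ (z' : Fin k → Fin k → Hs z) (π' : Hs z →* GL2 k), Cov k z' π' → ∀ g, π' g = 1 → g = 1)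
    (g : Γ) (hgH : g ∈ Hs z) (hg : π g = 1) : g = 1 := by
  classical
  obtain ⟨S, ρ, hS, hρ⟩ := lr_hom k
  let z' : Fin k → Fin k → Hs z := fun i j =>
    if hij : i ≠ j then ⟨z i.succ j.succ, Subgroup.subset_closure ⟨i, j, hij, rfl⟩⟩ else 1
  have hz : ∀ i j, i ≠ j → (z' i j : Γ) = z i.succ j.succ := by
    intro i j hij
    have : z' i j = ⟨z i.succ j.succ, Subgroup.subset_closure ⟨i, j, hij, rfl⟩⟩ := dif_pos hij
    rw [this]
  let π₁ : Hs z →* S := (π.comp (Hs z).subtype).codRestrict S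
    (fun g => (hS _).2 (im_Hs h g.2))
  have hπ₁ : ∀ g : Hs z, ((π₁ g : S) : GL2 (k + 1)) = π g := fun g => rfl
  have hcov : Cov k z' (ρ.comp π₁) := by
    refine ⟨fk_trn h.rel z' hz, ?_, ?_⟩
    · intro i j hij
      apply Units.ext
      ext a b
      rw [MonoidHom.comp_apply]
      have e := hρ (π₁ (z' i j)) a b
      rw [hπ₁, hz i j hij, h.im _ _ (fun h' => hij (Fin.succ_injective _ h')), fk_tv hij] at e
      exact e
    · have e : {g : Hs z | ∃ i j, i ≠ j ∧ z' i j = g} =
          ((↑) : Hs z → Γ) ⁻¹' {g | ∃ i j : Fin k, i ≠ j ∧ z i.succ j.succ = g} := by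
        ext g
        constructor
        · rintro ⟨i, j, hij, rfl⟩
          exact ⟨i, j, hij, (hz i j hij).symm⟩
        · rintro ⟨i, j, hij, hg⟩
          exact ⟨i, j, hij, Subtype.ext ((hz i j hij).trans hg)⟩
      rw [e]
      exact Subgroup.closure_closure_coe_preimage
  have e1 : (ρ.comp π₁) ⟨g, hgH⟩ = 1 := by
    rw [MonoidHom.comp_apply]
    have : π₁ ⟨g, hgH⟩ = 1 := Subtype.ext (by rw [hπ₁]; exact hg)
    rw [this, map_one]
  have e2 := ih z' (ρ.comp π₁) hcov ⟨g, hgH⟩ e1
  exact congrArg Subtype.val e2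

/-- MODULE fk. The induction step.  Let `π g = 1`.  `g` is of one of the two types (`ty_all`).  `g = cv(u) av(v) q`, `u · v = 1`: `π g e_0 = (1 + u · v) e_0 + v = v` has the coordinate `0` at `0`, a contradiction (`im_Qs`, `im_av`, `im_cv`).
`g = av(v) q`: `π g e_0 = e_0 + v`, so `v = 0`, `g = q = cv(u) g'`, `g' ∈ H` (`Qs_split`).  The row `0` of `π g = π(cv u) π(g')` is `(1, u M)`, `M` the (invertible) lower right block of `π g'` (`im_Hs`, `lr_hom`), so `u = 0` and `g = g' ∈ H`.
The group `H` with the generators `z_(i+1)(j+1)` and the homomorphism `ρ ∘ π` (`lr_hom`) is a `Cov k`, so the hypothesis gives `g' = 1`. -/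
theorem cov_step {z : Fin (k + 1) → Fin (k + 1) → Γ} {π : Γ →* GL2 (k + 1)} (h : Cov (k + 1) z π)
    (ih : ∀ (z' : Fin k → Fin k → Hs z) (π' : Hs z →* GL2 k), Cov k z' π' → ∀ g, π' g = 1 → g = 1)
    (g : Γ) (hg : π g = 1) : g = 1 := by
  have hmul : ∀ (a b : Γ) (w : Fin (k + 1) → ZMod 2),
      (π (a * b)).1 *ᵥ w = (π a).1 *ᵥ ((π b).1 *ᵥ w) := by
    intro a b w
    rw [map_mul, Matrix.mulVec_mulVec]
    rfl
  have hone : ∀ w : Fin (k + 1) → ZMod 2, (π g).1 *ᵥ w = w := by
    intro w
    rw [hg]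
    exact Matrix.one_mulVec w
  have e00 : (Pi.single 0 1 : Fin (k + 1) → ZMod 2) 0 = 1 := Pi.single_eq_same _ _
  have e0s : ∀ i : Fin k, (Pi.single 0 1 : Fin (k + 1) → ZMod 2) i.succ = 0 := fun i =>
    Pi.single_eq_of_ne (Fin.succ_ne_zero i) _
  rcases ty_all h g with ⟨v, q, hq, rfl⟩ | ⟨u, v, huv, q, hq, rfl⟩
  · have hv : v = 0 := by
      ext i
      have e := congrFun (hone (Pi.single 0 1)) i.succ
      rw [hmul, im_Qs h hq, im_av h, Fin.cons_succ, e00, e0s, zero_add, mul_one] at e
      exact e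
    subst hv
    have hav : av z 0 = 1 := pv_zero _
    rw [hav, one_mul] at hg ⊢
    obtain ⟨u, g', hg', rfl⟩ := Qs_split h.rel hq
    have hinv : π (cv z u) = π g'⁻¹ := by
      rw [map_mul] at hg
      rw [map_inv]
      exact eq_inv_of_mul_eq_one_left hg
    have hu : u = 0 := by
      ext j
      have e := (im_Hs h (inv_mem hg') j).1
      rw [← hinv] at e
      have e' := congrFun (im_cv h u (Pi.single j.succ 1)) 0
      rw [Matrix.mulVec_single_one, Matrix.col_apply, e, Fin.cons_zero,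
        Pi.single_eq_of_ne (Fin.succ_ne_zero j).symm, zero_add] at e'
      rw [Finset.sum_eq_single j] at e'
      · rw [Pi.single_eq_same, mul_one] at e'
        exact e'.symm
      · intro b _ hb
        rw [Pi.single_eq_of_ne (fun h' => hb (Fin.succ_injective _ h')), mul_zero]
      · intro hj
        exact absurd (Finset.mem_univ j) hj
    subst hu
    have hcv : cv z 0 = 1 := pv_zero _
    rw [hcv, one_mul] at hg ⊢
    exact fk_Hs h ih g' hg' hg
  · exfalso
    have e := congrFun (hone (Pi.single 0 1)) 0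
    rw [hmul, im_Qs h hq, hmul, im_av h, im_cv h, Fin.cons_zero, Fin.cons_zero, e00] at e
    have e2 : ∑ i, u i * (Fin.cons 1 (fun i => (Pi.single 0 1 : Fin (k + 1) → ZMod 2) i.succ + v i * 1) :
        Fin (k + 1) → ZMod 2) i.succ = u ⬝ᵥ v := by
      unfold dotProduct
      refine Finset.sum_congr rfl (fun i _ => ?_)
      rw [Fin.cons_succ, e0s, zero_add, mul_one]
    rw [e2, huv] at e
    exact absurd e (by decide)

/-- MODULE fl. Induction on `k` (generalizing the group) with `cov_step`; for `k = 0` the group is trivial. -/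
theorem cov_inj (k : ℕ) {Γ : Type*} [Group Γ] (z : Fin k → Fin k → Γ) (π : Γ →* GL2 k) (h : Cov k z π) (g : Γ)
    (hg : π g = 1) : g = 1 := by
  induction k generalizing Γ with
  | zero =>
    have h1 : (⊥ : Subgroup Γ) = ⊤ := by
      rw [← h.gen]
      symm
      rw [Subgroup.closure_eq_bot_iff]
      rintro g ⟨i, _⟩
      exact i.elim0
    have h2 : g ∈ (⊥ : Subgroup Γ) := by
      rw [h1]
      exact Subgroup.mem_top g
    exact Subgroup.mem_bot.1 h2
  | succ k ih => exact cov_step h (fun z' π' h' g hg => ih z' π' h' g hg) g hg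

/-- MODULE fm. The elementary matrices generate `GL_k(2)`: `Matrix.diagonal_transvection_induction_of_det_ne_zero` (a diagonal matrix with nonzero determinant over the field with two elements is `1`; a transvection with coefficient `0` is `1`). -/
theorem tv_gen (k : ℕ) : Subgroup.closure {g : GL2 k | ∃ i j, i ≠ j ∧ tv i j = g} = ⊤ := by
  rw [eq_top_iff]
  rintro M -
  have hd : M.1.det ≠ 0 := ((Matrix.isUnit_iff_isUnit_det _).1 M.isUnit).ne_zero
  obtain ⟨g, hg, hgM⟩ := Matrix.diagonal_transvection_induction_of_det_ne_zero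
    (fun A => ∃ g ∈ Subgroup.closure {g : GL2 k | ∃ i j, i ≠ j ∧ tv i j = g}, g.1 = A) M.1 hd (by
      intro D hD
      refine ⟨1, one_mem _, ?_⟩
      have h1 : ∀ i, D i = 1 := by
        intro i
        rw [Matrix.det_diagonal, Finset.prod_ne_zero_iff] at hD
        have h2 := hD i (Finset.mem_univ i)
        generalize D i = e at h2
        revert h2
        revert e
        decide
      rw [Units.val_one, ← Matrix.diagonal_one, show D = fun _ => 1 from funext h1]) (by
      intro t
      have h2 : t.c = 0 ∨ t.c = 1 := by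
        generalize t.c = e
        revert e
        decide
      rcases h2 with h2 | h2
      · refine ⟨1, one_mem _, ?_⟩
        rw [Units.val_one, Matrix.TransvectionStruct.toMatrix, h2, Matrix.transvection_zero]
      · refine ⟨tv t.i t.j, Subgroup.subset_closure ⟨t.i, t.j, t.hij, rfl⟩, ?_⟩
        rw [Matrix.TransvectionStruct.toMatrix, h2, Matrix.transvection, tv, dif_neg t.hij]) (by
      rintro A B - - ⟨a, ha, rfl⟩ ⟨b, hb, rfl⟩
      exact ⟨a * b, mul_mem ha hb, rfl⟩)
  have h3 : g = M := Units.ext hgM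
  rwa [← h3]

/-- MODULE fm. `tv_gen`, `MonoidHom.eq_of_eqOn_top` / `MonoidHom.eqOn_closure`. -/
theorem hom_ext {k : ℕ} {G : Type*} [Group G] {f g : GL2 k →* G} (h : ∀ i j, i ≠ j → f (tv i j) = g (tv i j)) : f = g := by
  refine MonoidHom.eq_of_eqOn_dense (tv_gen k) ?_
  rintro _ ⟨i, j, hij, rfl⟩
  exact h i j hij

private theorem fm_two (A : Matrix (Fin k) (Fin k) (ZMod 2)) : A + A = 0 := by
  ext a b
  rw [Matrix.add_apply, Matrix.zero_apply]
  exact CharTwo.add_self_eq_zero _

private theorem fm_val {i j : Fin k} (h : i ≠ j) : (tv i j : GL2 k).1 = 1 + Matrix.single i j 1 := by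
  rw [tv, dif_neg h]

private theorem fm_zero {i j a b : Fin k} (h : j ≠ a) :
    (Matrix.single i j 1 * Matrix.single a b 1 : Matrix (Fin k) (Fin k) (ZMod 2)) = 0 :=
  Matrix.single_mul_single_of_ne _ _ _ _ h _

private theorem fm_mul {i j b : Fin k} :
    (Matrix.single i j 1 * Matrix.single j b 1 : Matrix (Fin k) (Fin k) (ZMod 2)) = Matrix.single i b 1 := by
  rw [Matrix.single_mul_single_same, mul_one]

private theorem fm_sq {i j : Fin k} (h : i ≠ j) : (tv i j : GL2 k) * tv i j = 1 := by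
  apply Units.ext
  rw [Units.val_mul, fm_val h, Units.val_one]
  exact single_sq h

private theorem fm_aba {i j : Fin k} (h : i ≠ j) : (tv i j : GL2 k) * tv j i * tv i j = tv j i * tv i j * tv j i := by
  have key : ∀ a b : Fin k, a ≠ b → ((tv a b : GL2 k) * tv b a * tv a b).1 =
      1 + Matrix.single a b 1 + Matrix.single b a 1 + Matrix.single a a 1 + Matrix.single b b 1 := by
    intro a b hab
    rw [Units.val_mul, Units.val_mul, fm_val hab, fm_val hab.symm]
    have e : (1 + Matrix.single a b 1 : Matrix (Fin k) (Fin k) (ZMod 2)) * (1 + Matrix.single b a 1) *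
        (1 + Matrix.single a b 1) = 1 + Matrix.single b a 1 + Matrix.single a a 1 + Matrix.single b b 1 + Matrix.single a b 1 +
          (Matrix.single a b 1 + Matrix.single a b 1) := by
      simp only [add_mul, mul_add, one_mul, mul_one, fm_mul, fm_zero hab.symm]
      abel
    rw [e, fm_two]
    abel
  apply Units.ext
  rw [key i j h, key j i h.symm]
  abel

/-- MODULE fm. The elementary matrices satisfy the relations. -/
theorem tv_trn (k : ℕ) : Trn k (tv : Fin k → Fin k → GL2 k) := by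
  have hinv : ∀ i j : Fin k, i ≠ j → (tv i j : GL2 k)⁻¹ = tv i j := fun i j h =>
    inv_eq_of_mul_eq_one_right (fm_sq h)
  refine ⟨fun i j h => fm_sq h, ?_, ?_, ?_⟩
  · intro i j l hij hjl hil
    have h1 : (tv i j : GL2 k) * tv j l = tv i l * tv j l * tv i j := by
      apply Units.ext
      rw [Units.val_mul, Units.val_mul, Units.val_mul, fm_val hij, fm_val hjl, fm_val hil]
      simp only [add_mul, mul_add, one_mul, mul_one, fm_mul, fm_zero hjl.symm, fm_zero hil.symm, zero_mul]
      abel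
    rw [h1]
    group
  · intro i j a b hij hab hja hib
    apply Units.ext
    rw [Units.val_mul, Units.val_mul, fm_val hij, fm_val hab]
    simp only [add_mul, mul_add, one_mul, mul_one, fm_zero hja, fm_zero hib.symm]
    abel
  · intro i j hij
    have h1 := fm_aba hij
    have h2 := fm_sq hij
    have h3 := fm_sq hij.symm
    calc ((tv i j : GL2 k) * tv j i) ^ 3 = tv i j * tv j i * tv i j * (tv j i * tv i j * tv j i) := by
          rw [pow_succ, pow_two]
          simp only [mul_assoc]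
      _ = tv i j * tv j i * tv i j * (tv i j * tv j i * tv i j) := by rw [h1]
      _ = tv i j * (tv j i * (tv i j * tv i j) * tv j i) * tv i j := by simp only [mul_assoc]
      _ = 1 := by rw [h2, mul_one, h3, mul_one, h2]

/-- MODULE fn. `GL_k(2)` is presented by its elementary matrices.  Let `Γ` be the subgroup of `GL_k(2) × G` generated by the pairs `(tv i j, y i j)`; they satisfy the relations (`tv_trn`, `h`); the first projection `π` is injective (`cov_inj`) and surjective
(`tv_gen`); `φ` is the second projection after the inverse of `π`. -/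
theorem pres {k : ℕ} {G : Type*} [Group G] {y : Fin k → Fin k → G} (h : Trn k y) :
    ∃ φ : GL2 k →* G, ∀ i j, i ≠ j → φ (tv i j) = y i j := by
  classical
  let Γ : Subgroup (GL2 k × G) :=
    Subgroup.closure {g | ∃ i j : Fin k, i ≠ j ∧ ((tv i j : GL2 k), y i j) = g}
  let z : Fin k → Fin k → Γ := fun i j =>
    if hij : i ≠ j then ⟨((tv i j : GL2 k), y i j), Subgroup.subset_closure ⟨i, j, hij, rfl⟩⟩ else 1
  have hz : ∀ i j, i ≠ j → (z i j : GL2 k × G) = (tv i j, y i j) := by
    intro i j hij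
    have : z i j = ⟨((tv i j : GL2 k), y i j), Subgroup.subset_closure ⟨i, j, hij, rfl⟩⟩ :=
      dif_pos hij
    rw [this]
  let π : Γ →* GL2 k := (MonoidHom.fst (GL2 k) G).comp Γ.subtype
  have ht := tv_trn k
  have hcov : Cov k z π := by
    refine ⟨⟨?_, ?_, ?_, ?_⟩, ?_, ?_⟩
    · intro i j hij
      apply Subtype.ext
      rw [Subgroup.coe_mul, hz i j hij]
      exact Prod.ext (ht.sq _ _ hij) (h.sq _ _ hij)
    · intro i j l hij hjl hil
      apply Subtype.ext
      rw [Subgroup.coe_mul, Subgroup.coe_mul, Subgroup.coe_mul, Subgroup.coe_inv, Subgroup.coe_inv,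
        hz i j hij, hz j l hjl, hz i l hil]
      exact Prod.ext (ht.mul _ _ _ hij hjl hil) (h.mul _ _ _ hij hjl hil)
    · intro i j a b hij hab hja hib
      apply Subtype.ext
      rw [Subgroup.coe_mul, Subgroup.coe_mul, hz i j hij, hz a b hab]
      exact Prod.ext (ht.cm _ _ _ _ hij hab hja hib) (h.cm _ _ _ _ hij hab hja hib)
    · intro i j hij
      apply Subtype.ext
      rw [Subgroup.coe_pow, Subgroup.coe_mul, hz i j hij, hz j i hij.symm]
      exact Prod.ext (ht.br _ _ hij) (h.br _ _ hij)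
    · intro i j hij
      show (z i j : GL2 k × G).1 = tv i j
      rw [hz i j hij]
    · have e : {g : Γ | ∃ i j, i ≠ j ∧ z i j = g} =
          ((↑) : Γ → GL2 k × G) ⁻¹' {g | ∃ i j : Fin k, i ≠ j ∧ ((tv i j : GL2 k), y i j) = g} := by
        ext g
        constructor
        · rintro ⟨i, j, hij, rfl⟩
          exact ⟨i, j, hij, (hz i j hij).symm⟩
        · rintro ⟨i, j, hij, hg⟩
          exact ⟨i, j, hij, Subtype.ext ((hz i j hij).trans hg)⟩
      rw [e]
      exact Subgroup.closure_closure_coe_preimage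
  have hinj : Function.Injective π :=
    (injective_iff_map_eq_one π).2 (fun g hg => cov_inj k z π hcov g hg)
  have hsurj : Function.Surjective π := by
    rw [← MonoidHom.range_eq_top, eq_top_iff, ← tv_gen k, Subgroup.closure_le]
    rintro _ ⟨i, j, hij, rfl⟩
    exact ⟨z i j, hcov.im i j hij⟩
  let e : Γ ≃* GL2 k := MulEquiv.ofBijective π ⟨hinj, hsurj⟩
  refine ⟨((MonoidHom.snd (GL2 k) G).comp Γ.subtype).comp e.symm.toMonoidHom, ?_⟩
  intro i j hij
  have e1 : e.symm (tv i j) = z i j := by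
    rw [MulEquiv.symm_apply_eq]
    exact (hcov.im i j hij).symm
  show ((e.symm (tv i j) : Γ) : GL2 k × G).2 = y i j
  rw [e1, hz i j hij]

end ThE
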