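import Pool.Agent.ThE.Lev
import Pool.Agent.ThE.Prs
import Pool.Agent.ThE.Fac

/-! # The homomorphisms from `GL_5(2)` and `GL_m(2)` to the Levi subgroup -/

namespace ThE

variable {m : ℕ} {G : Type*} [Group G]

/-- the elementary matrices of `GL_5(2)` in `G` -/
def yA (x : Root (4 + m) → G) (a b : Fin 5) : G := if h : a ≠ b then x (rA m h) else 1

/-- the elementary matrices of `GL_m(2)` in `G` -/
def yB (x : Root (4 + m) → G) (a b : Fin m) : G := if h : a ≠ b then x (rB m h) else 1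

/-- MODULE ia. `sq`: `h.sq`.  `mul`: `vA a c = vA a b + vA b c`, `h.add`.  `cm`: `bf (vA a b) (vA c d) ≥ 0` if `b ≠ c`, `a ≠ d` (`bf_vA_vA`), `Stb.commute`.  `br`: `br_root` with `-(rA h) = rA h.symm` (`neg_vA`). -/
theorem trnA (hm : m = 3 ∨ m = 4) {x : Root (4 + m) → G} (h : Stb (4 + m) x) : Trn 5 (yA x) := by
  constructor
  · intro i j hij
    rw [yA, dif_pos hij]
    exact h.sq _
  · intro i j l hij hjl hil
    rw [yA, yA, yA, dif_pos hij, dif_pos hjl, dif_pos hil]
    refine h.add _ _ _ ?_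
    show vA m i l = vA m i j + vA m j l
    unfold vA
    abel
  · intro i j a b hij hab hja hib
    rw [yA, yA, dif_pos hij, dif_pos hab]
    refine h.commute ?_
    show 0 ≤ bf (vA m i j) (vA m a b)
    rw [bf_vA_vA, if_neg hib, if_neg hja]
    split_ifs <;> norm_num
  · intro i j hij
    rw [yA, yA, dif_pos hij, dif_pos hij.symm]
    have e : rA m hij.symm = -(rA m hij) := Subtype.ext (neg_vA i j).symm
    rw [e]
    exact br_root hm h _

/-- MODULE ia. -/
theorem trnB (hm : m = 3 ∨ m = 4) {x : Root (4 + m) → G} (h : Stb (4 + m) x) : Trn m (yB x) := by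
  constructor
  · intro i j hij
    rw [yB, dif_pos hij]
    exact h.sq _
  · intro i j l hij hjl hil
    rw [yB, yB, yB, dif_pos hij, dif_pos hjl, dif_pos hil]
    refine h.add _ _ _ ?_
    show vB m i l = vB m i j + vB m j l
    refine Prod.ext rfl ?_
    funext k
    show ((if k = Fin.natAdd 4 i then 1 else 0) - (if k = Fin.natAdd 4 l then 1 else 0) : ℤ) =
      ((if k = Fin.natAdd 4 i then 1 else 0) - (if k = Fin.natAdd 4 j then 1 else 0)) +
        ((if k = Fin.natAdd 4 j then 1 else 0) - (if k = Fin.natAdd 4 l then 1 else 0))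
    ring
  · intro i j a b hij hab hja hib
    rw [yB, yB, dif_pos hij, dif_pos hab]
    refine h.commute ?_
    show 0 ≤ bf (vB m i j) (vB m a b)
    rw [bf_vB_vB, if_neg hib, if_neg hja]
    split_ifs <;> norm_num
  · intro i j hij
    rw [yB, yB, dif_pos hij, dif_pos hij.symm]
    have e : rB m hij.symm = -(rB m hij) := Subtype.ext (neg_vB i j).symm
    rw [e]
    exact br_root hm h _

/-- the pair of homomorphisms -/
structure Phi (x : Root (4 + m) → G) (f : GL2 5 →* G) (g : GL2 m →* G) : Prop where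
  A : ∀ a b, a ≠ b → f (tv a b) = yA x a b
  B : ∀ a b, a ≠ b → g (tv a b) = yB x a b

/-- generation by elementary matrices -/
private theorem ib_ind {k : ℕ} {K : Subgroup (GL2 k)} (h : ∀ i j, i ≠ j → tv i j ∈ K) (M : GL2 k) : M ∈ K := by
  have h1 : Subgroup.closure {g : GL2 k | ∃ i j, i ≠ j ∧ tv i j = g} ≤ K := by
    rw [Subgroup.closure_le]
    rintro g ⟨i, j, hij, rfl⟩
    exact h i j hij
  rw [tv_gen] at h1
  exact h1 (Subgroup.mem_top M)

/-- MODULE ib. `pres`, `trnA`, `trnB`. -/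
theorem phi_exists (hm : m = 3 ∨ m = 4) {x : Root (4 + m) → G} (h : Stb (4 + m) x) :
    ∃ (f : GL2 5 →* G) (g : GL2 m →* G), Phi x f g := by
  obtain ⟨f, hf⟩ := pres (trnA hm h)
  obtain ⟨g, hg⟩ := pres (trnB hm h)
  exact ⟨f, g, hf, hg⟩

/-- MODULE ib. The images commute: for the generators `bf_vA_vB` and `Stb.commute`; `tv_gen` twice. -/
theorem Phi.comm (hm : m = 3 ∨ m = 4) {x : Root (4 + m) → G} (h : Stb (4 + m) x) {f : GL2 5 →* G} {g : GL2 m →* G}
    (hf : Phi x f g) (M : GL2 5) (N : GL2 m) : f M * g N = g N * f M := by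
  have h1 : ∀ a b : Fin 5, a ≠ b → ∀ c d : Fin m, c ≠ d → f (tv a b) * g (tv c d) = g (tv c d) * f (tv a b) := by
    intro a b hab c d hcd
    rw [hf.A a b hab, hf.B c d hcd, yA, yB, dif_pos hab, dif_pos hcd]
    refine h.commute ?_
    show 0 ≤ bf (vA m a b) (vB m c d)
    rw [bf_vA_vB]
  have h2 : ∀ a b : Fin 5, a ≠ b → ∀ N : GL2 m, f (tv a b) * g N = g N * f (tv a b) := by
    intro a b hab N
    have h4 := ib_ind (K := Subgroup.comap g (Subgroup.centralizer {f (tv a b)})) (fun c d hcd => by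
      rw [Subgroup.mem_comap, Subgroup.mem_centralizer_singleton_iff]
      exact (h1 a b hab c d hcd).symm) N
    rw [Subgroup.mem_comap, Subgroup.mem_centralizer_singleton_iff] at h4
    exact h4.symm
  have h3 := ib_ind (K := Subgroup.comap f (Subgroup.centralizer {g N})) (fun a b hab => by
    rw [Subgroup.mem_comap, Subgroup.mem_centralizer_singleton_iff]
    exact h2 a b hab N) M
  rw [Subgroup.mem_comap, Subgroup.mem_centralizer_singleton_iff] at h3
  exact h3

/-- MODULE ib. `tv_gen`, `lam_vA`, `lam_vB`. -/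
theorem Phi.mem {x : Root (4 + m) → G} {f : GL2 5 →* G} {g : GL2 m →* G} (hf : Phi x f g) (M : GL2 5) (N : GL2 m) :
    f M ∈ Lv x ∧ g N ∈ Lv x := by
  constructor
  · refine ib_ind (K := Subgroup.comap f (Lv x)) ?_ M
    intro a b hab
    rw [Subgroup.mem_comap, hf.A a b hab, yA, dif_pos hab]
    exact Subgroup.subset_closure ⟨_, lam_vA a b, rfl⟩
  · refine ib_ind (K := Subgroup.comap g (Lv x)) ?_ N
    intro a b hab
    rw [Subgroup.mem_comap, hf.B a b hab, yB, dif_pos hab]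
    exact Subgroup.subset_closure ⟨_, lam_vB a b, rfl⟩

/-- MODULE ib. `Lv x = f(GL_5) g(GL_m)`: `lam_zero`, `Phi.comm`. -/
theorem Phi.cover (hm : m = 3 ∨ m = 4) {x : Root (4 + m) → G} (h : Stb (4 + m) x) {f : GL2 5 →* G} {g : GL2 m →* G}
    (hf : Phi x f g) {l : G} (hl : l ∈ Lv x) : ∃ (M : GL2 5) (N : GL2 m), l = f M * g N := by
  refine Subgroup.closure_induction (p := fun l _ => ∃ (M : GL2 5) (N : GL2 m), l = f M * g N) ?_ ?_ ?_ ?_ hl
  · rintro y ⟨r, hr, rfl⟩
    rcases lam_zero hm r hr with ⟨a, b, hab, e⟩ | ⟨a, b, hab, e⟩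
    · refine ⟨tv a b, 1, ?_⟩
      have e1 : r = rA m hab := Subtype.ext e
      rw [map_one, mul_one, hf.A a b hab, yA, dif_pos hab, e1]
    · refine ⟨1, tv a b, ?_⟩
      have e1 : r = rB m hab := Subtype.ext e
      rw [map_one, one_mul, hf.B a b hab, yB, dif_pos hab, e1]
  · exact ⟨1, 1, by rw [map_one, map_one, one_mul]⟩
  · rintro _ _ _ _ ⟨M, N, rfl⟩ ⟨M', N', rfl⟩
    refine ⟨M * M', N * N', ?_⟩
    rw [map_mul, map_mul, mul_assoc, mul_assoc, ← mul_assoc (g N), ← Phi.comm hm h hf M' N]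
    simp only [mul_assoc]
  · rintro _ _ ⟨M, N, rfl⟩
    refine ⟨M⁻¹, N⁻¹, ?_⟩
    rw [mul_inv_rev, ← map_inv, ← map_inv, Phi.comm hm h hf]

/-- MODULE ib. The relabelled system: `yA (x ∘ neg) a b = yA x b a` (`neg_vA`), `itr_tv`. -/
theorem Phi.neg {x : Root (4 + m) → G} {f : GL2 5 →* G} {g : GL2 m →* G} (hf : Phi x f g) :
    Phi (fun r => x (-r)) (f.comp (itr 5)) (g.comp (itr m)) := by
  constructor
  · intro a b hab
    rw [MonoidHom.comp_apply, itr_tv, hf.A b a hab.symm, yA, yA, dif_pos hab, dif_pos hab.symm]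
    have e : rA m hab.symm = -(rA m hab) := Subtype.ext (neg_vA a b).symm
    rw [e]
  · intro a b hab
    rw [MonoidHom.comp_apply, itr_tv, hf.B b a hab.symm, yB, yB, dif_pos hab, dif_pos hab.symm]
    have e : rB m hab.symm = -(rB m hab) := Subtype.ext (neg_vB a b).symm
    rw [e]

/-- the action of an elementary matrix `1 + e_ab` on a sum of basis vectors `e_S` of the exterior powers: subsets `S` are coded by the binary digits; `e_S ↦ e_S + e_(S - b + a)` if `b ∈ S`, `a ∉ S` -/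
def act1 (a b : ℕ) (l : List ℕ) : List ℕ :=
  l.flatMap fun c => if c.testBit b && !c.testBit a then [c + 2 ^ a - 2 ^ b, c] else [c]

/-- the action of a word -/
def actw {q : ℕ} (w : List (Fin q × Fin q)) (l : List ℕ) : List ℕ := w.foldr (fun p l => act1 p.1 p.2 l) l

/-- one letter -/
private theorem ic_one {q : ℕ} {y : Fin q → Fin q → G} {ξ : ℕ → G} {D : ℕ → Prop}
    (hD : ∀ c, D c → ∀ a b : Fin q, a ≠ b → (c.testBit b && !c.testBit a) = true → D (c + 2 ^ (a : ℕ) - 2 ^ (b : ℕ)))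
    (hy : ∀ c, D c → ∀ a b : Fin q, a ≠ b → y a b * ξ c * (y a b)⁻¹ =
      if (c.testBit b && !c.testBit a) = true then ξ (c + 2 ^ (a : ℕ) - 2 ^ (b : ℕ)) * ξ c else ξ c)
    {a b : Fin q} (hab : a ≠ b) (l : List ℕ) (hl : ∀ c ∈ l, D c) :
    y a b * (l.map ξ).prod * (y a b)⁻¹ = ((act1 a b l).map ξ).prod ∧ ∀ c ∈ act1 a b l, D c := by
  induction l with
  | nil =>
    refine ⟨?_, fun c hc => absurd hc (by simp [act1])⟩
    show y a b * 1 * (y a b)⁻¹ = 1
    group
  | cons c l ih =>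
    obtain ⟨e, he⟩ := ih (fun c hc => hl c (List.mem_cons_of_mem _ hc))
    have hc : D c := hl c List.mem_cons_self
    have e1 : act1 a b (c :: l) = (if (c.testBit b && !c.testBit a) = true then [c + 2 ^ (a : ℕ) - 2 ^ (b : ℕ), c] else [c]) ++ act1 a b l := by
      rw [act1, List.flatMap_cons]
      rfl
    have e2 : y a b * ((c :: l).map ξ).prod * (y a b)⁻¹ =
        (y a b * ξ c * (y a b)⁻¹) * (y a b * (l.map ξ).prod * (y a b)⁻¹) := by
      rw [List.map_cons, List.prod_cons]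
      group
    rw [e2, e, hy c hc a b hab, e1]
    by_cases hq : (c.testBit b && !c.testBit a) = true
    · rw [if_pos hq, if_pos hq]
      refine ⟨by simp [mul_assoc], ?_⟩
      intro d hd
      rw [List.mem_append, List.mem_cons, List.mem_singleton] at hd
      rcases hd with (rfl | rfl) | hd
      · exact hD c hc a b hab hq
      · exact hc
      · exact he d hd
    · rw [if_neg hq, if_neg hq]
      refine ⟨by simp, ?_⟩
      intro d hd
      rw [List.mem_append, List.mem_singleton] at hd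
      rcases hd with rfl | hd
      · exact hc
      · exact he d hd

/-- MODULE ic. Induction over the word, and for one letter over the list `l`: conjugation is multiplicative. -/
theorem conj_word {q : ℕ} {y : Fin q → Fin q → G} {ξ : ℕ → G} {D : ℕ → Prop}
    (hD : ∀ c, D c → ∀ a b : Fin q, a ≠ b → (c.testBit b && !c.testBit a) = true → D (c + 2 ^ (a : ℕ) - 2 ^ (b : ℕ)))
    (hy : ∀ c, D c → ∀ a b : Fin q, a ≠ b → y a b * ξ c * (y a b)⁻¹ =
      if (c.testBit b && !c.testBit a) = true then ξ (c + 2 ^ (a : ℕ) - 2 ^ (b : ℕ)) * ξ c else ξ c)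
    (w : List (Fin q × Fin q)) (hw : ∀ p ∈ w, p.1 ≠ p.2) (l : List ℕ) (hl : ∀ c ∈ l, D c) :
    (w.map fun p => y p.1 p.2).prod * (l.map ξ).prod * ((w.map fun p => y p.1 p.2).prod)⁻¹ = ((actw w l).map ξ).prod ∧
      ∀ c ∈ actw w l, D c := by
  induction w with
  | nil =>
    refine ⟨?_, hl⟩
    show (1 : G) * (l.map ξ).prod * 1⁻¹ = (l.map ξ).prod
    group
  | cons p w ih =>
    obtain ⟨e, he⟩ := ih (fun p hp => hw p (List.mem_cons_of_mem _ hp))
    obtain ⟨e1, he1⟩ := ic_one hD hy (hw p List.mem_cons_self) (actw w l) he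
    refine ⟨?_, he1⟩
    show _ = ((act1 p.1 p.2 (actw w l)).map ξ).prod
    rw [← e1, ← e, List.map_cons, List.prod_cons]
    group

/-- MODULE id. In the elementary abelian quotient of `Uk.quo` the product of `ξ c` over a list in which every number occurs an even number of times is `1` (induction on the length: remove two equal entries; or
`List.prod` in a commutative group as a product over the distinct elements of powers `ξ c ^ count c`, `Finset.prod_list_count`). -/
theorem parity {x : Root (4 + m) → G} (h : Stb (4 + m) x) {k : ℕ} (hk : 1 ≤ k) {ξ : ℕ → G} {l : List ℕ}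
    (hl : ∀ c ∈ l, ξ c ∈ Uk x k) (hp : ∀ c ∈ l, l.count c % 2 = 0) : (l.map ξ).prod ∈ Uk x (k + 1) := by
  classical
  obtain ⟨A, _, π, hπ, hπ2⟩ := Uk.quo.{_, 0} h hk
  let ζ : ℕ → Uk x k := fun c => if h : ξ c ∈ Uk x k then ⟨ξ c, h⟩ else 1
  have e : (l.map ξ).prod = (((l.map ζ).prod : Uk x k) : G) := by
    rw [SubmonoidClass.coe_list_prod, List.map_map]
    congr 1
    refine List.map_congr_left ?_
    intro c hc
    show ξ c = ((ζ c : Uk x k) : G)
    rw [show ζ c = ⟨ξ c, hl c hc⟩ from dif_pos (hl c hc)]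
  rw [e, ← hπ, map_list_prod, List.map_map, Finset.prod_list_map_count]
  refine Finset.prod_eq_one ?_
  intro c hc
  have h1 := hp c (List.mem_toFinset.1 hc)
  obtain ⟨q, hq⟩ := Nat.dvd_of_mod_eq_zero h1
  rw [hq, pow_mul, pow_two, Function.comp_apply, hπ2, one_pow]

/-- MODULE id. With `y0 = ∏_{c ∈ Y} ξ c`: by `conj_word` `W y0 W⁻¹` is the product over `actw w Y`; `y0 ξ(c) (W y0 W⁻¹) ∈ Uk (k + 1)` by `parity`, and `y0 y0 ∈ Uk (k + 1)` (`Uk.sq`). -/
theorem sec_sur {x : Root (4 + m) → G} (h : Stb (4 + m) x) {k : ℕ} (hk : 1 ≤ k) {q : ℕ} {y : Fin q → Fin q → G} {ξ : ℕ → G}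
    {D : ℕ → Prop}
    (hD : ∀ c, D c → ∀ a b : Fin q, a ≠ b → (c.testBit b && !c.testBit a) = true → D (c + 2 ^ (a : ℕ) - 2 ^ (b : ℕ)))
    (hy : ∀ c, D c → ∀ a b : Fin q, a ≠ b → y a b * ξ c * (y a b)⁻¹ =
      if (c.testBit b && !c.testBit a) = true then ξ (c + 2 ^ (a : ℕ) - 2 ^ (b : ℕ)) * ξ c else ξ c)
    (hU : ∀ c, D c → ξ c ∈ Uk x k)
    {w : List (Fin q × Fin q)} (hw : ∀ p ∈ w, p.1 ≠ p.2) {c : ℕ} (hc : D c) {Y : List ℕ} (hY : ∀ e ∈ Y, D e)
    (hp : ∀ e ∈ Y ++ c :: actw w Y, (Y ++ c :: actw w Y).count e % 2 = 0) :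
    (Y.map ξ).prod ∈ Uk x k ∧ ((Y.map ξ).prod)⁻¹ * ξ c *
      ((w.map fun p => y p.1 p.2).prod * (Y.map ξ).prod * ((w.map fun p => y p.1 p.2).prod)⁻¹) ∈ Uk x (k + 1) := by
  have hm0 : ∀ l : List ℕ, (∀ e ∈ l, D e) → (l.map ξ).prod ∈ Uk x k := by
    intro l hl
    refine list_prod_mem ?_
    intro g hg
    obtain ⟨e, he, rfl⟩ := List.mem_map.1 hg
    exact hU e (hl e he)
  refine ⟨hm0 Y hY, ?_⟩
  obtain ⟨e, he⟩ := conj_word hD hy w hw Y hY
  have h1 : ∀ e ∈ Y ++ c :: actw w Y, ξ e ∈ Uk x k := by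
    intro e he'
    rw [List.mem_append, List.mem_cons] at he'
    rcases he' with h2 | rfl | h2
    · exact hU e (hY e h2)
    · exact hU _ hc
    · exact hU e (he e h2)
  have h2 := parity h hk h1 hp
  rw [List.map_append, List.prod_append, List.map_cons, List.prod_cons, ← e] at h2
  have h3 := inv_mem (Uk.sq h hk (hm0 Y hY))
  have h4 := mul_mem h3 h2
  convert h4 using 1
  group

/-- the number of elements of the subset of `{0, …, 4}` coded by `c` -/
def pc (c : ℕ) : ℕ := (c.testBit 0).toNat + (c.testBit 1).toNat + (c.testBit 2).toNat + (c.testBit 3).toNat + (c.testBit 4).toNat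

/-- the solutions `Y` of `(1 - w) Y = e_c` (found by computer) -/
def tabY5 : List (List ℕ) := [[], [2], [2, 4], [5, 24], [4, 8], [6], [6, 9, 10, 17], [7, 11, 28], [8, 16], [9, 17], [9, 12, 17], [11, 19],
  [3, 12, 20], [14], [13, 21, 22, 25], [15, 23], [1], [9, 10, 12, 17, 18], [3, 9, 10, 12, 17, 18], [13, 14, 21], [3, 24], [13, 14, 21, 25],
  [7, 13, 14, 21, 25], [27], [5, 6, 9], [7, 26], [7, 26, 28], [29], [11, 13, 19, 28], [30], [15, 30], []]

theorem tabY5_ok : ∀ c ∈ List.range' 1 30, (∀ e ∈ tabY5.getD c [], e < 32 ∧ pc e = pc c) ∧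
    ∀ e ∈ tabY5.getD c [] ++ c :: actw W5 (tabY5.getD c []),
      (tabY5.getD c [] ++ c :: actw W5 (tabY5.getD c [])).count e % 2 = 0 := by
  decide +kernel

/-- the solutions `Y` of `(1 - t) Y = e_c` in the natural module of `GL_4(2)`, `c = 1, 2, 4, 8` -/
def tabY4 : List (List ℕ) := [[], [2], [2, 4], [], [4, 8], [], [], [], [1]]

theorem tabY4_ok : ∀ c ∈ [1, 2, 4, 8], (∀ e ∈ tabY4.getD c [], e ∈ [1, 2, 4, 8]) ∧
    ∀ e ∈ tabY4.getD c [] ++ c :: actw W4 (tabY4.getD c []),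
      (tabY4.getD c [] ++ c :: actw W4 (tabY4.getD c [])).count e % 2 = 0 := by
  decide +kernel

end ThE
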