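import Pool.Agent.ThE.Bir

/-! # The Levi subgroup and the filtration of the unipotent radical -/

namespace ThE

variable {m : ℕ} {G : Type*} [Group G]

/-- the Levi subgroup -/
def Lv (x : Root (4 + m) → G) : Subgroup G := Sg x (fun r => lam r.1 = 0)

/-- the filtration of the unipotent radical (`k ≥ 1`) -/
def Uk (x : Root (4 + m) → G) (k : ℕ) : Subgroup G := Sg x (fun r => (k : ℤ) ≤ lam r.1)

theorem Uk.anti (x : Root (4 + m) → G) {j k : ℕ} (h : j ≤ k) : Uk x k ≤ Uk x j := by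
  unfold Uk
  exact Sg.mono x fun r hr => le_trans (by exact_mod_cast h) hr

theorem Uk.conj_root {x : Root (4 + m) → G} (h : Stb (4 + m) x) {k : ℕ} (hk : 1 ≤ k) {s : Root (4 + m)} (hs : 0 ≤ lam s.1)
    {g : G} (hg : g ∈ Uk x k) : x s * g * (x s)⁻¹ ∈ Uk x k := by
  have hk' : (1 : ℤ) ≤ (k : ℤ) := by exact_mod_cast hk
  unfold Uk at hg ⊢
  refine Sg.conj h (fun s' hs' he => ?_) (fun s' t hs' ht => ?_) hg
  · rw [he, neg_val, lam_neg] at hs'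
    linarith
  · rw [ht, lam_add]
    linarith

/-- helper -/
theorem Uk.aux_conj {H : Subgroup G} {S : Set G} (h1 : ∀ a ∈ S, a * a = 1) (h2 : ∀ a ∈ S, ∀ g ∈ H, a * g * a⁻¹ ∈ H)
    {l : G} (hl : l ∈ Subgroup.closure S) : ∀ g ∈ H, l * g * l⁻¹ ∈ H ∧ l⁻¹ * g * l ∈ H := by
  induction hl using Subgroup.closure_induction with
  | mem a ha =>
    intro g hg
    have h3 := h2 a ha g hg
    have h4 : a⁻¹ = a := inv_eq_of_mul_eq_one_left (h1 a ha)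
    refine ⟨h3, ?_⟩
    rw [h4] at h3 ⊢
    exact h3
  | one =>
    intro g hg
    simpa using hg
  | mul a b _ _ iha ihb =>
    intro g hg
    constructor
    · have := (iha _ (ihb g hg).1).1
      have e : a * b * g * (a * b)⁻¹ = a * (b * g * b⁻¹) * a⁻¹ := by group
      rw [e]
      exact this
    · have := (ihb _ (iha g hg).2).2
      have e : (a * b)⁻¹ * g * (a * b) = b⁻¹ * (a⁻¹ * g * a) * b := by group
      rw [e]
      exact this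
  | inv a _ iha =>
    intro g hg
    rw [inv_inv]
    exact ⟨(iha g hg).2, (iha g hg).1⟩

theorem Uk.conj_Lv {x : Root (4 + m) → G} (h : Stb (4 + m) x) {k : ℕ} (hk : 1 ≤ k) {l g : G} (hl : l ∈ Lv x)
    (hg : g ∈ Uk x k) : l * g * l⁻¹ ∈ Uk x k := by
  refine (Uk.aux_conj (H := Uk x k) ?_ ?_ hl g hg).1
  · rintro _ ⟨r, _, rfl⟩
    exact h.sq r
  · rintro _ ⟨r, hr, rfl⟩ g hg
    exact Uk.conj_root h hk (le_of_eq (Eq.symm hr)) hg

theorem Uk.conj_U {x : Root (4 + m) → G} (h : Stb (4 + m) x) {k : ℕ} (hk : 1 ≤ k) {u g : G} (hu : u ∈ Uk x 1)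
    (hg : g ∈ Uk x k) : u * g * u⁻¹ ∈ Uk x k := by
  refine (Uk.aux_conj (H := Uk x k) ?_ ?_ hu g hg).1
  · rintro _ ⟨r, _, rfl⟩
    exact h.sq r
  · rintro _ ⟨r, hr, rfl⟩ g hg
    have hr' : ((1 : ℕ) : ℤ) ≤ lam r.1 := hr
    refine Uk.conj_root h hk ?_ hg
    have : ((1 : ℕ) : ℤ) = 1 := Nat.cast_one
    linarith

theorem Uk.comm {x : Root (4 + m) → G} (h : Stb (4 + m) x) {k : ℕ} (hk : 1 ≤ k) {u v : G} (hu : u ∈ Uk x 1)
    (hv : v ∈ Uk x k) : u * v * u⁻¹ * v⁻¹ ∈ Uk x (k + 1) := by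
  have key : ∀ s : Root (4 + m), 1 ≤ lam s.1 → ∀ v ∈ Uk x k, x s * v * (x s)⁻¹ * v⁻¹ ∈ Uk x (k + 1) := by
    intro s hs v hv
    unfold Uk Sg at hv
    induction hv using Subgroup.closure_induction with
    | mem a ha =>
      obtain ⟨r, hr, rfl⟩ := ha
      have hr' : (k : ℤ) ≤ lam r.1 := hr
      by_cases ht : ∃ t : Root (4 + m), t.1 = s.1 + r.1
      · obtain ⟨t, ht⟩ := ht
        rw [h.add s r t ht]
        refine Sg.mem ?_
        rw [ht, lam_add]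
        push_cast
        linarith
      · push Not at ht
        rw [h.comm s r ?_ ht]
        · exact Subgroup.one_mem _
        · intro h0
          have h1 : lam (s.1 + r.1) = 0 := by
            rw [h0]
            simp [lam]
          rw [lam_add] at h1
          have : (1 : ℤ) ≤ (k : ℤ) := by exact_mod_cast hk
          linarith
    | one => simp
    | mul a b ha hb iha ihb =>
      have haU : a ∈ Uk x 1 := Uk.anti x hk ha
      have e : x s * (a * b) * (x s)⁻¹ * (a * b)⁻¹ = (x s * a * (x s)⁻¹ * a⁻¹) * (a * (x s * b * (x s)⁻¹ * b⁻¹) * a⁻¹) := by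
        group
      rw [e]
      exact Subgroup.mul_mem _ iha (Uk.conj_U h (by omega) haU ihb)
    | inv a ha iha =>
      have haU : a⁻¹ ∈ Uk x 1 := Subgroup.inv_mem _ (Uk.anti x hk ha)
      have e : x s * a⁻¹ * (x s)⁻¹ * a⁻¹⁻¹ = a⁻¹ * (x s * a * (x s)⁻¹ * a⁻¹)⁻¹ * a⁻¹⁻¹ := by
        group
      rw [e]
      -- `[s, a⁻¹] = a⁻¹ [s, a]⁻¹ a`
      exact Uk.conj_U h (by omega) haU (Subgroup.inv_mem _ iha)
  unfold Uk Sg at hu
  induction hu using Subgroup.closure_induction with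
  | mem a ha =>
    obtain ⟨r, hr, rfl⟩ := ha
    have hr' : ((1 : ℕ) : ℤ) ≤ lam r.1 := hr
    exact key r (by simpa using hr') v hv
  | one => simp
  | mul a b ha hb iha ihb =>
    have e : a * b * v * (a * b)⁻¹ * v⁻¹ = (a * (b * v * b⁻¹ * v⁻¹) * a⁻¹) * (a * v * a⁻¹ * v⁻¹) := by
      group
    rw [e]
    exact Subgroup.mul_mem _ (Uk.conj_U h (by omega) ha ihb) iha
  | inv a ha iha =>
    have e : a⁻¹ * v * a⁻¹⁻¹ * v⁻¹ = a⁻¹ * (a * v * a⁻¹ * v⁻¹)⁻¹ * a⁻¹⁻¹ := by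
      group
    rw [e]
    exact Uk.conj_U h (by omega) (Subgroup.inv_mem _ ha) (Subgroup.inv_mem _ iha)

theorem Uk.sq {x : Root (4 + m) → G} (h : Stb (4 + m) x) {k : ℕ} (hk : 1 ≤ k) {v : G}
    (hv : v ∈ Uk x k) : v * v ∈ Uk x (k + 1) := by
  unfold Uk Sg at hv
  induction hv using Subgroup.closure_induction with
  | mem a ha =>
    obtain ⟨r, hr, rfl⟩ := ha
    rw [h.sq r]
    exact Subgroup.one_mem _
  | one => simp
  | mul a b ha hb iha ihb =>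
    have haU : a ∈ Uk x 1 := Uk.anti x hk ha
    have hbU : b ∈ Uk x 1 := Uk.anti x hk hb
    have e : a * b * (a * b) = (a * a) * (a⁻¹ * b * a⁻¹⁻¹ * b⁻¹) * (b * b) := by
      group
    rw [e]
    exact Subgroup.mul_mem _ (Subgroup.mul_mem _ iha (Uk.comm h hk (Subgroup.inv_mem _ haU) hb)) ihb
  | inv a ha iha =>
    have e : a⁻¹ * a⁻¹ = (a * a)⁻¹ := by group
    rw [e]
    exact Subgroup.inv_mem _ iha

theorem Uk.top (hm : m = 3 ∨ m = 4) {x : Root (4 + m) → G} {k : ℕ} (hk : 6 ≤ k) : Uk x k = ⊥ := by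
  unfold Uk Sg
  rw [Subgroup.closure_eq_bot_iff]
  rintro _ ⟨r, hr, rfl⟩
  exfalso
  have hr' : (k : ℤ) ≤ lam r.1 := hr
  have h1 := lam_le hm r
  have h2 : (6 : ℤ) ≤ (k : ℤ) := by exact_mod_cast hk
  linarith

/-- a countable group in another universe -/
private theorem ed_shrink.{u, w} {H Q : Type u} [Group H] [CommGroup Q] [Countable Q] (f : H →* Q) :
    ∃ (A : Type w) (_ : CommGroup A) (π : H →* A), ∀ v, π v = 1 ↔ f v = 1 := by
  let e : Shrink.{w} Q ≃* Q := Shrink.mulEquiv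
  refine ⟨Shrink.{w} Q, inferInstance, e.symm.toMonoidHom.comp f, ?_⟩
  intro v
  rw [MonoidHom.comp_apply, MulEquiv.coe_toMonoidHom, MulEquiv.map_eq_one_iff]

/-- MODULE ed. The section `Uk k / Uk (k + 1)` as an elementary abelian group: the quotient of `Uk x k` by the normal subgroup `(Uk x (k + 1)).subgroupOf (Uk x k)` (normal by `Uk.conj_U`, commutative by `Uk.comm`,
squares by `Uk.sq`).  (`CommGroup` from a `Group` with a commutative multiplication.) -/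
theorem Uk.quo {x : Root (4 + m) → G} (h : Stb (4 + m) x) {k : ℕ} (hk : 1 ≤ k) :
    ∃ (A : Type _) (_ : CommGroup A) (π : Uk x k →* A), (∀ v, π v = 1 ↔ (v : G) ∈ Uk x (k + 1)) ∧ ∀ v, π v * π v = 1 := by
  have hnor : ((Uk x (k + 1)).subgroupOf (Uk x k)).Normal := by
    constructor
    intro n hn g
    rw [Subgroup.mem_subgroupOf] at hn ⊢
    exact Uk.conj_U h (by omega) (Uk.anti x hk g.2) hn
  have hcm : ∀ a b : Uk x k ⧸ (Uk x (k + 1)).subgroupOf (Uk x k), a * b = b * a := by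
    intro a b
    obtain ⟨a, rfl⟩ := QuotientGroup.mk_surjective a
    obtain ⟨b, rfl⟩ := QuotientGroup.mk_surjective b
    rw [← QuotientGroup.mk_mul, ← QuotientGroup.mk_mul, QuotientGroup.eq, Subgroup.mem_subgroupOf]
    have h1 := Uk.comm h hk (u := ((b⁻¹ : Uk x k) : G)) (v := ((a⁻¹ : Uk x k) : G)) (Uk.anti x hk (b⁻¹).2) (a⁻¹).2
    have e : ((b⁻¹ : Uk x k) : G) * ((a⁻¹ : Uk x k) : G) * ((b⁻¹ : Uk x k) : G)⁻¹ * ((a⁻¹ : Uk x k) : G)⁻¹ =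
        (((a * b)⁻¹ * (b * a) : Uk x k) : G) := by
      push_cast
      group
    rwa [e] at h1
  have hcu : Countable (Uk x k) := by
    have hf : ∀ g : Uk x k, ∃ l : List (Root (4 + m) × Bool),
        (g : G) = (l.map fun p => if p.2 = true then x p.1 else (x p.1)⁻¹).prod := by
      rintro ⟨g, hg⟩
      refine Subgroup.closure_induction (p := fun g _ => ∃ l : List (Root (4 + m) × Bool),
        g = (l.map fun p => if p.2 = true then x p.1 else (x p.1)⁻¹).prod) ?_ ?_ ?_ ?_ hg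
      · rintro g ⟨r, _, rfl⟩
        exact ⟨[(r, true)], by simp⟩
      · exact ⟨[], by simp⟩
      · rintro a b _ _ ⟨l, rfl⟩ ⟨l', rfl⟩
        exact ⟨l ++ l', by simp⟩
      · rintro a _ ⟨l, rfl⟩
        refine ⟨(l.map fun p => (p.1, !p.2)).reverse, ?_⟩
        rw [List.prod_inv_reverse, List.map_reverse, List.map_map, List.map_map]
        congr 3
        funext p
        obtain ⟨r, b⟩ := p
        cases b <;> simp
    choose f hf using hf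
    refine Function.Injective.countable (f := f) ?_
    intro a b hab
    apply Subtype.ext
    rw [hf a, hf b, hab]
  let gq : CommGroup (Uk x k ⧸ (Uk x (k + 1)).subgroupOf (Uk x k)) :=
    { (inferInstance : Group (Uk x k ⧸ (Uk x (k + 1)).subgroupOf (Uk x k))) with mul_comm := hcm }
  have hcq : Countable (Uk x k ⧸ (Uk x (k + 1)).subgroupOf (Uk x k)) :=
    Function.Surjective.countable QuotientGroup.mk_surjective
  obtain ⟨A, iA, π, hπ⟩ := ed_shrink (QuotientGroup.mk' ((Uk x (k + 1)).subgroupOf (Uk x k)))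
  refine ⟨A, iA, π, ?_, ?_⟩
  · intro v
    rw [hπ, QuotientGroup.mk'_apply, QuotientGroup.eq_one_iff, Subgroup.mem_subgroupOf]
  · intro v
    rw [← map_mul, hπ, QuotientGroup.mk'_apply, QuotientGroup.eq_one_iff, Subgroup.mem_subgroupOf]
    exact Uk.sq h hk v.2

/-- MODULE ee. `U⁺ ⊆ L U`: `Up ≤ {l u}`; this set is a subgroup because `L` normalizes `Uk 1` (`Uk.conj_Lv`), and it contains the generators `x r`, `ht r > 0`: `lam r ≥ 0` (`lam_nonneg`). -/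
theorem Up_split (hm : m = 3 ∨ m = 4) {x : Root (4 + m) → G} (h : Stb (4 + m) x) {g : G} (hg : g ∈ Up x) :
    ∃ l ∈ Lv x, ∃ u ∈ Uk x 1, g = l * u := by
  refine Subgroup.closure_induction (p := fun g _ => ∃ l ∈ Lv x, ∃ u ∈ Uk x 1, g = l * u) ?_ ?_ ?_ ?_ hg
  · rintro g ⟨r, hr, rfl⟩
    have h0 := lam_nonneg hm r hr
    rcases h0.lt_or_eq with h1 | h1
    · exact ⟨1, one_mem _, x r, Subgroup.subset_closure ⟨r, by show ((1 : ℕ) : ℤ) ≤ _; push_cast; omega, rfl⟩, by group⟩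
    · exact ⟨x r, Subgroup.subset_closure ⟨r, h1.symm, rfl⟩, 1, one_mem _, by group⟩
  · exact ⟨1, one_mem _, 1, one_mem _, by group⟩
  · rintro a b _ _ ⟨l, hl, u, hu, rfl⟩ ⟨l', hl', u', hu', rfl⟩
    refine ⟨l * l', mul_mem hl hl', l'⁻¹ * u * l'⁻¹⁻¹ * u', mul_mem (Uk.conj_Lv h le_rfl (inv_mem hl') hu) hu', by group⟩
  · rintro a _ ⟨l, hl, u, hu, rfl⟩
    exact ⟨l⁻¹, inv_mem hl, l * u⁻¹ * l⁻¹, Uk.conj_Lv h le_rfl hl (inv_mem hu), by group⟩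

/-- MODULE ee. `Lv` is the same for the relabelled system (`lam_neg`). -/
theorem Lv_neg (x : Root (4 + m) → G) : Lv (fun r => x (-r)) = Lv x := by
  unfold Lv Sg
  congr 1
  ext g
  constructor
  · rintro ⟨r, hr, rfl⟩
    refine ⟨-r, ?_, rfl⟩
    show lam (-r).1 = 0
    have h0 : lam r.1 = 0 := hr
    rw [neg_val, lam_neg, h0, neg_zero]
  · rintro ⟨r, hr, rfl⟩
    refine ⟨-r, ?_, ?_⟩
    · show lam (-r).1 = 0
      have h0 : lam r.1 = 0 := hr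
      rw [neg_val, lam_neg, h0, neg_zero]
    · show x (- -r) = x r
      rw [neg_neg']

/-- MODULE ee. `Um x = Up (fun r => x (-r))` (`ht_neg`), then `Up_split` for the relabelled system: `g = l u = (l u l⁻¹) l` (`Uk.conj_Lv`, `Lv_neg`). -/
theorem Um_split_Lv (hm : m = 3 ∨ m = 4) {x : Root (4 + m) → G} (h : Stb (4 + m) x) {g : G} (hg : g ∈ Um x) :
    ∃ v ∈ Uk (fun r => x (-r)) 1, ∃ l ∈ Lv x, g = v * l := by
  have e : Um x = Up (fun r => x (-r)) := by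
    unfold Um Up Sg
    congr 1
    ext g
    constructor
    · rintro ⟨r, hr, rfl⟩
      refine ⟨-r, ?_, ?_⟩
      · show 0 < ht (-r).1
        have h0 : ht r.1 < 0 := hr
        rw [neg_val, ht_neg]
        omega
      · show x (- -r) = x r
        rw [neg_neg']
    · rintro ⟨r, hr, rfl⟩
      refine ⟨-r, ?_, rfl⟩
      show ht (-r).1 < 0
      have h0 : 0 < ht r.1 := hr
      rw [neg_val, ht_neg]
      omega
  rw [e] at hg
  obtain ⟨l, hl, u, hu, rfl⟩ := Up_split hm h.neg hg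
  refine ⟨l * u * l⁻¹, Uk.conj_Lv h.neg le_rfl hl hu, l, ?_, by group⟩
  rwa [Lv_neg] at hl

/-- `1 - b` is surjective on the section `Uk k / Uk (k + 1)` -/
def Sur (x : Root (4 + m) → G) (b : G) (k : ℕ) : Prop :=
  ∀ v ∈ Uk x k, ∃ y ∈ Uk x k, y⁻¹ * v * (b * y * b⁻¹) ∈ Uk x (k + 1)

/-- MODULE ef. For `v ∈ Uk k` apply `Sur` to `l⁻¹ v l` and conjugate the result with `l` (`Uk.conj_Lv`). -/
theorem Sur.conj {x : Root (4 + m) → G} (h : Stb (4 + m) x) {k : ℕ} (hk : 1 ≤ k) {b l : G} (hl : l ∈ Lv x)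
    (hs : Sur x b k) : Sur x (l * b * l⁻¹) k := by
  intro v hv
  have h1 : l⁻¹ * v * l ∈ Uk x k := by
    have h2 := Uk.conj_Lv h hk (inv_mem hl) hv
    rwa [inv_inv] at h2
  obtain ⟨y, hy, hy2⟩ := hs _ h1
  refine ⟨l * y * l⁻¹, Uk.conj_Lv h hk hl hy, ?_⟩
  have h3 := Uk.conj_Lv h (by omega) hl hy2
  have e : (l * y * l⁻¹)⁻¹ * v * (l * b * l⁻¹ * (l * y * l⁻¹) * (l * b * l⁻¹)⁻¹) =
      l * (y⁻¹ * (l⁻¹ * v * l) * (b * y * b⁻¹)) * l⁻¹ := by group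
  rwa [e]

/-- the equation in the section -/
private theorem ef_key {x : Root (4 + m) → G} (_h : Stb (4 + m) x) {k : ℕ} {A : Type _} [CommGroup A] {π : Uk x k →* A}
    (hπ : ∀ v, π v = 1 ↔ (v : G) ∈ Uk x (k + 1)) (hπ2 : ∀ v, π v * π v = 1) {y v z : G} (hy : y ∈ Uk x k) (hv : v ∈ Uk x k)
    (hz : z ∈ Uk x k) : y⁻¹ * v * z ∈ Uk x (k + 1) ↔ π ⟨v, hv⟩ = π ⟨y, hy⟩ * π ⟨z, hz⟩ := by
  have h1 : y⁻¹ * v * z = (((⟨y, hy⟩ : Uk x k)⁻¹ * ⟨v, hv⟩ * ⟨z, hz⟩ : Uk x k) : G) := rfl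
  rw [h1, ← hπ, map_mul, map_mul, map_inv]
  have hz2 : (π ⟨z, hz⟩)⁻¹ = π ⟨z, hz⟩ := inv_eq_of_mul_eq_one_left (hπ2 _)
  rw [mul_eq_one_iff_eq_inv, hz2, inv_mul_eq_iff_eq_mul]

/-- MODULE ef. In the section, written additively: `v ∈ (1 - b) A` for all `v`, so `b v = (1 - b) y`, `v = (b⁻¹ - 1) y = (1 - b⁻¹) (- y)`; and `- y = y`.  In detail: `Sur` for `v' = b v b⁻¹` gives `y` with
`y⁻¹ v' (b y b⁻¹) ∈ Uk (k + 1)`; conjugate with `b⁻¹` (`Uk.conj_Lv`): `(b⁻¹ y b)⁻¹ v y ∈ Uk (k + 1)`; modulo `Uk (k + 1)` everything commutes and squares are trivial (`Uk.quo`), so `y⁻¹ v (b⁻¹ y b) ∈ Uk (k + 1)`. -/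
theorem Sur.inv {x : Root (4 + m) → G} (h : Stb (4 + m) x) {k : ℕ} (hk : 1 ≤ k) {b : G} (hb : b ∈ Lv x)
    (hs : Sur x b k) : Sur x b⁻¹ k := by
  obtain ⟨A, _, π, hπ, hπ2⟩ := Uk.quo.{_, 0} h hk
  intro v hv
  obtain ⟨y, hy, hy2⟩ := hs _ (Uk.conj_Lv h hk hb hv)
  have hby : b⁻¹ * y * b ∈ Uk x k := by
    have h2 := Uk.conj_Lv h hk (inv_mem hb) hy
    rwa [inv_inv] at h2
  have h3 := Uk.conj_Lv h (by omega) (inv_mem hb) hy2
  have e : b⁻¹ * (y⁻¹ * (b * v * b⁻¹) * (b * y * b⁻¹)) * b⁻¹⁻¹ = (b⁻¹ * y * b)⁻¹ * v * y := by group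
  rw [e] at h3
  refine ⟨y, hy, ?_⟩
  have h4 := (ef_key h hπ hπ2 hby hv hy).1 h3
  rw [inv_inv]
  refine (ef_key h hπ hπ2 hy hv hby).2 ?_
  rw [h4, mul_comm]

/-- MODULE eg. `1 - b ^ N = (1 - b) (1 + b + … + b ^ (N - 1))`: if `y'` belongs to `v` and `b ^ N`, take `y = ∏_{i < N} b ^ i y' b ^ (-i)`.  (Work in the quotient of `Uk.quo`, or prove by induction on `N` that for every `y'`
there is a `y` with `(1 - b ^ N) y' = (1 - b) y`: `(1 - b ^ (N + 1)) y' = (1 - b ^ N) y' + (1 - b) (b ^ N y')`.) -/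
theorem Sur.of_pow {x : Root (4 + m) → G} (h : Stb (4 + m) x) {k : ℕ} (hk : 1 ≤ k) {b : G} (hb : b ∈ Lv x) (N : ℕ)
    (hs : Sur x (b ^ N) k) : Sur x b k := by
  obtain ⟨A, _, π, hπ, hπ2⟩ := Uk.quo.{_, 0} h hk
  have key : ∀ (N : ℕ) (y : G) (hy : y ∈ Uk x k), ∃ (z : G) (hz : z ∈ Uk x k),
      π ⟨y, hy⟩ * π ⟨b ^ N * y * (b ^ N)⁻¹, Uk.conj_Lv h hk (pow_mem hb N) hy⟩ =
        π ⟨z, hz⟩ * π ⟨b * z * b⁻¹, Uk.conj_Lv h hk hb hz⟩ := by
    intro N y hy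
    induction N with
    | zero =>
      refine ⟨1, one_mem _, ?_⟩
      have e1 : (⟨b ^ 0 * y * (b ^ 0)⁻¹, Uk.conj_Lv h hk (pow_mem hb 0) hy⟩ : Uk x k) = ⟨y, hy⟩ := by
        apply Subtype.ext
        show b ^ 0 * y * (b ^ 0)⁻¹ = y
        group
      have e2 : (⟨b * 1 * b⁻¹, Uk.conj_Lv h hk hb (one_mem _)⟩ : Uk x k) = 1 := by
        apply Subtype.ext
        show b * 1 * b⁻¹ = 1
        group
      have e3 : (⟨1, one_mem _⟩ : Uk x k) = 1 := rfl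
      rw [e1, e2, e3, hπ2, map_one, one_mul]
    | succ N ih =>
      obtain ⟨z, hz, e⟩ := ih
      have hw := Uk.conj_Lv h hk (pow_mem hb N) hy
      refine ⟨z * (b ^ N * y * (b ^ N)⁻¹), mul_mem hz hw, ?_⟩
      have e1 : (⟨z * (b ^ N * y * (b ^ N)⁻¹), mul_mem hz hw⟩ : Uk x k) = ⟨z, hz⟩ * ⟨b ^ N * y * (b ^ N)⁻¹, hw⟩ := rfl
      have e2 : (⟨b * (z * (b ^ N * y * (b ^ N)⁻¹)) * b⁻¹, Uk.conj_Lv h hk hb (mul_mem hz hw)⟩ : Uk x k) =
          ⟨b * z * b⁻¹, Uk.conj_Lv h hk hb hz⟩ * ⟨b ^ (N + 1) * y * (b ^ (N + 1))⁻¹, Uk.conj_Lv h hk (pow_mem hb (N + 1)) hy⟩ := by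
        apply Subtype.ext
        show b * (z * (b ^ N * y * (b ^ N)⁻¹)) * b⁻¹ = b * z * b⁻¹ * (b ^ (N + 1) * y * (b ^ (N + 1))⁻¹)
        rw [pow_succ']
        group
      rw [e1, e2, map_mul, map_mul, mul_mul_mul_comm, ← e]
      have hW := hπ2 ⟨b ^ N * y * (b ^ N)⁻¹, hw⟩
      calc π ⟨y, hy⟩ * π ⟨b ^ (N + 1) * y * (b ^ (N + 1))⁻¹, Uk.conj_Lv h hk (pow_mem hb (N + 1)) hy⟩ =
          π ⟨y, hy⟩ * (π ⟨b ^ N * y * (b ^ N)⁻¹, hw⟩ * π ⟨b ^ N * y * (b ^ N)⁻¹, hw⟩) *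
            π ⟨b ^ (N + 1) * y * (b ^ (N + 1))⁻¹, Uk.conj_Lv h hk (pow_mem hb (N + 1)) hy⟩ := by rw [hW, mul_one]
        _ = _ := by simp only [mul_assoc]
  intro v hv
  obtain ⟨y, hy, hy2⟩ := hs v hv
  obtain ⟨z, hz, e⟩ := key N y hy
  refine ⟨z, hz, (ef_key h hπ hπ2 hz hv (Uk.conj_Lv h hk hb hz)).2 ?_⟩
  rw [← e]
  exact (ef_key h hπ hπ2 hy hv (Uk.conj_Lv h hk (pow_mem hb N) hy)).1 hy2

/-- MODULE eh. It is enough to consider the generators: the set of the `v ∈ Uk k` for which there is such a `y` is closed under products and inverses (`Uk.quo`: `v ↦ y` is additive modulo `Uk (k + 1)`), and for `x r`, `lam r ≥ k + 1`, `y = 1`. -/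
theorem Sur.of_gen {x : Root (4 + m) → G} (h : Stb (4 + m) x) {k : ℕ} (hk : 1 ≤ k) {b : G} (hb : b ∈ Lv x)
    (hs : ∀ r : Root (4 + m), lam r.1 = k → ∃ y ∈ Uk x k, y⁻¹ * x r * (b * y * b⁻¹) ∈ Uk x (k + 1)) : Sur x b k := by
  obtain ⟨A, _, π, hπ, hπ2⟩ := Uk.quo.{_, 0} h hk
  intro v hv
  have key : ∃ y ∈ Uk x k, y⁻¹ * v * (b * y * b⁻¹) ∈ Uk x (k + 1) := by
    refine (Subgroup.closure_induction (p := fun v _ => v ∈ Uk x k ∧ ∃ y ∈ Uk x k, y⁻¹ * v * (b * y * b⁻¹) ∈ Uk x (k + 1))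
      ?_ ?_ ?_ ?_ hv).2
    · rintro g ⟨r, hr, rfl⟩
      have hr' : (k : ℤ) ≤ lam r.1 := hr
      refine ⟨Subgroup.subset_closure ⟨r, hr, rfl⟩, ?_⟩
      rcases hr'.lt_or_eq with h1 | h1
      · refine ⟨1, one_mem _, ?_⟩
        have e : (1 : G)⁻¹ * x r * (b * 1 * b⁻¹) = x r := by group
        rw [e]
        exact Subgroup.subset_closure ⟨r, by show ((k + 1 : ℕ) : ℤ) ≤ _; push_cast; omega, rfl⟩
      · exact hs r h1.symm
    · refine ⟨one_mem _, 1, one_mem _, ?_⟩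
      have e : (1 : G)⁻¹ * 1 * (b * 1 * b⁻¹) = 1 := by group
      rw [e]
      exact one_mem _
    · rintro v w _ _ ⟨hv, y, hy, h1⟩ ⟨hw, z, hz, h2⟩
      refine ⟨mul_mem hv hw, y * z, mul_mem hy hz, ?_⟩
      have hby := Uk.conj_Lv h hk hb hy
      have hbz := Uk.conj_Lv h hk hb hz
      have h3 := (ef_key h hπ hπ2 hy hv hby).1 h1
      have h4 := (ef_key h hπ hπ2 hz hw hbz).1 h2
      have hbyz : b * (y * z) * b⁻¹ ∈ Uk x k := Uk.conj_Lv h hk hb (mul_mem hy hz)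
      refine (ef_key h hπ hπ2 (mul_mem hy hz) (mul_mem hv hw) hbyz).2 ?_
      have e1 : (⟨b * (y * z) * b⁻¹, hbyz⟩ : Uk x k) = ⟨b * y * b⁻¹, hby⟩ * ⟨b * z * b⁻¹, hbz⟩ := by
        apply Subtype.ext
        show b * (y * z) * b⁻¹ = b * y * b⁻¹ * (b * z * b⁻¹)
        group
      have e2 : (⟨y * z, mul_mem hy hz⟩ : Uk x k) = ⟨y, hy⟩ * ⟨z, hz⟩ := rfl
      have e3 : (⟨v * w, mul_mem hv hw⟩ : Uk x k) = ⟨v, hv⟩ * ⟨w, hw⟩ := rfl
      rw [e1, e2, e3, map_mul, map_mul, map_mul, h3, h4, mul_mul_mul_comm]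
    · rintro v _ ⟨hv, y, hy, h1⟩
      refine ⟨inv_mem hv, y⁻¹, inv_mem hy, ?_⟩
      have hby := Uk.conj_Lv h hk hb hy
      have h3 := (ef_key h hπ hπ2 hy hv hby).1 h1
      have hbyi : b * y⁻¹ * b⁻¹ ∈ Uk x k := Uk.conj_Lv h hk hb (inv_mem hy)
      refine (ef_key h hπ hπ2 (inv_mem hy) (inv_mem hv) hbyi).2 ?_
      have e1 : (⟨b * y⁻¹ * b⁻¹, hbyi⟩ : Uk x k) = (⟨b * y * b⁻¹, hby⟩ : Uk x k)⁻¹ := by
        apply Subtype.ext
        show b * y⁻¹ * b⁻¹ = (b * y * b⁻¹)⁻¹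
        group
      have e2 : (⟨y⁻¹, inv_mem hy⟩ : Uk x k) = (⟨y, hy⟩ : Uk x k)⁻¹ := rfl
      have e3 : (⟨v⁻¹, inv_mem hv⟩ : Uk x k) = (⟨v, hv⟩ : Uk x k)⁻¹ := rfl
      rw [e1, e2, e3, map_inv, map_inv, map_inv, h3, mul_inv]
  exact key

/-- MODULE ei. Descending induction on `k` (`Uk 6 = 1`): for `k ≥ 1` and `v ∈ Uk k` there is `y` with `y⁻¹ (v b) y = b`.  Take `y` from `Sur`, `y⁻¹ (v b) y = (y⁻¹ v (b y b⁻¹)) b` and the first factor is in `Uk (k + 1)`. -/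
theorem conj_left (hm : m = 3 ∨ m = 4) {x : Root (4 + m) → G} {b : G} (hs : ∀ k, 1 ≤ k → Sur x b k)
    {v : G} (hv : v ∈ Uk x 1) : ∃ y : G, y⁻¹ * (v * b) * y = b := by
  have key : ∀ n k : ℕ, 1 ≤ k → 6 ≤ k + n → ∀ v ∈ Uk x k, ∃ y : G, y⁻¹ * (v * b) * y = b := by
    intro n
    induction n with
    | zero =>
      intro k _ hk6 v hv
      rw [Uk.top hm (by omega : 6 ≤ k), Subgroup.mem_bot] at hv
      exact ⟨1, by rw [hv]; group⟩
    | succ n ih =>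
      intro k hk hk6 v hv
      obtain ⟨y, _, hy2⟩ := hs k hk v hv
      obtain ⟨z, hz⟩ := ih (k + 1) (by omega) (by omega) _ hy2
      refine ⟨y * z, ?_⟩
      have e : (y * z)⁻¹ * (v * b) * (y * z) = z⁻¹ * (y⁻¹ * v * (b * y * b⁻¹) * b) * z := by group
      rw [e, hz]
  exact key 5 1 le_rfl (by omega) v hv

/-- MODULE ei. `b v = (b v b⁻¹) b` and `conj_left` (`Uk.conj_Lv`). -/
theorem conj_right (hm : m = 3 ∨ m = 4) {x : Root (4 + m) → G} (h : Stb (4 + m) x) {b : G} (hb : b ∈ Lv x)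
    (hs : ∀ k, 1 ≤ k → Sur x b k) {v : G} (hv : v ∈ Uk x 1) : ∃ y : G, y⁻¹ * (b * v) * y = b := by
  obtain ⟨y, hy⟩ := conj_left hm hs (Uk.conj_Lv h le_rfl hb hv)
  refine ⟨y, ?_⟩
  have e : b * v = b * v * b⁻¹ * b := by group
  rw [e, hy]

end ThE
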