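import Pool.Agent.ThE.Orb

/-! # An element inverting all the roots, and the main theorem -/

namespace ThE

variable {n m : ℕ} {G : Type*} [Group G]

/-- helper of `act_orth` -/
theorem bf_sum_orth (w : List (Root n)) (r s : Root n) (hw : ∀ t ∈ w, bf r.1 t.1 = 0) :
    bf r.1 (w.map fun t => sv (bf t.1 s.1) t.1).sum = 0 := by
  induction w with
  | nil => simp [bf]
  | cons t w ih =>
    rw [List.map_cons, List.sum_cons, bf_add_right, bf_sv_right, hw t (by simp), mul_zero, zero_add]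
    exact ih fun t' ht' => hw t' (by simp [ht'])

theorem act_orth (w : List (Root n)) (hw : w.Pairwise fun r t => bf r.1 t.1 = 0) (s : Root n) :
    (act w s).1 = s.1 - (w.map fun r => sv (bf r.1 s.1) r.1).sum := by
  induction w with
  | nil => simp [act]
  | cons r w ih =>
    rw [List.pairwise_cons] at hw
    have e : act (r :: w) s = rf r (act w s) := rfl
    have h1 : bf r.1 (act w s).1 = bf r.1 s.1 := by
      rw [ih hw.2, bf_sub_right, bf_sum_orth w r s hw.1, sub_zero]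
    rw [e, rf_val, h1, ih hw.2, List.map_cons, List.sum_cons, sub_sub, add_comm (List.sum _)]

/-- the list for `m = 3` -/
def ng3 : List (Root 7) := [
  ⟨(0, ![1, -1, 0, 0, 0, 0, 0]), by decide⟩,
  ⟨(0, ![0, 0, 1, -1, 0, 0, 0]), by decide⟩,
  ⟨(0, ![0, 0, 0, 0, 1, -1, 0]), by decide⟩,
  ⟨(1, ![1, 1, 0, 0, 0, 0, 1]), by decide⟩,
  ⟨(1, ![0, 0, 1, 1, 0, 0, 1]), by decide⟩,
  ⟨(1, ![0, 0, 0, 0, 1, 1, 1]), by decide⟩,
  ⟨(2, ![1, 1, 1, 1, 1, 1, 0]), by decide⟩]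

/-- the list for `m = 4` -/
def ng4 : List (Root 8) := [
  ⟨(0, ![1, -1, 0, 0, 0, 0, 0, 0]), by decide⟩,
  ⟨(0, ![0, 0, 1, -1, 0, 0, 0, 0]), by decide⟩,
  ⟨(0, ![0, 0, 0, 0, 1, -1, 0, 0]), by decide⟩,
  ⟨(0, ![0, 0, 0, 0, 0, 0, 1, -1]), by decide⟩,
  ⟨(2, ![1, 1, 1, 1, 1, 1, 0, 0]), by decide⟩,
  ⟨(2, ![1, 1, 1, 1, 0, 0, 1, 1]), by decide⟩,
  ⟨(2, ![1, 1, 0, 0, 1, 1, 1, 1]), by decide⟩,
  ⟨(2, ![0, 0, 1, 1, 1, 1, 1, 1]), by decide⟩]

theorem exists_neg (hm : m = 3 ∨ m = 4) : ∃ w : List (Root (4 + m)), ∀ s : Root (4 + m), act w s = -s := by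
  rcases hm with rfl | rfl
  · refine ⟨ng3, fun s => Subtype.ext ?_⟩
    have hp : ng3.Pairwise fun r t => bf r.1 t.1 = 0 := by decide
    have h1 := s.2.1
    have e : (act ng3 s).1 = _ := act_orth ng3 hp s
    refine e.trans ?_
    rw [neg_val]
    generalize s.1 = v at h1 ⊢
    obtain ⟨d, f⟩ := v
    simp only [Fin.sum_univ_succ, Fin.sum_univ_zero] at h1
    refine Prod.ext ?_ (funext fun i => ?_)
    · simp [ng3, bf, sv, Fin.sum_univ_succ] at h1 ⊢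
      ring_nf at h1 ⊢
      linarith
    · fin_cases i
      all_goals
        simp [ng3, bf, sv, Fin.sum_univ_succ] at h1 ⊢
        ring_nf at h1 ⊢
        linarith
  · refine ⟨ng4, fun s => Subtype.ext ?_⟩
    have hp : ng4.Pairwise fun r t => bf r.1 t.1 = 0 := by decide
    have h1 := s.2.1
    have e : (act ng4 s).1 = _ := act_orth ng4 hp s
    refine e.trans ?_
    rw [neg_val]
    generalize s.1 = v at h1 ⊢
    obtain ⟨d, f⟩ := v
    simp only [Fin.sum_univ_succ, Fin.sum_univ_zero] at h1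
    refine Prod.ext ?_ (funext fun i => ?_)
    · simp [ng4, bf, sv, Fin.sum_univ_succ] at h1 ⊢
      ring_nf at h1 ⊢
      linarith
    · fin_cases i
      all_goals
        simp [ng4, bf, sv, Fin.sum_univ_succ] at h1 ⊢
        ring_nf at h1 ⊢
        linarith

theorem exists_z (hm : m = 3 ∨ m = 4) {x : Root (4 + m) → G} (h : Stb (4 + m) x) :
    ∃ z : G, ∀ r, z * x r * z⁻¹ = x (-r) := by
  obtain ⟨w, hw⟩ := exists_neg hm
  exact ⟨nw x w, fun r => by rw [nw_conj hm h, hw]⟩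

theorem z_phi {x : Root (4 + m) → G} {f : GL2 5 →* G} {g : GL2 m →* G} (hf : Phi x f g) {z : G}
    (hz : ∀ r, z * x r * z⁻¹ = x (-r)) (M : GL2 5) (N : GL2 m) :
    z * f M * z⁻¹ = f (itr 5 M) ∧ z * g N * z⁻¹ = g (itr m N) := by
  constructor
  · have h1 : (MulAut.conj z).toMonoidHom.comp f = f.comp (itr 5) := by
      refine hom_ext fun i j hij => ?_
      show z * f (tv i j) * z⁻¹ = f (itr 5 (tv i j))
      rw [itr_tv, hf.A i j hij, hf.A j i hij.symm, yA, yA, dif_pos hij, dif_pos hij.symm, hz]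
      congr 1
      exact Subtype.ext (neg_vA i j)
    exact DFunLike.congr_fun h1 M
  · have h1 : (MulAut.conj z).toMonoidHom.comp g = g.comp (itr m) := by
      refine hom_ext fun i j hij => ?_
      show z * g (tv i j) * z⁻¹ = g (itr m (tv i j))
      rw [itr_tv, hf.B i j hij, hf.B j i hij.symm, yB, yB, dif_pos hij, dif_pos hij.symm, hz]
      congr 1
      exact Subtype.ext (neg_vB i j)
    exact DFunLike.congr_fun h1 N

/-- conjugation in the Levi subgroup -/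
theorem Phi.cj (hm : m = 3 ∨ m = 4) {x : Root (4 + m) → G} (h : Stb (4 + m) x) {f : GL2 5 →* G} {g : GL2 m →* G}
    (hf : Phi x f g) (P A : GL2 5) (Q B : GL2 m) :
    (f P * g Q) * (f A * g B) * (f P * g Q)⁻¹ = f (P * A * P⁻¹) * g (Q * B * Q⁻¹) := by
  have c1 : g Q * f A = f A * g Q := (Phi.comm hm h hf A Q).symm
  have c2 : g (Q * B * Q⁻¹) * f P⁻¹ = f P⁻¹ * g (Q * B * Q⁻¹) := (Phi.comm hm h hf P⁻¹ _).symm
  calc (f P * g Q) * (f A * g B) * (f P * g Q)⁻¹ = f P * (g Q * f A) * g B * (g Q)⁻¹ * (f P)⁻¹ := by group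
    _ = f P * f A * (g Q * g B * (g Q)⁻¹ * (f P)⁻¹) := by rw [c1]; group
    _ = f P * f A * (g (Q * B * Q⁻¹) * f P⁻¹) := by simp only [map_mul, map_inv]
    _ = f (P * A * P⁻¹) * g (Q * B * Q⁻¹) := by rw [c2]; simp only [map_mul, map_inv]; group

/-- helper -/
theorem cj_aux {H : Type*} [Group H] (p r w : H) : p * r⁻¹ * (r * w * r⁻¹) * (p * r⁻¹)⁻¹ = p * w * p⁻¹ := by
  group

theorem adm_conj (hm : m = 3 ∨ m = 4) {x : Root (4 + m) → G} (h : Stb (4 + m) x) {f : GL2 5 →* G} {g : GL2 m →* G}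
    (hf : Phi x f g) {M : GL2 5} {N : GL2 m} (ha : Adm m M N) :
    ∃ c : G, c * (f (wd W5) * g (wd (Wt m))) * c⁻¹ = f M * g N := by
  obtain ⟨⟨P, hP⟩, Q, hQ⟩ := ha
  rcases hP with hP | hP
  · exact ⟨f P * g Q, by rw [Phi.cj hm h hf, hP, hQ]⟩
  · obtain ⟨z, hz⟩ := exists_z hm h
    obtain ⟨R, hR⟩ := itr_W5
    obtain ⟨R', hR'⟩ := itr_Wt hm
    obtain ⟨e1, e2⟩ := z_phi hf hz (wd W5) (wd (Wt m))
    refine ⟨f (P * R⁻¹) * g (Q * R'⁻¹) * z, ?_⟩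
    have e3 : z * (f (wd W5) * g (wd (Wt m))) * z⁻¹ = f (itr 5 (wd W5)) * g (itr m (wd (Wt m))) := by
      rw [← e1, ← e2]
      group
    calc f (P * R⁻¹) * g (Q * R'⁻¹) * z * (f (wd W5) * g (wd (Wt m))) * (f (P * R⁻¹) * g (Q * R'⁻¹) * z)⁻¹
        = (f (P * R⁻¹) * g (Q * R'⁻¹)) * (z * (f (wd W5) * g (wd (Wt m))) * z⁻¹) * (f (P * R⁻¹) * g (Q * R'⁻¹))⁻¹ := by group
      _ = f (P * R⁻¹ * (itr 5 (wd W5)) * (P * R⁻¹)⁻¹) * g (Q * R'⁻¹ * (itr m (wd (Wt m))) * (Q * R'⁻¹)⁻¹) := by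
          rw [e3, Phi.cj hm h hf]
      _ = f M * g N := by
          rw [hR, hR', hP, hQ, cj_aux P R, cj_aux Q R']

theorem main (hm : m = 3 ∨ m = 4) {x : Root (4 + m) → G} (h : Stb (4 + m) x) :
    ∃ b : G, ∀ z : G, ∃ a c : G, z = a * b * a⁻¹ * (c * b * c⁻¹) := by
  obtain ⟨f, g, hf⟩ := phi_exists hm h
  refine ⟨f (wd W5) * g (wd (Wt m)), fun z => ?_⟩
  obtain ⟨c, g', hg', u', hu', e⟩ := big_cell hm h z
  obtain ⟨v, hv, l1, hl1, e1⟩ := Um_split_Lv hm h hg'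
  obtain ⟨l2, hl2, u, hu, e2⟩ := Up_split hm h hu'
  obtain ⟨M, N, hMN⟩ := Phi.cover hm h hf (Subgroup.mul_mem _ hl1 hl2)
  obtain ⟨M1, M2, N1, N2, hM, hN, ha1, ha2⟩ := adm_fac hm M N
  obtain ⟨y1, hy1⟩ := conj_left hm (x := fun r => x (-r)) (fun k hk => adm_sur_neg hm h hf ha1 hk) hv
  obtain ⟨y2, hy2⟩ := conj_right hm h (Subgroup.mul_mem _ (hf.mem M2 N2).1 (hf.mem M2 N2).2) (fun k hk => adm_sur hm h hf ha2 hk) hu
  obtain ⟨c1, hc1⟩ := adm_conj hm h hf ha1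
  obtain ⟨c2, hc2⟩ := adm_conj hm h hf ha2
  have h3 : l1 * l2 = (f M1 * g N1) * (f M2 * g N2) := by
    rw [hMN, hM, hN, map_mul, map_mul]
    have := Phi.comm hm h hf M2 N1
    calc f M1 * f M2 * (g N1 * g N2) = f M1 * (f M2 * g N1) * g N2 := by group
      _ = _ := by rw [this]; group
  have h4 : v * (f M1 * g N1) = y1 * (c1 * (f (wd W5) * g (wd (Wt m))) * c1⁻¹) * y1⁻¹ := by
    rw [hc1]
    calc v * (f M1 * g N1) = y1 * (y1⁻¹ * (v * (f M1 * g N1)) * y1) * y1⁻¹ := by group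
      _ = _ := by rw [hy1]
  have h5 : (f M2 * g N2) * u = y2 * (c2 * (f (wd W5) * g (wd (Wt m))) * c2⁻¹) * y2⁻¹ := by
    rw [hc2]
    calc (f M2 * g N2) * u = y2 * (y2⁻¹ * ((f M2 * g N2) * u) * y2) * y2⁻¹ := by group
      _ = _ := by rw [hy2]
  refine ⟨c⁻¹ * y1 * c1, c⁻¹ * y2 * c2, ?_⟩
  have h6 : z = c⁻¹ * (g' * u') * c := by rw [← e]; group
  rw [h6, e1, e2]
  calc c⁻¹ * (v * l1 * (l2 * u)) * c = c⁻¹ * (v * (l1 * l2) * u) * c := by group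
    _ = c⁻¹ * ((v * (f M1 * g N1)) * ((f M2 * g N2) * u)) * c := by rw [h3]; group
    _ = _ := by rw [h4, h5]; group

end ThE
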