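import Pool.Agent.ThE.Hom

/-! # The orbits of `GL_5(2)` and `GL_m(2)` on the roots of the unipotent radical -/

namespace ThE

variable {m : ℕ} {G : Type*} [Group G]

/-- the combination `∑ f_a ε_a` -/
def comb (m : ℕ) (f : Fin 5 → ℤ) : Vec (4 + m) := ∑ a, sv (f a) (eA m a)

/-- MODULE ja. -/
theorem bf_comb (f : Fin 5 → ℤ) (v : Vec (4 + m)) : bf (comb m f) v = ∑ a, f a * bf (eA m a) v := by
  unfold comb
  simp only [Fin.sum_univ_five, bf_add_left, bf_sv_left]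

/-- MODULE ja. If `∑ f_a = 0` then `bf (∑ f_a ε_a) (∑ f_a ε_a) = ∑ f_a ^ 2` (`bf_eA`), `∑ m_i = 3 d` for this vector (`sum_eA`), and its level is `0` (`lam_eA`). -/
theorem comb_norm {f : Fin 5 → ℤ} (hf : ∑ a, f a = 0) : bf (comb m f) (comb m f) = ∑ a, f a ^ 2 ∧
    ∑ i, (comb m f).2 i = 3 * (comb m f).1 ∧ lam (comb m f) = 0 := by
  have hf' : f 0 + f 1 + f 2 + f 3 + f 4 = 0 := by rw [← Fin.sum_univ_five]; exact hf
  refine ⟨?_, ?_, ?_⟩
  · rw [bf_comb]
    have h1 : ∀ a, bf (eA m a) (comb m f) = f a + (if a = 4 then ∑ b, f b else 0) + f 4 := by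
      intro a
      rw [bf_comm, bf_comb]
      simp only [bf_eA, mul_add, Finset.sum_add_distrib, mul_ite, mul_one, mul_zero]
      simp
      by_cases h : a = 4
      · simp [h]
        ring
      · simp [h]
    simp only [h1, hf]
    simp only [ite_self, add_zero, Fin.sum_univ_five]
    linear_combination (f 4) * hf'
  · have h1 : ∀ i, (comb m f).2 i = ∑ a, f a * (eA m a).2 i := by
      intro i
      unfold comb sv
      simp [Prod.snd_sum, Finset.sum_apply]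
    have h2 : (comb m f).1 = ∑ a, f a * (eA m a).1 := by
      unfold comb sv
      simp [Prod.fst_sum]
    simp only [h1, h2]
    rw [Finset.sum_comm]
    have h3 : ∀ a, ∑ i, f a * (eA m a).2 i = 3 * (f a * (eA m a).1) + f a := by
      intro a
      rw [← Finset.mul_sum, sum_eA]
      ring
    simp only [h3]
    rw [Finset.sum_add_distrib, hf, add_zero, Finset.mul_sum]
  · unfold comb
    simp only [Fin.sum_univ_five, lam_add, lam_sv, lam_eA]
    ring

/-- MODULE ja. `bf (vA a b) (comb f) = f a - f b` if `∑ f_a = 0`. -/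
theorem bf_vA_comb {f : Fin 5 → ℤ} (hf : ∑ a, f a = 0) (a b : Fin 5) : bf (vA m a b) (comb m f) = f a - f b := by
  have hf' : f 0 + f 1 + f 2 + f 3 + f 4 = 0 := by rw [← Fin.sum_univ_five]; exact hf
  have h1 : ∀ a, bf (eA m a) (comb m f) = f a + (if a = 4 then ∑ b, f b else 0) + f 4 := by
    intro a
    rw [bf_comm, bf_comb]
    simp only [bf_eA, mul_add, Finset.sum_add_distrib, mul_ite, mul_one, mul_zero]
    simp
    by_cases h : a = 4
    · simp [h]
      ring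
    · simp [h]
  rw [bf_vA, h1, h1, hf]
  simp only [ite_self, add_zero]
  ring

/-- MODULE jb. `r + ∑ f_a ε_a` is a root if `∑ f_a = 0` and `∑ f_a ^ 2 + 2 ∑ f_a bf (ε_a) r = 0` (`mk_root`, `comb_norm`, `bf_comb`). -/
theorem shift_root (r : Root (4 + m)) {f : Fin 5 → ℤ} (hf : ∑ a, f a = 0)
    (hf2 : ∑ a, f a ^ 2 + 2 * ∑ a, f a * bf (eA m a) r.1 = 0) :
    ∃ t : Root (4 + m), t.1 = comb m f + r.1 := by
  obtain ⟨h1, h2, h3⟩ := comb_norm (m := m) hf
  refine mk_root (comb m f + r.1) ?_ ?_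
  · show ∑ i, ((comb m f).2 i + r.1.2 i) = 3 * ((comb m f).1 + r.1.1)
    rw [Finset.sum_add_distrib, h2, r.2.1]
    ring
  · rw [bf_add_left, bf_add_right, bf_add_right, h1, bf_root, bf_comm r.1, bf_comb]
    linarith

/-- MODULE jc. Let `p a = bf (ε_a) r`: `p a = m_a` for `a < 4` and `p 4 = m_0 + m_1 + m_2 + m_3 - d = 2 d - lam r`, so `∑ p a = 5 d - 2 lam r` (`∑ m_i = 3 d`, `Fin.sum_univ_add`). -/
theorem sum_p (r : Root (4 + m)) : ∑ a, bf (eA m a) r.1 = 5 * r.1.1 - 2 * lam r.1 := by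
  have h1 : ∑ i : Fin 4, r.1.2 (Fin.castAdd m i) + lam r.1 = 3 * r.1.1 := by
    rw [← r.2.1, Fin.sum_univ_add]
    rfl
  have h2 : ∀ a : Fin 4, bf (eA m (Fin.castSucc a)) r.1 = r.1.2 (Fin.castAdd m a) := by
    intro a
    unfold bf eA
    have h3 : ¬ (((Fin.castSucc a : Fin 5) : ℕ) = 4) := by
      have := a.2
      rw [Fin.val_castSucc]
      omega
    rw [if_neg h3]
    have h4 : ∀ i : Fin (4 + m), ((i : ℕ) = ((Fin.castSucc a : Fin 5) : ℕ)) ↔ i = Fin.castAdd m a := by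
      intro i
      rw [Fin.ext_iff, Fin.val_castAdd, Fin.val_castSucc]
    simp only [h4]
    simp
  have h5 : bf (eA m (Fin.last 4)) r.1 = ∑ i : Fin 4, r.1.2 (Fin.castAdd m i) - r.1.1 := by
    unfold bf eA
    rw [if_pos (Fin.val_last 4), Fin.sum_univ_add]
    simp
  rw [Fin.sum_univ_castSucc]
  simp only [h2, h5]
  linarith

/-- MODULE jc. The values `p a = bf (ε_a) r` differ by at most `1` if `lam r ≥ 1`: `bf (vA a b) r = p a - p b` (`bf_vA`), `r ≠ ± vA a b` because of the level (`lam_vA`), `bf_cases`. -/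
theorem p_diff (hm : m = 3 ∨ m = 4) {r : Root (4 + m)} (h : 1 ≤ lam r.1) (a b : Fin 5) :
    bf (eA m a) r.1 - bf (eA m b) r.1 ≤ 1 := by
  have hn : 4 + m ≤ 8 := by omega
  by_cases hab : a = b
  · subst hab
    simp
  · rw [← bf_vA]
    have h1 := bf_le hn (rA m hab) r
    have h2 : bf (vA m a b) r.1 ≠ 2 := by
      intro h3
      have h4 := h1.2 h3
      rw [h4] at h
      have h5 : lam (rA m hab).1 = 0 := lam_vA a b
      omega
    have h6 : bf (vA m a b) r.1 ≤ 2 := h1.1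
    omega

/-- MODULE jc. For `1 ≤ lam r ≤ 4` there is `p0` such that all `p a ∈ {p0, p0 + 1}` and both values occur (if all values were equal, `5 p0 = 5 d - 2 lam r`). -/
theorem p_two (hm : m = 3 ∨ m = 4) {r : Root (4 + m)} (h : 1 ≤ lam r.1) (h' : lam r.1 ≤ 4) :
    ∃ p0 : ℤ, (∀ a, bf (eA m a) r.1 = p0 ∨ bf (eA m a) r.1 = p0 + 1) ∧ (∃ a, bf (eA m a) r.1 = p0) ∧
      ∃ a, bf (eA m a) r.1 = p0 + 1 := by
  obtain ⟨a0, -, ha0⟩ := Finset.exists_min_image Finset.univ (fun a : Fin 5 => bf (eA m a) r.1)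
    ⟨0, Finset.mem_univ _⟩
  refine ⟨bf (eA m a0) r.1, ?_, ⟨a0, rfl⟩, ?_⟩
  · intro a
    have h1 := ha0 a (Finset.mem_univ _)
    have h2 := p_diff hm h a a0
    omega
  · by_contra hno
    push Not at hno
    have h1 : ∀ a, bf (eA m a) r.1 = bf (eA m a0) r.1 := by
      intro a
      have h1 := ha0 a (Finset.mem_univ _)
      have h2 := p_diff hm h a a0
      have h3 := hno a
      omega
    have h2 := sum_p r
    rw [Fin.sum_univ_five, h1 0, h1 1, h1 2, h1 3, h1 4] at h2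
    omega

/-- the digits of `c` as integers -/
def dg (c : ℕ) (a : Fin 5) : ℤ := if c.testBit (a : ℕ) = true then 1 else 0

/-- MODULE jd. `pc c = ∑ dg c a`; the numbers below `32` are all the subsets; one step of `act1`.  (`decide` over `c < 32`, `interval_cases`.) -/
theorem dg_facts : (∀ c, ((pc c : ℕ) : ℤ) = ∑ a, dg c a) ∧
    (∀ P : Fin 5 → Bool, ∃ c < 32, ∀ a : Fin 5, c.testBit (a : ℕ) = P a) ∧
    (∀ c, c < 32 → 1 ≤ pc c → pc c ≤ 4 → 1 ≤ c ∧ c ≤ 30) ∧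
    ∀ c < 32, ∀ a b : Fin 5, (c.testBit b && !c.testBit a) = true →
      c + 2 ^ (a : ℕ) - 2 ^ (b : ℕ) < 32 ∧ pc (c + 2 ^ (a : ℕ) - 2 ^ (b : ℕ)) = pc c ∧
      ∀ e : Fin 5, dg (c + 2 ^ (a : ℕ) - 2 ^ (b : ℕ)) e = dg c e + (if e = a then 1 else 0) - (if e = b then 1 else 0) := by
  refine ⟨?_, ?_, ?_, ?_⟩
  · intro c
    rw [Fin.sum_univ_five]
    unfold pc dg
    push_cast
    have h : ∀ b : Bool, ((b.toNat : ℕ) : ℤ) = if b = true then 1 else 0 := by decide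
    rw [h, h, h, h, h]
    rfl
  · decide +kernel
  · decide +kernel
  · decide +kernel

private theorem je_sv_zero (v : Vec (4 + m)) : sv 0 v = 0 := by
  refine Prod.ext ?_ (funext fun i => ?_)
  · show 0 * v.1 = 0
    rw [zero_mul]
  · show 0 * v.2 i = 0
    rw [zero_mul]

private theorem je_sv_add (c d : ℤ) (v : Vec (4 + m)) : sv (c + d) v = sv c v + sv d v := by
  refine Prod.ext ?_ (funext fun i => ?_)
  · show (c + d) * v.1 = c * v.1 + d * v.1
    ring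
  · show (c + d) * v.2 i = c * v.2 i + d * v.2 i
    ring

private theorem je_comb_zero : comb m (fun _ => 0) = 0 := by
  unfold comb
  exact Finset.sum_eq_zero fun a _ => je_sv_zero _

private theorem je_comb_add (f g : Fin 5 → ℤ) : comb m (fun a => f a + g a) = comb m f + comb m g := by
  unfold comb
  rw [← Finset.sum_add_distrib]
  exact Finset.sum_congr rfl fun a _ => je_sv_add _ _ _

private theorem je_comb_single (a : Fin 5) (c : ℤ) : comb m (fun e => if e = a then c else 0) = sv c (eA m a) := by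
  unfold comb
  rw [Finset.sum_eq_single a]
  · show sv (if a = a then c else 0) (eA m a) = sv c (eA m a)
    rw [if_pos rfl]
  · intro b _ hb
    show sv (if b = a then c else 0) (eA m b) = 0
    rw [if_neg hb, je_sv_zero]
  · intro h
    exact absurd (Finset.mem_univ a) h

private theorem je_comb_diff (a b : Fin 5) :
    comb m (fun e => (if e = a then 1 else 0) + (if e = b then -1 else 0)) = vA m a b := by
  rw [je_comb_add, je_comb_single, je_comb_single]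
  unfold vA
  refine Prod.ext ?_ (funext fun i => ?_)
  · show 1 * (eA m a).1 + -1 * (eA m b).1 = (eA m a).1 - (eA m b).1
    ring
  · show 1 * (eA m a).2 i + -1 * (eA m b).2 i = (eA m a).2 i - (eA m b).2 i
    ring

private theorem je_dg_sq (c : ℕ) (a : Fin 5) : dg c a ^ 2 = dg c a := by
  unfold dg
  split_ifs <;> norm_num

/-- MODULE je. The orbit of `r` (`1 ≤ lam r ≤ 4`).  Let `p0` as in `p_two`, `c0 < 32` the code of `{a | p a = p0 + 1}` (`dg_facts`; `1 ≤ pc c0 ≤ 4`), and for `c < 32` with `pc c = pc c0` let `ρ c` be the root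
`comb f + r`, `f a = dg c a - dg c0 a` (`shift_root`: `∑ f_a = 0` because `pc c = pc c0`; `p a = p0 + dg c0 a`, `∑ f_a p a = ∑ f_a dg c0 a = - |c0 - c|`, `∑ f_a ^ 2 = 2 |c0 - c|`: in general
`∑ (f_a ^ 2 + 2 f_a dg c0 a) = ∑ (dg c a ^ 2 - dg c0 a ^ 2) = ∑ (dg c a - dg c0 a) = 0`).  `bf (vA a b) (ρ c) = f a - f b + p a - p b = dg c a - dg c b` (`bf_vA_comb`, `bf_vA`).  `ρ (c + 2 ^ a - 2 ^ b) = vA a b + ρ c`
because `comb` is linear in `f`. -/
theorem orbit5 (hm : m = 3 ∨ m = 4) {r : Root (4 + m)} (h : 1 ≤ lam r.1) (h' : lam r.1 ≤ 4) :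
    ∃ (c0 : ℕ) (ρ : ℕ → Root (4 + m)), c0 < 32 ∧ 1 ≤ pc c0 ∧ pc c0 ≤ 4 ∧ ρ c0 = r ∧
      ∀ c, c < 32 → pc c = pc c0 → lam (ρ c).1 = lam r.1 ∧ ∀ a b : Fin 5, a ≠ b →
        bf (vA m a b) (ρ c).1 = dg c a - dg c b ∧
        ((c.testBit b && !c.testBit a) = true → (ρ (c + 2 ^ (a : ℕ) - 2 ^ (b : ℕ))).1 = vA m a b + (ρ c).1) := by
  obtain ⟨p0, hp, ⟨a0, ha0⟩, ⟨a1, ha1⟩⟩ := p_two hm h h'
  obtain ⟨hpc, hex, h130, hstep⟩ := dg_facts
  obtain ⟨c0, hc0, hc0'⟩ := hex (fun a => decide (bf (eA m a) r.1 = p0 + 1))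
  have hpd : ∀ a, bf (eA m a) r.1 = p0 + dg c0 a := by
    intro a
    unfold dg
    rw [hc0']
    rcases hp a with h1 | h1
    · rw [h1]
      simp
    · rw [h1]
      simp
  have hd01 : ∀ c a, 0 ≤ dg c a ∧ dg c a ≤ 1 := by
    intro c a
    unfold dg
    split_ifs <;> norm_num
  have hpc1 : 1 ≤ pc c0 := by
    have h1 : dg c0 a1 = 1 := by
      have := hpd a1
      rw [ha1] at this
      linarith
    have h2 : dg c0 a1 ≤ ∑ a, dg c0 a := Finset.single_le_sum (fun a _ => (hd01 c0 a).1) (Finset.mem_univ a1)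
    have h3 := hpc c0
    have h4 : (1 : ℤ) ≤ (pc c0 : ℤ) := by rw [h3, ← h1]; exact h2
    exact_mod_cast h4
  have hpc4 : pc c0 ≤ 4 := by
    have h1 : dg c0 a0 = 0 := by
      have := hpd a0
      rw [ha0] at this
      linarith
    have h2 : ∑ a, dg c0 a ≤ 4 := by
      rw [← Finset.add_sum_erase _ _ (Finset.mem_univ a0), h1, zero_add]
      calc ∑ a ∈ Finset.univ.erase a0, dg c0 a ≤ ∑ a ∈ Finset.univ.erase a0, (1 : ℤ) :=
            Finset.sum_le_sum fun a _ => (hd01 c0 a).2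
        _ = 4 := by
          rw [Finset.sum_const, Finset.card_erase_of_mem (Finset.mem_univ a0)]
          simp
    have h3 := hpc c0
    have h4 : (pc c0 : ℤ) ≤ 4 := by rw [h3]; exact h2
    exact_mod_cast h4
  -- the roots of the orbit
  have hsum : ∀ c, pc c = pc c0 → ∑ a, (dg c a - dg c0 a) = 0 := by
    intro c hc
    rw [Finset.sum_sub_distrib, ← hpc, ← hpc, hc, sub_self]
  have hroot : ∀ c, pc c = pc c0 → ∃ t : Root (4 + m), t.1 = comb m (fun a => dg c a - dg c0 a) + r.1 := by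
    intro c hc
    apply shift_root r (hsum c hc)
    have h1 : ∀ a, (dg c a - dg c0 a) ^ 2 = dg c a - 2 * (dg c a * dg c0 a) + dg c0 a := by
      intro a
      have e1 := je_dg_sq c a
      have e2 := je_dg_sq c0 a
      linear_combination e1 + e2
    have h2 : ∀ a, (dg c a - dg c0 a) * bf (eA m a) r.1 = p0 * (dg c a - dg c0 a) + (dg c a * dg c0 a - dg c0 a) := by
      intro a
      have e2 := je_dg_sq c0 a
      rw [hpd]
      linear_combination -e2
    simp only [h1, h2, Finset.sum_add_distrib, Finset.sum_sub_distrib, ← Finset.mul_sum]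
    have h3 := hsum c hc
    rw [Finset.sum_sub_distrib] at h3
    linear_combination (1 + 2 * p0) * h3
  classical
  have : Nonempty (Root (4 + m)) := ⟨r⟩
  choose! ρ' hρ' using hroot
  refine ⟨c0, fun c => if pc c = pc c0 then ρ' c else r, hc0, hpc1, hpc4, ?_, ?_⟩
  · show (if pc c0 = pc c0 then ρ' c0 else r) = r
    rw [if_pos rfl]
    apply Subtype.ext
    rw [hρ' c0 rfl]
    simp only [sub_self]
    rw [je_comb_zero, zero_add]
  · intro c hc hcc
    have hr : (if pc c = pc c0 then ρ' c else r) = ρ' c := if_pos hcc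
    have hv := hρ' c hcc
    simp only [hr]
    refine ⟨?_, fun a b hab => ⟨?_, ?_⟩⟩
    · rw [hv, lam_add, (comb_norm (m := m) (hsum c hcc)).2.2, zero_add]
    · rw [hv, bf_add_right, bf_vA_comb (hsum c hcc), bf_vA, hpd, hpd]
      ring
    · intro hb
      obtain ⟨h1, h2, h3⟩ := hstep c hc a b hb
      have h4 : pc (c + 2 ^ (a : ℕ) - 2 ^ (b : ℕ)) = pc c0 := h2.trans hcc
      rw [if_pos h4, hρ' _ h4, hv, ← add_assoc]
      congr 1
      rw [← je_comb_diff, ← je_comb_add]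
      congr 1
      funext e
      rw [h3 e]
      split_ifs <;> ring

/-- the root `(3; 1, …, 1, 2, 1, …)` of level `5` -/
private def jf_r (j : Fin 4) : Root (4 + 4) := ⟨(3, fun k => if k = Fin.natAdd 4 j then 2 else 1), by
  revert j
  decide +kernel⟩

/-- MODULE jf. The roots of level `5` (then `m = 4`): `d = 3` (for `d ≤ 2` the level is `≤ 4`: `cls_one_two`, `cls_zero`, `cls_nonneg`) and, by `cls_three`, `r = ρ j0`, `ρ j = (3; 1, 1, 1, 1, 1 + δ_j)`.
`bf (vB a b) (ρ j) = [a = j] - [b = j]` (`bf_vB`), `bf (vA a b) (ρ j) = 0`, `ρ a = vB a b + ρ b`. -/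
theorem orbit4 (hm : m = 3 ∨ m = 4) {r : Root (4 + m)} (h : lam r.1 = 5) :
    m = 4 ∧ ∃ (j0 : Fin m) (ρ : Fin m → Root (4 + m)), ρ j0 = r ∧ ∀ j, lam (ρ j).1 = 5 ∧
      (∀ a b : Fin 5, bf (vA m a b) (ρ j).1 = 0) ∧
      ∀ a b : Fin m, a ≠ b → bf (vB m a b) (ρ j).1 = (if a = j then 1 else 0) - (if b = j then 1 else 0) ∧
        (b = j → (ρ a).1 = vB m a b + (ρ j).1) := by
  have hn : 4 + m ≤ 8 := by omega
  have hb := d_bound hn r
  have hlam : lam r.1 = ∑ j : Fin m, r.1.2 (Fin.natAdd 4 j) := rfl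
  have hd : r.1.1 = 3 := by
    by_contra hne
    rcases lt_trichotomy r.1.1 0 with h1 | h1 | h1
    · have h2 : lam r.1 ≤ 0 := by
        rw [hlam]
        refine Finset.sum_nonpos fun j _ => ?_
        have h3 := (cls_nonneg hn (-r) (by
          rw [neg_val]
          show 1 ≤ -r.1.1
          omega) (Fin.natAdd 4 j)).1
        rw [neg_val] at h3
        have h4 : 0 ≤ -(r.1.2 (Fin.natAdd 4 j)) := h3
        omega
      omega
    · obtain ⟨i, j, hij, hk⟩ := cls_zero r h1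
      have h2 : lam r.1 ≤ 1 := by
        rw [hlam]
        calc ∑ l : Fin m, r.1.2 (Fin.natAdd 4 l) ≤ ∑ l : Fin m, (if Fin.natAdd 4 l = i then 1 else 0 : ℤ) := by
              refine Finset.sum_le_sum fun l _ => ?_
              rw [hk]
              split_ifs <;> norm_num
          _ ≤ 1 := by
              by_cases h3 : ∃ l : Fin m, Fin.natAdd 4 l = i
              · obtain ⟨l, hl⟩ := h3
                have h4 : ∀ l' : Fin m, (if Fin.natAdd 4 l' = i then 1 else 0 : ℤ) = if l' = l then 1 else 0 := by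
                  intro l'
                  rw [← hl]
                  simp
                simp [h4]
              · have h4 : ∀ l' : Fin m, (if Fin.natAdd 4 l' = i then 1 else 0 : ℤ) = 0 := fun l' =>
                  if_neg fun h5 => h3 ⟨l', h5⟩
                simp [h4]
      omega
    · have h2 : lam r.1 ≤ m := by
        rw [hlam]
        calc ∑ l : Fin m, r.1.2 (Fin.natAdd 4 l) ≤ ∑ _l : Fin m, (1 : ℤ) := by
              refine Finset.sum_le_sum fun l _ => ?_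
              exact (cls_nonneg hn r (by omega) _).2.2.1 (by omega)
          _ = m := by simp
      omega
  obtain ⟨h8, j, hj⟩ := cls_three hn r hd
  have hm4 : m = 4 := by omega
  subst hm4
  refine ⟨rfl, ?_⟩
  have hj4 : ∃ j0 : Fin 4, Fin.natAdd 4 j0 = j := by
    by_contra hne
    have h1 : ∀ l : Fin 4, r.1.2 (Fin.natAdd 4 l) = 1 := by
      intro l
      rw [hj, if_neg fun h5 => hne ⟨l, h5⟩]
    have h2 : lam r.1 = 4 := by
      rw [hlam, Finset.sum_congr rfl fun l _ => h1 l]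
      rfl
    omega
  obtain ⟨j0, hj0⟩ := hj4
  refine ⟨j0, jf_r, ?_, fun l => ⟨?_, ?_, ?_⟩⟩
  · apply Subtype.ext
    refine Prod.ext hd.symm (funext fun k => ?_)
    rw [hj k, ← hj0]
    rfl
  · revert l
    decide +kernel
  · revert l
    decide +kernel
  · revert l
    decide +kernel

private theorem jg_word {k : ℕ} {w : List (Fin k × Fin k)} {y : Fin k → Fin k → G} (f : GL2 k →* G)
    (hf : ∀ a b, a ≠ b → f (tv a b) = y a b) (hw : ∀ p ∈ w, p.1 ≠ p.2) :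
    f (wd w) = (w.map fun p => y p.1 p.2).prod := by
  unfold wd
  rw [map_list_prod, List.map_map]
  congr 1
  apply List.map_congr_left
  intro p hp
  exact hf _ _ (hw p hp)

/-- MODULE jg. `1 - f(w)` is surjective on the sections `1 ≤ k ≤ 4`.  `Sur.of_gen`; for a root `r` of level `k` take `orbit5`, `ξ c = x (ρ c)`, `D c = (c < 32 ∧ pc c = pc c0)`, `y = yA x`, the word `W5`, and
`Y = tabY5.getD c0 []` (`tabY5_ok`, `dg_facts`); `sec_sur`.  `hy`: `bf (vA a b) (ρ c) = dg c a - dg c b` is `-1` iff `b ∈ c`, `a ∉ c`, then `Stb.conj_add`; otherwise it is `≥ 0` and `Stb.commute`.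
`f (wd W5)` is the product of the `yA x` of the word (`Phi.A`, `map_list_prod`). -/
theorem sur5 (hm : m = 3 ∨ m = 4) {x : Root (4 + m) → G} (h : Stb (4 + m) x) {f : GL2 5 →* G} {g : GL2 m →* G}
    (hf : Phi x f g) {k : ℕ} (hk : 1 ≤ k) (hk' : k ≤ 4) : Sur x (f (wd W5)) k := by
  refine Sur.of_gen h hk (hf.mem (wd W5) 1).1 fun r hr => ?_
  obtain ⟨c0, ρ, hc0, hp1, hp4, hρ0, hρ⟩ := orbit5 hm (r := r) (by rw [hr]; exact_mod_cast hk)
    (by rw [hr]; exact_mod_cast hk')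
  obtain ⟨-, -, h130, hstep⟩ := dg_facts
  have hD : ∀ c, (c < 32 ∧ pc c = pc c0) → ∀ a b : Fin 5, a ≠ b → (c.testBit b && !c.testBit a) = true →
      (c + 2 ^ (a : ℕ) - 2 ^ (b : ℕ) < 32 ∧ pc (c + 2 ^ (a : ℕ) - 2 ^ (b : ℕ)) = pc c0) := by
    intro c hc a b _ hb
    obtain ⟨h1, h2, -⟩ := hstep c hc.1 a b hb
    exact ⟨h1, h2.trans hc.2⟩
  have hy : ∀ c, (c < 32 ∧ pc c = pc c0) → ∀ a b : Fin 5, a ≠ b → yA x a b * x (ρ c) * (yA x a b)⁻¹ =
      if (c.testBit b && !c.testBit a) = true then x (ρ (c + 2 ^ (a : ℕ) - 2 ^ (b : ℕ))) * x (ρ c) else x (ρ c) := by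
    intro c hc a b hab
    have e1 : yA x a b = x (rA m hab) := by
      unfold yA
      rw [dif_pos hab]
    obtain ⟨-, h2⟩ := hρ c hc.1 hc.2
    obtain ⟨h3, h4⟩ := h2 a b hab
    rw [e1]
    by_cases hb : (c.testBit b && !c.testBit a) = true
    · rw [if_pos hb]
      exact h.conj_add (h4 hb)
    · rw [if_neg hb]
      have h5 : 0 ≤ bf (rA m hab).1 (ρ c).1 := by
        show 0 ≤ bf (vA m a b) (ρ c).1
        rw [h3]
        unfold dg
        cases h6 : c.testBit (a : ℕ) <;> cases h7 : c.testBit (b : ℕ) <;> simp_all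
      rw [h.commute h5, mul_assoc, mul_inv_cancel, mul_one]
  have hU : ∀ c, (c < 32 ∧ pc c = pc c0) → x (ρ c) ∈ Uk x k := by
    intro c hc
    apply Sg.mem
    show (k : ℤ) ≤ lam (ρ c).1
    rw [(hρ c hc.1 hc.2).1, hr]
  obtain ⟨h8, h9⟩ := h130 c0 hc0 hp1 hp4
  obtain ⟨h10, h11⟩ := tabY5_ok c0 (by rw [List.mem_range'_1]; omega)
  have hw5 : ∀ p ∈ W5, p.1 ≠ p.2 := by decide
  obtain ⟨h12, h13⟩ := sec_sur h hk hD hy hU hw5 (c := c0) ⟨hc0, rfl⟩ h10 h11
  rw [← jg_word f hf.A hw5, hρ0] at h13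
  exact ⟨_, h12, h13⟩

private def jh_idx (c : ℕ) : Fin 4 := if c = 1 then 0 else if c = 2 then 1 else if c = 4 then 2 else 3

private theorem jh_facts : (∀ c ∈ [1, 2, 4, 8], ∃ j : Fin 4, c = 2 ^ (j : ℕ)) ∧ (∀ j : Fin 4, jh_idx (2 ^ (j : ℕ)) = j) ∧
    (∀ j : Fin 4, 2 ^ (j : ℕ) ∈ [1, 2, 4, 8]) ∧
    ∀ j a b : Fin 4, ((2 ^ (j : ℕ)).testBit b && !(2 ^ (j : ℕ)).testBit a) = decide (b = j ∧ a ≠ j) ∧
      (b = j ∧ a ≠ j → 2 ^ (j : ℕ) + 2 ^ (a : ℕ) - 2 ^ (b : ℕ) = 2 ^ (a : ℕ)) := by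
  decide +kernel

private theorem jh_cen (hm : m = 3 ∨ m = 4) {x : Root (4 + m) → G} (h : Stb (4 + m) x) {f : GL2 5 →* G} {g : GL2 m →* G}
    (hf : Phi x f g) (M : GL2 5) {v : G} (hv : v ∈ Uk x 5) : f M * v = v * f M := by
  have hM : M ∈ Subgroup.closure {g : GL2 5 | ∃ i j, i ≠ j ∧ tv i j = g} := by
    rw [tv_gen]
    exact Subgroup.mem_top _
  induction hM using Subgroup.closure_induction with
  | mem M hM =>
    obtain ⟨a, b, hab, rfl⟩ := hM
    rw [hf.A a b hab]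
    have e1 : yA x a b = x (rA m hab) := by
      unfold yA
      rw [dif_pos hab]
    rw [e1]
    unfold Uk Sg at hv
    induction hv using Subgroup.closure_induction with
    | mem v hv =>
      obtain ⟨r, hr, rfl⟩ := hv
      have hr5 : lam r.1 = 5 := le_antisymm (lam_le hm r) (by exact_mod_cast hr)
      obtain ⟨-, j0, ρ, hρ0, hρ⟩ := orbit4 hm hr5
      apply h.commute
      have h1 := (hρ j0).2.1 a b
      rw [hρ0] at h1
      exact h1.ge
    | one => rw [mul_one, one_mul]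
    | mul u v _ _ hu hv => rw [← mul_assoc, hu, mul_assoc, hv, mul_assoc]
    | inv u _ hu =>
      have h1 : Commute (x (rA m hab)) u := hu
      exact h1.inv_right
  | one => rw [map_one, one_mul, mul_one]
  | mul M N _ _ hM hN => rw [map_mul, mul_assoc, hN, ← mul_assoc, hM, mul_assoc]
  | inv M _ hM =>
    rw [map_inv]
    have h1 : Commute (f M) v := hM
    exact h1.inv_left

/-- MODULE jh. For `k = 5`.  For `m = 3` there are no roots of level `5` (`orbit4`), `Sur.of_gen` is trivial.  For `m = 4`: `f M` centralizes `Uk x 5`: the generators of `Uk x 5` are the `x r`, `lam r = 5` (`lam_le`), and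
`bf (vA a b) r = 0` (`orbit4`, `Stb.commute`, `tv_gen`).  So it is enough to consider `g (wd (Wt m))`: as `sur5` with `ξ c = x (ρ j)` for `c = 2 ^ j`, `D c = (c ∈ [1, 2, 4, 8])`, `y = yB x`, the word `W4`, `tabY4`
(`subst`: `m = 4`, `Wt 4 = W4`). -/
theorem sur4 (hm : m = 3 ∨ m = 4) {x : Root (4 + m) → G} (h : Stb (4 + m) x) {f : GL2 5 →* G} {g : GL2 m →* G}
    (hf : Phi x f g) (M : GL2 5) : Sur x (f M * g (wd (Wt m))) 5 := by
  have hb : f M * g (wd (Wt m)) ∈ Lv x := (Lv x).mul_mem (hf.mem M 1).1 (hf.mem 1 _).2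
  refine Sur.of_gen h (by norm_num) hb fun r hr => ?_
  have hcen : ∀ v ∈ Uk x 5, f M * v = v * f M := fun v hv => jh_cen hm h hf M hv
  obtain ⟨hm4, j0, ρ, hρ0, hρ⟩ := orbit4 hm (r := r) (by rw [hr]; norm_num)
  subst hm4
  obtain ⟨f1, f2, f3, f4⟩ := jh_facts
  have hD : ∀ c, c ∈ [1, 2, 4, 8] → ∀ a b : Fin 4, a ≠ b → (c.testBit b && !c.testBit a) = true →
      c + 2 ^ (a : ℕ) - 2 ^ (b : ℕ) ∈ [1, 2, 4, 8] := by
    intro c hc a b hab hbit
    obtain ⟨j, rfl⟩ := f1 c hc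
    obtain ⟨h1, h2⟩ := f4 j a b
    rw [h1, decide_eq_true_eq] at hbit
    rw [h2 hbit]
    exact f3 a
  have hy : ∀ c, c ∈ [1, 2, 4, 8] → ∀ a b : Fin 4, a ≠ b →
      yB x a b * x (ρ (jh_idx c)) * (yB x a b)⁻¹ =
      if (c.testBit b && !c.testBit a) = true then x (ρ (jh_idx (c + 2 ^ (a : ℕ) - 2 ^ (b : ℕ)))) * x (ρ (jh_idx c))
        else x (ρ (jh_idx c)) := by
    intro c hc a b hab
    obtain ⟨j, rfl⟩ := f1 c hc
    obtain ⟨h1, h2⟩ := f4 j a b
    obtain ⟨-, -, h3⟩ := hρ j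
    obtain ⟨h4, h5⟩ := h3 a b hab
    have e1 : yB x a b = x (rB 4 hab) := by
      unfold yB
      rw [dif_pos hab]
    rw [e1, h1, f2 j]
    by_cases hbj : b = j ∧ a ≠ j
    · rw [if_pos (decide_eq_true hbj), h2 hbj, f2 a]
      exact h.conj_add (h5 hbj.1)
    · rw [if_neg (by rw [decide_eq_true_eq]; exact hbj)]
      have h6 : 0 ≤ bf (rB 4 hab).1 (ρ j).1 := by
        show 0 ≤ bf (vB 4 a b) (ρ j).1
        rw [h4]
        by_cases h7 : b = j
        · have h8 : a = j := by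
            by_contra h8
            exact hbj ⟨h7, h8⟩
          exact absurd (h8.trans h7.symm) hab
        · rw [if_neg h7, sub_zero]
          split_ifs <;> norm_num
      rw [h.commute h6, mul_assoc, mul_inv_cancel, mul_one]
  have hU : ∀ c, c ∈ [1, 2, 4, 8] → x (ρ (jh_idx c)) ∈ Uk x 5 := by
    intro c _
    apply Sg.mem
    show ((5 : ℕ) : ℤ) ≤ lam (ρ (jh_idx c)).1
    rw [(hρ _).1]
    norm_num
  have hc0 : 2 ^ (j0 : ℕ) ∈ [1, 2, 4, 8] := f3 j0
  obtain ⟨h10, h11⟩ := tabY4_ok (2 ^ (j0 : ℕ)) hc0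
  have hw4 : ∀ p ∈ W4, p.1 ≠ p.2 := by decide
  obtain ⟨h12, h13⟩ := sec_sur h (k := 5) (by norm_num) hD hy hU hw4 (c := 2 ^ (j0 : ℕ)) hc0 h10 h11
  rw [f2, hρ0] at h13
  refine ⟨_, h12, ?_⟩
  have e3 : g (wd (Wt 4)) = (W4.map fun p => yB x p.1 p.2).prod := jg_word g hf.B hw4
  have h14 : (W4.map fun p => yB x p.1 p.2).prod * (List.map (fun c => x (ρ (jh_idx c))) (tabY4.getD (2 ^ (j0 : ℕ)) [])).prod *
      ((W4.map fun p => yB x p.1 p.2).prod)⁻¹ ∈ Uk x 5 := by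
    rw [← e3]
    exact Uk.conj_Lv h (by norm_num) (hf.mem 1 _).2 h12
  have h15 := hcen _ h14
  rw [e3]
  have e4 : ∀ A B C : G, A * (B * C * B⁻¹) = (B * C * B⁻¹) * A → A * B * C * (A * B)⁻¹ = B * C * B⁻¹ := by
    intro A B C hABC
    calc A * B * C * (A * B)⁻¹ = (A * (B * C * B⁻¹)) * A⁻¹ := by group
      _ = B * C * B⁻¹ := by rw [hABC, mul_assoc, mul_inv_cancel, mul_one]
  rw [e4 _ _ _ h15]
  exact h13

/-- MODULE ji. `(f(w) g(t)) ^ 156 = f(w ^ 156) g(t ^ 156) = f(w)` (`Phi.comm`, `ord_W5`, `ord_Wt`) and `(f(w⁻¹) g(t)) ^ 30 = f(w ^ (-30)) g(t ^ 30) = f(w)`; `Sur.of_pow`, `sur5` for `k ≤ 4`; `sur4` for `k = 5`; `Uk.top` for `k ≥ 6`. -/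
theorem adm_W (hm : m = 3 ∨ m = 4) {x : Root (4 + m) → G} (h : Stb (4 + m) x) {f : GL2 5 →* G} {g : GL2 m →* G}
    (hf : Phi x f g) {M : GL2 5} (hM : M = wd W5 ∨ M = (wd W5)⁻¹) {k : ℕ} (hk : 1 ≤ k) :
    Sur x (f M * g (wd (Wt m))) k := by
  have hT : wd (Wt m) ^ 6 = 1 := ord_Wt hm
  have hW : wd W5 ^ 31 = 1 := ord_W5
  have hb : f M * g (wd (Wt m)) ∈ Lv x := mul_mem (hf.mem M 1).1 (hf.mem 1 (wd (Wt m))).2
  have hco : Commute (f M) (g (wd (Wt m))) := hf.comm hm h M (wd (Wt m))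
  by_cases h4 : k ≤ 4
  · obtain ⟨N, hN1, hN2⟩ : ∃ N : ℕ, M ^ N = wd W5 ∧ wd (Wt m) ^ N = 1 := by
      rcases hM with rfl | rfl
      · refine ⟨156, ?_, ?_⟩
        · rw [show 156 = 31 * 5 + 1 by norm_num, pow_succ, pow_mul, hW, one_pow, one_mul]
        · rw [show 156 = 6 * 26 by norm_num, pow_mul, hT, one_pow]
      · refine ⟨30, ?_, ?_⟩
        · rw [inv_pow]
          apply inv_eq_of_mul_eq_one_right
          rw [← pow_succ, hW]
        · rw [show 30 = 6 * 5 by norm_num, pow_mul, hT, one_pow]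
    refine Sur.of_pow h hk hb N ?_
    rw [hco.mul_pow, ← map_pow, ← map_pow, hN1, hN2, map_one, mul_one]
    exact sur5 hm h hf hk h4
  · by_cases h5 : k = 5
    · rw [h5]
      exact sur4 hm h hf M
    · have h6 : 6 ≤ k := by omega
      intro v hv
      rw [Uk.top hm h6, Subgroup.mem_bot] at hv
      refine ⟨1, one_mem _, ?_⟩
      rw [hv]
      simp

/-- the admissible pairs -/
def Adm (m : ℕ) (M : GL2 5) (N : GL2 m) : Prop :=
  (∃ P : GL2 5, M = P * wd W5 * P⁻¹ ∨ M = P * (wd W5)⁻¹ * P⁻¹) ∧ ∃ Q : GL2 m, N = Q * wd (Wt m) * Q⁻¹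

/-- MODULE ji. `adm_W` and `Sur.conj` with `l = f P g Q` (`Phi.comm`, `Phi.mem`). -/
theorem adm_sur (hm : m = 3 ∨ m = 4) {x : Root (4 + m) → G} (h : Stb (4 + m) x) {f : GL2 5 →* G} {g : GL2 m →* G}
    (hf : Phi x f g) {M : GL2 5} {N : GL2 m} (ha : Adm m M N) {k : ℕ} (hk : 1 ≤ k) : Sur x (f M * g N) k := by
  obtain ⟨⟨P, hP⟩, Q, hQ⟩ := ha
  have key : ∀ M' : GL2 5, (M' = wd W5 ∨ M' = (wd W5)⁻¹) → M = P * M' * P⁻¹ → Sur x (f M * g N) k := by
    intro M' hM' hM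
    have h1 := Sur.conj h hk (l := f P * g Q) (mul_mem (hf.mem P 1).1 (hf.mem 1 Q).2) (adm_W hm h hf hM' hk)
    have h2 : f P * g Q * (f M' * g (wd (Wt m))) * (f P * g Q)⁻¹ = f M * g N := by
      have e1 : g Q * f M' = f M' * g Q := (hf.comm hm h M' Q).symm
      have e2 : (g Q * g (wd (Wt m)) * (g Q)⁻¹) * (f P)⁻¹ = (f P)⁻¹ * (g Q * g (wd (Wt m)) * (g Q)⁻¹) := by
        have := (hf.comm hm h P⁻¹ (Q * wd (Wt m) * Q⁻¹)).symm
        simpa only [map_mul, map_inv] using this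
      calc f P * g Q * (f M' * g (wd (Wt m))) * (f P * g Q)⁻¹ = f P * (g Q * f M') * g (wd (Wt m)) * (g Q)⁻¹ * (f P)⁻¹ := by
            rw [mul_inv_rev]
            simp only [mul_assoc]
        _ = f P * f M' * ((g Q * g (wd (Wt m)) * (g Q)⁻¹) * (f P)⁻¹) := by
          rw [e1]
          simp only [mul_assoc]
        _ = f P * f M' * ((f P)⁻¹ * (g Q * g (wd (Wt m)) * (g Q)⁻¹)) := by rw [e2]
        _ = f M * g N := by
          rw [hM, hQ]
          simp only [map_mul, map_inv, mul_assoc]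
    rwa [h2] at h1
  rcases hP with hP | hP
  · exact key _ (Or.inl rfl) hP
  · exact key _ (Or.inr rfl) hP

/-- MODULE ji. `itr_W5`, `itr_Wt`. -/
theorem adm_itr (hm : m = 3 ∨ m = 4) {M : GL2 5} {N : GL2 m} (ha : Adm m M N) : Adm m (itr 5 M) (itr m N) := by
  obtain ⟨⟨P, hP⟩, Q, hQ⟩ := ha
  obtain ⟨R, hR⟩ := itr_W5
  obtain ⟨S, hS⟩ := itr_Wt hm
  refine ⟨⟨itr 5 P * R, ?_⟩, itr m Q * S, ?_⟩
  · rcases hP with hP | hP
    · right
      rw [hP, map_mul, map_mul, map_inv, hR, mul_inv_rev]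
      simp only [mul_assoc]
    · left
      rw [hP, map_mul, map_mul, map_inv, map_inv, hR]
      simp only [mul_inv_rev, inv_inv, mul_assoc]
  · rw [hQ, map_mul, map_mul, map_inv, hS, mul_inv_rev]
    simp only [mul_assoc]

/-- MODULE jj. `adm_sur` for the relabelled system with `Phi.neg` (`itr_itr`, `adm_itr`): `f M g N = (f ∘ itr) (itr M) (g ∘ itr) (itr N)`. -/
theorem adm_sur_neg (hm : m = 3 ∨ m = 4) {x : Root (4 + m) → G} (h : Stb (4 + m) x) {f : GL2 5 →* G} {g : GL2 m →* G}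
    (hf : Phi x f g) {M : GL2 5} {N : GL2 m} (ha : Adm m M N) {k : ℕ} (hk : 1 ≤ k) :
    Sur (fun r => x (-r)) (f M * g N) k := by
  have h1 := adm_sur hm h.neg hf.neg (adm_itr hm ha) hk
  have h2 : (f.comp (itr 5)) (itr 5 M) = f M := by
    rw [MonoidHom.comp_apply, itr_itr]
  have h3 : (g.comp (itr m)) (itr m N) = g N := by
    rw [MonoidHom.comp_apply, itr_itr]
  rwa [h2, h3] at h1

/-- MODULE jj. `fac5` and `facm`; if `M = 1` then `M = w w⁻¹`. -/
theorem adm_fac (hm : m = 3 ∨ m = 4) (M : GL2 5) (N : GL2 m) :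
    ∃ (M1 M2 : GL2 5) (N1 N2 : GL2 m), M = M1 * M2 ∧ N = N1 * N2 ∧ Adm m M1 N1 ∧ Adm m M2 N2 := by
  obtain ⟨P, Q, hN⟩ := facm hm N
  rcases fac5 M with ⟨A, B, hM⟩ | hM
  · exact ⟨_, _, _, _, hM, hN, ⟨⟨A, Or.inl rfl⟩, P, rfl⟩, ⟨⟨B, Or.inl rfl⟩, Q, rfl⟩⟩
  · refine ⟨wd W5, (wd W5)⁻¹, _, _, by rw [hM, mul_inv_cancel], hN, ⟨⟨1, Or.inl (by simp)⟩, P, rfl⟩,
      ⟨⟨1, Or.inr (by simp)⟩, Q, rfl⟩⟩

end ThE
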