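import Pool.Agent.ThE.Cls

/-! # The elements `n_r` -/

namespace ThE

variable {n m : ℕ} {G : Type*} [Group G]

/-- MODULE ca. -/
theorem Stb.inv {x : Root n → G} (h : Stb n x) (r : Root n) : (x r)⁻¹ = x r :=
  inv_eq_of_mul_eq_one_left (h.sq r)

/-- MODULE ca. From `h.add`. -/
theorem Stb.conj_add {x : Root n → G} (h : Stb n x) {r s t : Root n} (ht : t.1 = r.1 + s.1) :
    x r * x s * (x r)⁻¹ = x t * x s :=
  mul_inv_eq_iff_eq_mul.mp (h.add r s t ht)

/-- MODULE ca. If `bf r s ≥ 0` then `r + s ≠ 0` (`add_ne_zero'`) and `r + s` is not a root (`bf_of_add`); `h.comm`. -/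
theorem Stb.commute {x : Root n → G} (h : Stb n x) {r s : Root n} (hb : 0 ≤ bf r.1 s.1) : x r * x s = x s * x r := by
  have h1 := h.comm r s (add_ne_zero' (by omega)) (fun t ht => by
    have h2 := bf_of_add ht
    omega)
  have h3 : x r * x s * (x r)⁻¹ = x s := by
    have h4 := mul_inv_eq_iff_eq_mul.mp h1
    rwa [one_mul] at h4
  exact mul_inv_eq_iff_eq_mul.mp h3

/-- MODULE ca. The relabelled system. -/
theorem Stb.neg {x : Root n → G} (h : Stb n x) : Stb n (fun r => x (-r)) where
  sq r := h.sq (-r)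
  add r s t ht := h.add (-r) (-s) (-t) (by rw [neg_val, neg_val, neg_val, ht, neg_add])
  comm r s h1 h2 := h.comm (-r) (-s) (by
      rw [neg_val, neg_val, ← neg_add]
      exact neg_ne_zero.mpr h1) (fun t ht => by
      apply h2 (-t)
      rw [neg_val, ht, neg_val, neg_val]
      abel)
  gen := by
    rw [← h.gen]
    congr 1
    ext g
    constructor
    · rintro ⟨r, rfl⟩
      exact ⟨-r, rfl⟩
    · rintro ⟨r, rfl⟩
      exact ⟨-r, by show x (- -r) = x r; rw [neg_neg']⟩

private theorem cb_grp0 {a b c : G} (h1 : a * c = c * a) (h2 : b * c = c * b) :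
    a * b * a * c * (a * b * a)⁻¹ = c := by
  have h3 : a * c * a⁻¹ = c := by rw [h1, mul_inv_cancel_right]
  have h4 : b * c * b⁻¹ = c := by rw [h2, mul_inv_cancel_right]
  calc a * b * a * c * (a * b * a)⁻¹ = a * (b * (a * c * a⁻¹) * b⁻¹) * a⁻¹ := by group
    _ = c := by rw [h3, h4, h3]

private theorem cb_grp1 {a b c T : G} (h1 : a * c * a⁻¹ = T * c) (h2 : b * c = c * b) (h3 : b * T * b⁻¹ = c * T)
    (h4 : T * c = c * T) (h5 : a * T = T * a) (h6 : c * c = 1) : a * b * a * c * (a * b * a)⁻¹ = T := by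
  have h7 : b * c * b⁻¹ = c := by rw [h2, mul_inv_cancel_right]
  have h8 : a * T * a⁻¹ = T := by rw [h5, mul_inv_cancel_right]
  have h9 : c * T * c = T := by rw [← h4, mul_assoc, h6, mul_one]
  calc a * b * a * c * (a * b * a)⁻¹ = a * (b * (a * c * a⁻¹) * b⁻¹) * a⁻¹ := by group
    _ = a * ((b * T * b⁻¹) * (b * c * b⁻¹)) * a⁻¹ := by rw [h1]; group
    _ = T := by rw [h3, h7, h9, h8]

private theorem cb_grp2 {a b c T : G} (h1 : a * c = c * a) (h2 : b * c * b⁻¹ = T * c) (h3 : a * T * a⁻¹ = c * T)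
    (h4 : T * c = c * T) (h6 : c * c = 1) : a * b * a * c * (a * b * a)⁻¹ = T := by
  have h7 : a * c * a⁻¹ = c := by rw [h1, mul_inv_cancel_right]
  have h9 : c * T * c = T := by rw [← h4, mul_assoc, h6, mul_one]
  calc a * b * a * c * (a * b * a)⁻¹ = a * (b * (a * c * a⁻¹) * b⁻¹) * a⁻¹ := by group
    _ = a * (b * c * b⁻¹) * a⁻¹ := by rw [h7]
    _ = a * (T * c) * a⁻¹ := by rw [h2]
    _ = (a * T * a⁻¹) * (a * c * a⁻¹) := by group
    _ = T := by rw [h3, h7, h9]

/-- MODULE cb. `s ≠ ± r`: three cases (`bf_cases`).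
`bf r s = 0`: `x r` and `x (-r)` commute with `x s` (`commute`), `rf r s = s`.
`bf r s = -1`: let `t = r + s` (`root_add`), `rf r s = t`.  `x r x s x r⁻¹ = x t x s` (`conj_add`); `x (-r)` commutes with `x s` (`bf (-r) s = 1`) and `x (-r) x t x (-r)⁻¹ = x s x t`
(`conj_add` for `s = - r + t`); so `x (-r) (x t x s) x (-r)⁻¹ = x s x t x s = x t` (`x s`, `x t` commute since `bf s t = 1`; squares are `1`); `x r` commutes with `x t` (`bf r t = 1`).
`bf r s = 1`: let `t = s - r` (`root_sub`), `rf r s = t`.  `x r` commutes with `x s`; `x (-r) x s x (-r)⁻¹ = x t x s`; `x r (x t x s) x r⁻¹ = (x s x t) x s = x t` (`conj_add` for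
`s = r + t`, and `x s`, `x t` commute: `bf s t = 1`). -/
theorem nn_conj_ne (hn : n ≤ 8) {x : Root n → G} (h : Stb n x) {r s : Root n} (h1 : s ≠ r) (h2 : s ≠ -r) :
    nn x r * x s * (nn x r)⁻¹ = x (rf r s) := by
  unfold nn
  rcases bf_cases hn h1 h2 with hb | hb | hb
  · obtain ⟨t, ht⟩ := root_add hb
    have e : rf r s = t := by
      apply Subtype.ext
      rw [rf_val, hb, ht]
      apply Prod.ext
      · show s.1.1 - (-1) * r.1.1 = r.1.1 + s.1.1
        ring
      · funext i
        show s.1.2 i - (-1) * r.1.2 i = r.1.2 i + s.1.2 i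
        ring
    rw [e]
    have b1 : bf (-r).1 s.1 = 1 := by rw [neg_val, bf_neg_left, hb]; rfl
    have b2 : bf t.1 s.1 = 1 := by rw [ht, bf_add_left, hb, bf_root]; rfl
    have b3 : bf r.1 t.1 = 1 := by rw [ht, bf_add_right, hb, bf_root]; rfl
    refine cb_grp1 (h.conj_add ht) (h.commute (by omega)) (h.conj_add (r := -r) (s := t) (t := s) ?_)
      (h.commute (by omega)) (h.commute (by omega)) (h.sq s)
    rw [neg_val, ht]
    abel
  · have e : rf r s = s := by
      apply Subtype.ext
      rw [rf_val, hb]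
      apply Prod.ext
      · show s.1.1 - 0 * r.1.1 = s.1.1
        ring
      · funext i
        show s.1.2 i - 0 * r.1.2 i = s.1.2 i
        ring
    rw [e]
    have b1 : bf (-r).1 s.1 = 0 := by rw [neg_val, bf_neg_left, hb]; rfl
    exact cb_grp0 (h.commute (by omega)) (h.commute (by omega))
  · obtain ⟨t, ht⟩ := root_sub hb
    have e : rf r s = t := by
      apply Subtype.ext
      rw [rf_val, hb, ht]
      apply Prod.ext
      · show s.1.1 - 1 * r.1.1 = s.1.1 - r.1.1
        ring
      · funext i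
        show s.1.2 i - 1 * r.1.2 i = s.1.2 i - r.1.2 i
        ring
    rw [e]
    have b2 : bf t.1 s.1 = 1 := by
      rw [ht, bf_sub_left, hb, bf_root]; rfl
    refine cb_grp2 (h.commute (by omega)) (h.conj_add (r := -r) (s := s) (t := t) ?_)
      (h.conj_add (r := r) (s := t) (t := s) ?_) (h.commute (by omega)) (h.sq s)
    · rw [neg_val, ht]
      abel
    · rw [ht]
      abel

/-- MODULE cc. Choose `a` with `bf a r = 1` (`exists_one`), `t = r - a` (`root_sub`); `bf a t = -1`, `a, t ≠ ± r` (`bf r a = bf r t = 1`).  `x r = x a x t x a⁻¹ x t⁻¹` (`h.add`), so by `nn_conj_ne`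
`nn r x r nn r⁻¹` is the commutator of `x (a - r)` and `x (t - r)`, and `(a - r) + (t - r) = - r`. -/
theorem nn_conj_self (hm : m = 3 ∨ m = 4) {x : Root (4 + m) → G} (h : Stb (4 + m) x) (r : Root (4 + m)) :
    nn x r * x r * (nn x r)⁻¹ = x (-r) := by
  have hn : 4 + m ≤ 8 := by omega
  obtain ⟨a, ha⟩ := exists_one hm r
  obtain ⟨t, ht⟩ := root_sub ha
  have har : bf r.1 a.1 = 1 := by rw [bf_comm, ha]
  have htr : bf t.1 r.1 = 1 := by rw [ht, bf_sub_left, bf_root, ha]; rfl
  have hrt : bf r.1 t.1 = 1 := by rw [bf_comm, htr]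
  have hne : ∀ s : Root (4 + m), bf s.1 r.1 = 1 → s ≠ r ∧ s ≠ -r := by
    intro s hs
    constructor
    · rintro rfl
      rw [bf_root] at hs
      omega
    · rintro rfl
      rw [neg_val, bf_neg_left, bf_root] at hs
      omega
  have h1 := nn_conj_ne hn h (hne a ha).1 (hne a ha).2
  have h2 := nn_conj_ne hn h (hne t htr).1 (hne t htr).2
  have h3 := h.add a t r (by rw [ht]; abel)
  have h4 := h.add (rf r a) (rf r t) (-r) (by
    rw [rf_val, rf_val, har, hrt, neg_val, ht]
    apply Prod.ext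
    · show -r.1.1 = a.1.1 - 1 * r.1.1 + (r.1.1 - a.1.1 - 1 * r.1.1)
      ring
    · funext i
      show -r.1.2 i = a.1.2 i - 1 * r.1.2 i + (r.1.2 i - a.1.2 i - 1 * r.1.2 i)
      ring)
  calc nn x r * x r * (nn x r)⁻¹ = nn x r * (x a * x t * (x a)⁻¹ * (x t)⁻¹) * (nn x r)⁻¹ := by rw [h3]
    _ = (nn x r * x a * (nn x r)⁻¹) * (nn x r * x t * (nn x r)⁻¹) * (nn x r * x a * (nn x r)⁻¹)⁻¹ *
        (nn x r * x t * (nn x r)⁻¹)⁻¹ := by group
    _ = x (-r) := by rw [h1, h2, h4]

/-- MODULE cd. From `nn_conj_self` (with `x r x r = 1`): `x r x (-r) x r x (-r) x r = x (-r)`. -/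
theorem br_root (hm : m = 3 ∨ m = 4) {x : Root (4 + m) → G} (h : Stb (4 + m) x) (r : Root (4 + m)) :
    (x r * x (-r)) ^ 3 = 1 := by
  have h1 := nn_conj_self hm h r
  have h2 := h.sq r
  have h3 := h.sq (-r)
  unfold nn at h1
  rw [mul_inv_rev, mul_inv_rev, h.inv, h.inv] at h1
  have h4 : x r * x (-r) * x r * x (-r) * x r = x (-r) := by
    calc x r * x (-r) * x r * x (-r) * x r = x r * x (-r) * (x r * x r) * x r * x (-r) * x r := by
          rw [h2, mul_one]
      _ = x r * x (-r) * x r * x r * (x r * (x (-r) * x r)) := by group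
      _ = x (-r) := h1
  calc (x r * x (-r)) ^ 3 = (x r * x (-r) * x r * x (-r) * x r) * x (-r) := by
        rw [pow_succ, pow_succ, pow_one]; group
    _ = 1 := by rw [h4, h3]

/-- MODULE cd. `x r x (-r) x r x r x (-r) x r = 1`. -/
theorem nn_sq {x : Root n → G} (h : Stb n x) (r : Root n) : nn x r * nn x r = 1 := by
  have h2 := h.sq r
  have h3 := h.sq (-r)
  unfold nn
  calc x r * x (-r) * x r * (x r * x (-r) * x r) = x r * (x (-r) * (x r * x r) * x (-r)) * x r := by group
    _ = 1 := by rw [h2, mul_one, h3, mul_one, h2]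

/-- MODULE cd. `x (-r) x r x (-r) = x r x (-r) x r` by `br_root`. -/
theorem nn_neg (hm : m = 3 ∨ m = 4) {x : Root (4 + m) → G} (h : Stb (4 + m) x) (r : Root (4 + m)) :
    nn x (-r) = nn x r := by
  have h1 := br_root hm h r
  have h2 := h.sq r
  have h3 := h.sq (-r)
  unfold nn
  rw [neg_neg']
  have h4 : (x (-r) * x r * x (-r)) * (x (-r) * x r * x (-r)) = 1 := by
    calc (x (-r) * x r * x (-r)) * (x (-r) * x r * x (-r)) =
        x (-r) * (x r * (x (-r) * x (-r)) * x r) * x (-r) := by group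
      _ = 1 := by rw [h3, mul_one, h2, mul_one, h3]
  have h5 : (x r * x (-r) * x r) * (x (-r) * x r * x (-r)) = 1 := by
    rw [← h1, pow_succ, pow_succ, pow_one]
    group
  exact mul_right_cancel (h4.trans h5.symm)

/-- MODULE ce. `s = r`: `nn_conj_self`, `rf_self`.  `s = -r`: `nn_conj_self` for `-r` with `nn_neg`, `rf_neg`.  Otherwise `nn_conj_ne`. -/
theorem nn_conj (hm : m = 3 ∨ m = 4) {x : Root (4 + m) → G} (h : Stb (4 + m) x) (r s : Root (4 + m)) :
    nn x r * x s * (nn x r)⁻¹ = x (rf r s) := by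
  by_cases h1 : s = r
  · subst h1
    rw [rf_self]
    exact nn_conj_self hm h s
  by_cases h2 : s = -r
  · subst h2
    have h3 := nn_conj_self hm h (-r)
    rw [nn_neg hm h, neg_neg'] at h3
    rw [rf_neg, rf_self, neg_neg']
    exact h3
  exact nn_conj_ne (by omega) h h1 h2

/-- MODULE ce. `nn s` is a product of `x (± s)`; `nn_conj`, `rf_neg`. -/
theorem nn_nn (hm : m = 3 ∨ m = 4) {x : Root (4 + m) → G} (h : Stb (4 + m) x) (r s : Root (4 + m)) :
    nn x r * nn x s * (nn x r)⁻¹ = nn x (rf r s) := by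
  have h1 := nn_conj hm h r s
  have h2 := nn_conj hm h r (-s)
  rw [rf_neg] at h2
  calc nn x r * (x s * x (-s) * x s) * (nn x r)⁻¹ =
      (nn x r * x s * (nn x r)⁻¹) * (nn x r * x (-s) * (nn x r)⁻¹) * (nn x r * x s * (nn x r)⁻¹) := by group
    _ = nn x (rf r s) := by rw [h1, h2]; rfl

/-- the product of the `n_r` of a word -/
def nw (x : Root n → G) (w : List (Root n)) : G := (w.map (nn x)).prod

/-- the action of a word -/
def act (w : List (Root n)) (s : Root n) : Root n := w.foldr rf s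

/-- MODULE cf. Induction on `w`. -/
theorem nw_conj (hm : m = 3 ∨ m = 4) {x : Root (4 + m) → G} (h : Stb (4 + m) x) (w : List (Root (4 + m)))
    (s : Root (4 + m)) : nw x w * x s * (nw x w)⁻¹ = x (act w s) := by
  induction w with
  | nil =>
    show (1 : G) * x s * (1 : G)⁻¹ = x s
    rw [one_mul, inv_one, mul_one]
  | cons r w ih =>
    have e : nw x (r :: w) = nn x r * nw x w := by
      unfold nw
      rw [List.map_cons, List.prod_cons]
    have e2 : act (r :: w) s = rf r (act w s) := rfl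
    rw [e, e2, ← nn_conj hm h r (act w s), ← ih]
    group

/-- MODULE cf. Induction on `w`. -/
theorem nw_nn (hm : m = 3 ∨ m = 4) {x : Root (4 + m) → G} (h : Stb (4 + m) x) (w : List (Root (4 + m)))
    (s : Root (4 + m)) : nw x w * nn x s * (nw x w)⁻¹ = nn x (act w s) := by
  induction w with
  | nil =>
    show (1 : G) * nn x s * (1 : G)⁻¹ = nn x s
    rw [one_mul, inv_one, mul_one]
  | cons r w ih =>
    have e : nw x (r :: w) = nn x r * nw x w := by
      unfold nw
      rw [List.map_cons, List.prod_cons]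
    have e2 : act (r :: w) s = rf r (act w s) := rfl
    rw [e, e2, ← nn_nn hm h r (act w s), ← ih]
    group

/-- MODULE cf. -/
theorem nw_append (x : Root n → G) (w w' : List (Root n)) : nw x (w ++ w') = nw x w * nw x w' := by
  unfold nw
  rw [List.map_append, List.prod_append]

/-- MODULE cf. -/
theorem act_neg (w : List (Root n)) (s : Root n) : act w (-s) = -(act w s) := by
  induction w with
  | nil => rfl
  | cons r w ih =>
    show rf r (act w (-s)) = -(rf r (act w s))
    rw [ih, rf_neg]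

/-- MODULE cf. `rf_rf`; `List.foldr` of the reversed word. -/
theorem act_reverse (w : List (Root n)) (s : Root n) : act w (act w.reverse s) = s ∧ act w.reverse (act w s) = s := by
  induction w generalizing s with
  | nil => exact ⟨rfl, rfl⟩
  | cons r w ih =>
    have e1 : ∀ u : Root n, act (r :: w) u = rf r (act w u) := fun _ => rfl
    have e2 : ∀ u : Root n, act (r :: w).reverse u = act w.reverse (rf r u) := by
      intro u
      unfold act
      rw [List.reverse_cons, List.foldr_append]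
      rfl
    constructor
    · rw [e1, e2, (ih (rf r s)).1, rf_rf]
    · rw [e1, e2, rf_rf, (ih s).2]

end ThE
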