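import Pool.Agent.ThE.Cmp

/-! # Tables: factorizations of the block companion matrices (found by computer, checked by the kernel) -/

namespace ThE

open Matrix

/-- the check of a certificate `(L, P, P', R, R')`: `P P' = 1`, `R R' = 1`, `A P = P W R W R'` for the block companion matrix `A` of `L` -/
def chk (k : ℕ) (W : Matrix (Fin k) (Fin k) (ZMod 2)) (c : List ℕ × List ℕ × List ℕ × List ℕ × List ℕ) : Bool :=
  decide (bm k c.2.1 * bm k c.2.2.1 = 1) && decide (bm k c.2.2.2.1 * bm k c.2.2.2.2 = 1) &&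
    decide (cbm k c.1 * bm k c.2.1 = bm k c.2.1 * W * (bm k c.2.2.2.1 * W * bm k c.2.2.2.2))

/-- certificates -/
def dat5 : List (List ℕ × List ℕ × List ℕ × List ℕ × List ℕ) := [
  ([63], [30, 13, 21, 3, 1], [16, 24, 31, 13, 11], [7, 13, 11, 3, 22], [7, 15, 9, 12, 22]),
  ([61], [11, 16, 18, 4, 12], [31, 6, 8, 24, 2], [3, 24, 29, 10, 19], [26, 27, 28, 19, 17]),
  ([59], [26, 6, 11, 14, 27], [17, 31, 29, 10, 20], [2, 6, 29, 8, 7], [18, 1, 3, 8, 29]),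
  ([57], [1, 18, 14, 20, 4], [1, 26, 16, 14, 24], [30, 13, 25, 8, 9], [24, 15, 18, 8, 20]),
  ([55], [9, 18, 11, 31, 12], [26, 5, 11, 27, 7], [8, 29, 1, 12, 10], [4, 17, 9, 1, 14]),
  ([53], [21, 31, 17, 2, 13], [30, 8, 5, 11, 26], [22, 3, 17, 19, 28], [14, 12, 7, 29, 10]),
  ([51], [14, 2, 10, 11, 24], [12, 2, 5, 6, 22], [4, 5, 10, 9, 26], [3, 15, 1, 11, 20]),
  ([49], [16, 22, 21, 23, 30], [10, 12, 15, 18, 1], [13, 18, 9, 20, 14], [30, 15, 5, 26, 13]),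
  ([47], [4, 16, 19, 21, 11], [11, 13, 1, 22, 2], [6, 5, 26, 18, 24], [23, 20, 21, 12, 28]),
  ([45], [18, 9, 5, 8, 25], [10, 19, 14, 8, 18], [30, 22, 25, 12, 24], [20, 26, 11, 3, 19]),
  ([43], [29, 30, 19, 6, 23], [31, 28, 20, 13, 7], [12, 19, 16, 21, 13], [17, 23, 29, 28, 4]),
  ([41], [10, 15, 3, 20, 26], [26, 30, 25, 31, 17], [14, 30, 9, 3, 17], [19, 27, 13, 23, 3]),
  ([39], [28, 7, 8, 1, 24], [8, 27, 17, 4, 20], [18, 6, 5, 7, 31], [10, 12, 14, 21, 13]),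
  ([37], [3, 22, 25, 5, 29], [28, 29, 20, 19, 11], [8, 15, 5, 27, 14], [18, 7, 22, 1, 28]),
  ([35], [31, 2, 16, 14, 5], [13, 2, 29, 23, 4], [10, 15, 19, 31, 24], [21, 27, 22, 26, 10]),
  ([33], [31, 26, 20, 18, 19], [24, 23, 27, 10, 31], [6, 2, 10, 22, 3], [18, 2, 3, 6, 9]),
  ([31, 3], [11, 16, 18, 4, 12], [31, 6, 8, 24, 2], [21, 20, 8, 16, 30], [3, 22, 10, 4, 8]),
  ([29, 3], [11, 17, 9, 4, 20], [26, 5, 8, 30, 24], [2, 28, 10, 26, 5], [27, 1, 11, 5, 12]),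
  ([27, 3], [1, 18, 14, 20, 4], [1, 26, 16, 14, 24], [30, 24, 27, 20, 2], [22, 16, 19, 25, 27]),
  ([25, 3], [20, 22, 9, 16, 3], [19, 3, 9, 23, 8], [17, 31, 12, 9, 13], [20, 7, 24, 28, 21]),
  ([23, 3], [24, 6, 10, 17, 19], [21, 24, 26, 28, 29], [7, 13, 1, 28, 15], [4, 18, 23, 17, 14]),
  ([21, 3], [10, 22, 11, 8, 12], [5, 9, 24, 8, 19], [3, 31, 20, 25, 22], [21, 20, 30, 7, 26]),
  ([19, 3], [5, 25, 4, 20, 26], [5, 23, 4, 11, 12], [9, 20, 8, 26, 2], [5, 16, 30, 4, 28]),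
  ([17, 3], [29, 30, 19, 6, 23], [31, 28, 20, 13, 7], [7, 13, 20, 6, 17], [9, 21, 29, 22, 25]),
  ([15, 7], [3, 22, 25, 5, 29], [28, 29, 20, 19, 11], [30, 25, 22, 5, 16], [23, 11, 31, 5, 16]),
  ([15, 5], [24, 8, 2, 13, 1], [16, 4, 26, 2, 3], [16, 6, 7, 26, 31], [6, 28, 30, 21, 1]),
  ([15, 3, 3], [12, 8, 9, 19, 25], [6, 26, 3, 2, 20], [11, 31, 10, 13, 14], [5, 29, 20, 25, 23]),
  ([13, 7], [20, 29, 5, 10, 4], [20, 31, 16, 23, 17], [4, 21, 11, 29, 19], [29, 19, 1, 10, 30]),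
  ([13, 5], [2, 19, 3, 22, 26], [5, 1, 15, 23, 6], [19, 17, 9, 14, 16], [18, 3, 29, 22, 16]),
  ([13, 3, 3], [10, 12, 13, 18, 5], [6, 21, 22, 20, 29], [26, 23, 1, 8, 11], [4, 28, 15, 8, 21]),
  ([11, 7], [3, 11, 25, 20, 2], [17, 16, 30, 3, 22], [26, 1, 16, 9, 4], [2, 15, 16, 10, 4]),
  ([11, 5], [24, 3, 29, 28, 22], [12, 14, 9, 22, 23], [8, 22, 16, 20, 25], [21, 10, 12, 1, 4]),
  ([11, 3, 3], [28, 7, 8, 1, 24], [8, 27, 17, 4, 20], [19, 24, 16, 7, 10], [19, 22, 13, 6, 4]),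
  ([9, 7], [13, 28, 23, 19, 14], [26, 11, 12, 23, 25], [28, 15, 10, 26, 1], [16, 31, 22, 27, 12]),
  ([9, 5], [13, 30, 26, 27, 10], [12, 27, 6, 11, 20], [22, 16, 4, 8, 3], [23, 7, 4, 8, 2]),
  ([9, 3, 3], [9, 17, 26, 8, 28], [9, 7, 19, 8, 11], [16, 23, 21, 9, 17], [17, 6, 20, 25, 1]),
  ([7, 7, 3], [26, 6, 11, 14, 27], [17, 31, 29, 10, 20], [23, 20, 16, 2, 31], [11, 8, 6, 17, 4]),
  ([7, 5, 3], [2, 9, 31, 17, 16], [24, 1, 23, 26, 16], [28, 13, 24, 22, 30], [31, 17, 5, 24, 28]),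
  ([7, 3, 3, 3], [13, 30, 26, 27, 10], [12, 27, 6, 11, 20], [31, 21, 3, 6, 14], [31, 27, 19, 24, 14]),
  ([5, 5, 3], [16, 21, 22, 28, 7], [21, 19, 22, 31, 1], [26, 8, 21, 2, 4], [31, 8, 16, 2, 11]),
  ([5, 3, 3, 3], [11, 16, 18, 4, 12], [31, 6, 8, 24, 2], [7, 28, 15, 10, 23], [26, 13, 22, 5, 17])]

/-- certificates -/
def dat4 : List (List ℕ × List ℕ × List ℕ × List ℕ × List ℕ) := [
  ([31], [11, 15, 5, 9], [7, 9, 3, 15], [13, 5, 12, 10], [5, 11, 7, 3]),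
  ([29], [7, 14, 2, 8], [11, 4, 14, 8], [8, 1, 3, 4], [2, 6, 8, 1]),
  ([27], [4, 5, 3, 10], [3, 7, 1, 15], [3, 15, 2, 8], [5, 4, 11, 8]),
  ([25], [12, 2, 9, 6], [15, 2, 10, 11], [7, 12, 8, 6], [9, 14, 6, 4]),
  ([23], [7, 1, 5, 9], [2, 5, 6, 10], [7, 3, 5, 12], [7, 5, 3, 11]),
  ([21], [14, 7, 13, 15], [9, 12, 7, 10], [10, 15, 2, 6], [15, 4, 12, 5]),
  ([19], [12, 7, 8, 2], [15, 8, 5, 4], [10, 11, 4, 6], [3, 12, 4, 13]),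
  ([17], [6, 15, 12, 13], [12, 10, 11, 15], [10, 1, 8, 13], [2, 5, 14, 4]),
  ([15, 3], [11, 12, 4, 14], [13, 10, 4, 6], [8, 1, 13, 7], [2, 13, 7, 1]),
  ([13, 3], [6, 8, 1, 10], [4, 10, 11, 2], [12, 4, 9, 11], [7, 12, 2, 3]),
  ([11, 3], [5, 3, 1, 8], [4, 6, 5, 8], [8, 3, 9, 12], [5, 7, 9, 1]),
  ([9, 3], [4, 9, 5, 14], [5, 14, 1, 7], [12, 10, 13, 14], [5, 9, 10, 11]),
  ([7, 7], [14, 7, 13, 15], [9, 12, 7, 10], [12, 15, 1, 5], [4, 7, 12, 13]),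
  ([7, 5], [12, 7, 4, 5], [12, 10, 4, 5], [10, 2, 9, 12], [7, 2, 11, 3]),
  ([7, 3, 3], [13, 7, 6, 15], [6, 9, 13, 10], [12, 14, 5, 4], [12, 3, 8, 9]),
  ([5, 5], [14, 15, 9, 4], [3, 14, 8, 7], [12, 5, 11, 6], [13, 7, 15, 14]),
  ([5, 3, 3], [14, 9, 5, 8], [10, 7, 14, 8], [9, 8, 6, 5], [3, 15, 11, 2]),
  ([3, 3, 3, 3], [14, 7, 13, 15], [9, 12, 7, 10], [4, 8, 1, 2], [4, 8, 1, 2])]

/-- certificates -/
def dat3 : List (List ℕ × List ℕ × List ℕ × List ℕ × List ℕ) := [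
  ([15], [3, 2, 7], [3, 2, 5], [1, 6, 5], [1, 7, 5]),
  ([13], [4, 3, 5], [5, 7, 1], [1, 6, 2], [1, 4, 6]),
  ([11], [4, 1, 3], [2, 6, 1], [4, 3, 6], [7, 5, 1]),
  ([9], [4, 3, 5], [5, 7, 1], [1, 7, 2], [1, 4, 7]),
  ([7, 3], [3, 2, 7], [3, 2, 5], [1, 2, 6], [1, 2, 6]),
  ([5, 3], [1, 5, 7], [1, 6, 3], [7, 2, 4], [7, 2, 4]),
  ([3, 3, 3], [4, 1, 3], [2, 6, 1], [1, 3, 4], [1, 3, 4])]

theorem wd5_rows : (wd W5).1 = bm 5 [31, 30, 28, 24, 17] := by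
  decide +kernel

theorem wd4_rows : (wd W4).1 = bm 4 [15, 14, 12, 9] := by
  decide +kernel

theorem wd3_rows : (wd W3).1 = bm 3 [2, 3, 4] := by
  decide +kernel

theorem dat5_chk : ∀ c ∈ dat5, chk 5 (bm 5 [31, 30, 28, 24, 17]) c = true := by
  decide +kernel

theorem dat4_chk : ∀ c ∈ dat4, chk 4 (bm 4 [15, 14, 12, 9]) c = true := by
  decide +kernel

theorem dat3_chk : ∀ c ∈ dat3, chk 3 (bm 3 [2, 3, 4]) c = true := by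
  decide +kernel

theorem dat5_all : ∀ L ∈ enum 6 5 63, L = [3, 3, 3, 3, 3] ∨ L ∈ dat5.map Prod.fst := by
  decide +kernel

theorem dat4_all : ∀ L ∈ enum 5 4 31, L ∈ dat4.map Prod.fst := by
  decide +kernel

theorem dat3_all : ∀ L ∈ enum 4 3 15, L ∈ dat3.map Prod.fst := by
  decide +kernel

end ThE
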